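import Mathlib

set_option autoImplicit false
set_option linter.style.haveILetI false
set_option linter.unusedVariables false

/-!
# Zero-free majorants: Poisson-Jensen inequality (copy of W891/Maj.lean)
-/

namespace Pool.Agent.W775.SR.Dom

open Metric Set Filter Topology ComplexConjugate Complex MeromorphicOn Real

theorem factor {f : ℂ → ℂ} {R : ℝ} (hR : 0 < R) (hf : AnalyticOnNhd ℂ f (closedBall 0 R))
    (hne : ∀ z ∈ sphere (0 : ℂ) R, f z ≠ 0) :
    ∃ (S : Finset ℂ) (m : ℂ → ℕ) (g : ℂ → ℂ), (∀ u ∈ S, ‖u‖ < R) ∧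
      AnalyticOnNhd ℂ g (closedBall 0 R) ∧ (∀ z ∈ closedBall (0 : ℂ) R, g z ≠ 0) ∧
      ∀ z ∈ closedBall (0 : ℂ) R, f z = (∏ u ∈ S, (z - u) ^ (m u)) * g z := by
  have hRs : (R : ℂ) ∈ sphere (0 : ℂ) R := by simp [abs_of_pos hR]
  have hm : MeromorphicOn f (closedBall 0 R) := hf.meromorphicOn
  have h2 : ∀ u : closedBall (0 : ℂ) R, meromorphicOrderAt f u ≠ ⊤ := by
    rw [← hm.exists_meromorphicOrderAt_ne_top_iff_forall
      ⟨⟨0, by simp [hR.le]⟩, (convex_closedBall 0 R).isPreconnected⟩]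
    refine ⟨⟨R, sphere_subset_closedBall hRs⟩, ?_⟩
    have ha := hf R (sphere_subset_closedBall hRs)
    rw [ha.meromorphicOrderAt_eq, ha.analyticOrderAt_eq_zero.2 (hne _ hRs)]
    simp
  have h3 : (divisor f (closedBall 0 R)).support.Finite :=
    (divisor f (closedBall 0 R)).finiteSupport (isCompact_closedBall 0 R)
  obtain ⟨g, hg, hg0, hfg⟩ := hm.extract_zeros_poles h2 h3
  set D := divisor f (closedBall 0 R) with hD
  have hDnn : 0 ≤ D := hf.divisor_nonneg
  have hsup : (Function.mulSupport fun u : ℂ => ((· - u) ^ D u : ℂ → ℂ)) ⊆ h3.toFinset := by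
    intro u hu
    simp only [Finite.coe_toFinset, Function.mem_support]
    intro h0
    apply hu
    show ((· - u) ^ D u : ℂ → ℂ) = 1
    rw [h0, zpow_zero]
  rw [finprod_eq_prod_of_mulSupport_subset _ hsup] at hfg
  refine ⟨h3.toFinset, fun u => (D u).toNat, g, ?_, hg, fun z hz => hg0 ⟨z, hz⟩, ?_⟩
  · intro u hu
    rw [Finite.mem_toFinset] at hu
    have hu1 : u ∈ closedBall (0 : ℂ) R := D.supportWithinDomain hu
    rw [mem_closedBall_zero_iff] at hu1
    refine lt_of_le_of_ne hu1 fun h => hu ?_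
    have hus : u ∈ sphere (0 : ℂ) R := by simpa using h
    have ha := hf u (sphere_subset_closedBall hus)
    rw [hD, hm.divisor_apply (sphere_subset_closedBall hus), ha.meromorphicOrderAt_eq,
      ha.analyticOrderAt_eq_zero.2 (hne _ hus)]
    simp
  · have hF2 : ∀ z, (∏ u ∈ h3.toFinset, ((· - u) ^ D u : ℂ → ℂ)) z =
        ∏ u ∈ h3.toFinset, (z - u) ^ (D u).toNat := by
      intro z
      rw [Finset.prod_apply]
      refine Finset.prod_congr rfl fun u _ => ?_
      rw [Pi.pow_apply, ← zpow_natCast, Int.toNat_of_nonneg (hDnn u)]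
    intro x hx
    rw [EventuallyEq, Filter.Eventually, mem_codiscreteWithin_iff_forall_mem_nhdsNE] at hfg
    have h4 := hfg x hx
    have h5 : ∀ᶠ z in 𝓝[closedBall (0 : ℂ) R \ {x}] x,
        f z = (∏ u ∈ h3.toFinset, (z - u) ^ (D u).toNat) * g z := by
      have h6 : 𝓝[closedBall (0 : ℂ) R \ {x}] x ≤ 𝓝[≠] x :=
        nhdsWithin_mono _ fun z hz => hz.2
      filter_upwards [h6 h4, self_mem_nhdsWithin] with z hz hz'
      rcases hz with hz | hz
      · have hz2 : f z = ((∏ u ∈ h3.toFinset, ((· - u) ^ D u : ℂ → ℂ)) • g) z := hz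
        rw [hz2, Pi.smul_apply', hF2, smul_eq_mul]
      · exact absurd hz'.1 hz
    haveI hbot : (𝓝[closedBall (0 : ℂ) R \ {x}] x).NeBot := by
      have hnt : (closedBall (0 : ℂ) R).Nontrivial :=
        ⟨(R : ℂ), sphere_subset_closedBall hRs, 0, by simp [hR.le], by
          intro h; apply hR.ne'; exact_mod_cast h⟩
      have h7 := (convex_closedBall (0 : ℂ) R).isPreconnected.preperfect_of_nontrivial hnt x hx
      rw [accPt_principal_iff_nhdsWithin] at h7
      exact h7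
    have hfc : Tendsto f (𝓝[closedBall (0 : ℂ) R \ {x}] x) (𝓝 (f x)) :=
      (hf x hx).continuousAt.tendsto.mono_left nhdsWithin_le_nhds
    have hgc : Tendsto (fun z => (∏ u ∈ h3.toFinset, (z - u) ^ (D u).toNat) * g z)
        (𝓝[closedBall (0 : ℂ) R \ {x}] x)
        (𝓝 ((∏ u ∈ h3.toFinset, (x - u) ^ (D u).toNat) * g x)) := by
      refine Tendsto.mono_left ?_ nhdsWithin_le_nhds
      refine ContinuousAt.tendsto ?_
      refine ContinuousAt.mul ?_ (hg x hx).continuousAt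
      fun_prop
    exact tendsto_nhds_unique hfc (hgc.congr' (h5.mono fun z hz => hz.symm))

/-- Poisson-Jensen: a function without zeros on the circle is dominated by a zero-free function
with the same modulus on the circle -/
theorem dominate {f : ℂ → ℂ} {R : ℝ} (hR : 0 < R) (hf : AnalyticOnNhd ℂ f (closedBall 0 R))
    (hne : ∀ z ∈ sphere (0 : ℂ) R, f z ≠ 0) :
    ∃ g : ℂ → ℂ, AnalyticOnNhd ℂ g (closedBall 0 R) ∧ (∀ z ∈ closedBall (0 : ℂ) R, g z ≠ 0) ∧
      (∀ z ∈ closedBall (0 : ℂ) R, ‖f z‖ ≤ ‖g z‖) ∧ ∀ z ∈ sphere (0 : ℂ) R, ‖g z‖ = ‖f z‖ := by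
  obtain ⟨S, m, g, hS, hg, hg0, hfg⟩ := factor hR hf hne
  have hsq : ∀ u z : ℂ, ‖(R : ℂ) ^ 2 - conj u * z‖ ^ 2 - (R * ‖z - u‖) ^ 2 =
      (R ^ 2 - ‖u‖ ^ 2) * (R ^ 2 - ‖z‖ ^ 2) := by
    intro u z
    have h : ∀ w : ℂ, ‖w‖ ^ 2 = w.re ^ 2 + w.im ^ 2 := fun w => by
      rw [← Complex.normSq_eq_norm_sq, Complex.normSq_apply]; ring
    have e : (R : ℂ) ^ 2 = ((R ^ 2 : ℝ) : ℂ) := by push_cast; rfl
    rw [mul_pow, e]
    simp only [h, Complex.sub_re, Complex.sub_im, Complex.mul_re, Complex.mul_im, Complex.conj_re,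
      Complex.conj_im, Complex.ofReal_re, Complex.ofReal_im]
    ring
  have h1 : ∀ u ∈ S, ∀ z ∈ closedBall (0 : ℂ) R,
      ‖z - u‖ ≤ ‖((R : ℂ) ^ 2 - conj u * z) / R‖ := by
    intro u hu z hz
    have h2 := hS u hu
    rw [mem_closedBall_zero_iff] at hz
    have h3 := hsq u z
    have h4 : 0 ≤ (R ^ 2 - ‖u‖ ^ 2) * (R ^ 2 - ‖z‖ ^ 2) := by
      apply mul_nonneg <;> nlinarith [norm_nonneg u, norm_nonneg z]
    rw [norm_div, Complex.norm_real, Real.norm_eq_abs, abs_of_pos hR, le_div_iff₀ hR, mul_comm]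
    exact le_of_sq_le_sq (by linarith) (norm_nonneg _)
  have h2 : ∀ u ∈ S, ∀ z ∈ sphere (0 : ℂ) R,
      ‖((R : ℂ) ^ 2 - conj u * z) / R‖ = ‖z - u‖ := by
    intro u hu z hz
    rw [mem_sphere_zero_iff_norm] at hz
    have h3 := hsq u z
    rw [hz, sub_self, mul_zero, sub_eq_zero] at h3
    rw [norm_div, Complex.norm_real, Real.norm_eq_abs, abs_of_pos hR, div_eq_iff hR.ne',
      mul_comm ‖z - u‖ R]
    exact (pow_left_inj₀ (norm_nonneg _) (by positivity) two_ne_zero).1 h3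
  have h3 : ∀ u ∈ S, ∀ z ∈ closedBall (0 : ℂ) R, ((R : ℂ) ^ 2 - conj u * z) / R ≠ 0 := by
    intro u hu z hz
    have h2 := hS u hu
    rw [mem_closedBall_zero_iff] at hz
    apply div_ne_zero
    · intro h
      have h4 : (R : ℂ) ^ 2 = conj u * z := sub_eq_zero.1 h
      have h5 := congrArg norm h4
      rw [norm_pow, Complex.norm_real, Real.norm_eq_abs, abs_of_pos hR, norm_mul,
        RCLike.norm_conj] at h5
      nlinarith [norm_nonneg u, norm_nonneg z]
    · exact_mod_cast hR.ne'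
  refine ⟨fun z => (∏ u ∈ S, (((R : ℂ) ^ 2 - conj u * z) / R) ^ (m u)) * g z, ?_, ?_, ?_, ?_⟩
  · intro z hz
    refine AnalyticAt.mul ?_ (hg z hz)
    refine Finset.analyticAt_fun_prod _ fun u _ => ?_
    fun_prop
  · intro z hz
    refine mul_ne_zero (Finset.prod_ne_zero_iff.2 fun u hu => pow_ne_zero _ (h3 u hu z hz))
      (hg0 z hz)
  · intro z hz
    rw [hfg z hz, norm_mul, norm_mul, norm_prod, norm_prod]
    refine mul_le_mul_of_nonneg_right ?_ (norm_nonneg _)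
    refine Finset.prod_le_prod (fun u _ => norm_nonneg _) fun u hu => ?_
    rw [norm_pow, norm_pow]
    exact pow_le_pow_left₀ (norm_nonneg _) (h1 u hu z hz) _
  · intro z hz
    show ‖(∏ u ∈ S, (((R : ℂ) ^ 2 - conj u * z) / R) ^ (m u)) * g z‖ = ‖f z‖
    rw [hfg z (sphere_subset_closedBall hz), norm_mul, norm_mul, norm_prod, norm_prod]
    congr 1
    refine Finset.prod_congr rfl fun u hu => ?_
    rw [norm_pow, norm_pow, h2 u hu z hz]

end Pool.Agent.W775.SR.Dom
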