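import Mathlib
import Pool.Agent.W775.SR.Dom

set_option autoImplicit false
set_option linter.unusedVariables false

/-!
# Circle averages, zeros of holomorphic functions
-/

namespace Pool.Agent.W775.SR

open Metric Set Filter Topology ComplexConjugate Real InnerProductSpace MeasureTheory

theorem ca_mono_cod {f₁ f₂ : ℂ → ℝ} {c : ℂ} {r : ℝ} (hr : r ≠ 0)
    (h1 : CircleIntegrable f₁ c r) (h2 : CircleIntegrable f₂ c r)
    (h : ∀ᶠ w in codiscreteWithin (sphere c |r|), f₁ w ≤ f₂ w) :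
    circleAverage f₁ c r ≤ circleAverage f₂ c r := by
  unfold circleAverage
  rw [smul_eq_mul, smul_eq_mul]
  apply mul_le_mul_of_nonneg_left _ (by positivity)
  apply intervalIntegral.integral_mono_ae_restrict (by positivity) h1 h2
  have h3 : (circleMap c r) ⁻¹' {w | f₁ w ≤ f₂ w} ∈ codiscrete ℝ :=
    circleMap_preimage_codiscrete hr h
  have h4 : ∀ᵐ x ∂(volume.restrict (Icc 0 (2 * π))), x ∈ (circleMap c r) ⁻¹' {w | f₁ w ≤ f₂ w} :=
    ae_restrict_le_codiscreteWithin measurableSet_Icc (codiscreteWithin_mono (by tauto) h3)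
  exact h4

theorem ca_mono_ne {F : ℂ → ℂ} {f₁ f₂ : ℂ → ℝ} {c : ℂ} {r : ℝ} (hr : 0 < r)
    (hF : AnalyticOnNhd ℂ F (closedBall c r)) (hF0 : ∃ x ∈ closedBall c r, F x ≠ 0)
    (h1 : CircleIntegrable f₁ c r) (h2 : CircleIntegrable f₂ c r)
    (h : ∀ w ∈ sphere c r, F w ≠ 0 → f₁ w ≤ f₂ w) :
    circleAverage f₁ c r ≤ circleAverage f₂ c r := by
  apply ca_mono_cod hr.ne' h1 h2
  rw [abs_of_pos hr]
  obtain ⟨x, hx, hFx⟩ := hF0
  have h3 : F ⁻¹' {0}ᶜ ∈ codiscreteWithin (closedBall c r) :=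
    hF.preimage_zero_mem_codiscreteWithin hFx hx
      ⟨⟨x, hx⟩, (convex_closedBall c r).isPreconnected⟩
  have h4 : F ⁻¹' {0}ᶜ ∈ codiscreteWithin (sphere c r) :=
    codiscreteWithin_mono sphere_subset_closedBall h3
  filter_upwards [h4, self_mem_codiscreteWithin (sphere c r)] with w hw hw'
  exact h w hw' hw

theorem ci_const_mul {f : ℂ → ℝ} {c : ℂ} {r : ℝ} (a : ℝ) (hf : CircleIntegrable f c r) :
    CircleIntegrable (fun z => a * f z) c r :=
  IntervalIntegrable.const_mul (f := fun θ => f (circleMap c r θ)) hf a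

theorem ca_const_mul {f : ℂ → ℝ} {c : ℂ} {r : ℝ} (a : ℝ) :
    circleAverage (fun z => a * f z) c r = a * circleAverage f c r := by
  have := circleAverage_fun_smul (a := a) (f := f) (c := c) (R := r)
  simpa [smul_eq_mul] using this

/-- zeros of a holomorphic function on the disc, not identically zero, are finite in smaller discs -/
theorem zeros_finite {f : ℂ → ℂ} (hf : DifferentiableOn ℂ f (ball 0 1))
    (h0 : ∃ z ∈ ball (0 : ℂ) 1, f z ≠ 0) {b : ℝ} (hb : b < 1) :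
    ({z | f z = 0} ∩ closedBall (0 : ℂ) b).Finite := by
  have hsub : closedBall (0 : ℂ) b ⊆ ball 0 1 := closedBall_subset_ball hb
  have han : AnalyticOnNhd ℂ f (ball 0 1) := hf.analyticOnNhd isOpen_ball
  by_contra hinf
  obtain ⟨z, hz, hacc⟩ := Set.Infinite.exists_accPt_of_subset_isCompact hinf
    (isCompact_closedBall 0 b) inter_subset_right
  have h1 : ∃ᶠ w in 𝓝[≠] z, f w = 0 := by
    rw [accPt_iff_frequently_nhdsNE] at hacc
    exact hacc.mono fun w hw => hw.1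
  have h2 := han.eqOn_zero_of_preconnected_of_frequently_eq_zero
    (convex_ball 0 1).isPreconnected (hsub hz) h1
  obtain ⟨z, hz, hfz⟩ := h0
  exact hfz (h2 hz)

theorem zeros_countable {f : ℂ → ℂ} (hf : DifferentiableOn ℂ f (ball 0 1))
    (h0 : ∃ z ∈ ball (0 : ℂ) 1, f z ≠ 0) : ({z | f z = 0} ∩ ball (0 : ℂ) 1).Countable := by
  have h1 : ({z | f z = 0} ∩ ball (0 : ℂ) 1) ⊆
      ⋃ n : ℕ, ({z | f z = 0} ∩ closedBall (0 : ℂ) (1 - 1 / ((n : ℝ) + 1))) := by
    rintro z ⟨hz1, hz2⟩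
    rw [mem_ball_zero_iff] at hz2
    obtain ⟨n, hn⟩ := exists_nat_one_div_lt (sub_pos.2 hz2)
    refine mem_iUnion.2 ⟨n, hz1, ?_⟩
    rw [mem_closedBall_zero_iff]
    linarith
  refine Countable.mono h1 (countable_iUnion fun n => ?_)
  refine (zeros_finite hf h0 ?_).countable
  have : (0 : ℝ) < 1 / ((n : ℝ) + 1) := by positivity
  linarith

theorem exists_radius {f : ℂ → ℂ} (hf : DifferentiableOn ℂ f (ball 0 1))
    (h0 : ∃ z ∈ ball (0 : ℂ) 1, f z ≠ 0) {a b : ℝ} (hab : a < b) (hb : b < 1) :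
    ∃ R, a < R ∧ R < b ∧ ∀ z ∈ sphere (0 : ℂ) R, f z ≠ 0 := by
  have hfin := zeros_finite hf h0 hb
  have h3 : ((fun z : ℂ => ‖z‖) '' ({z | f z = 0} ∩ closedBall (0 : ℂ) b)).Finite :=
    hfin.image _
  obtain ⟨R, hR, hR'⟩ := ((Ioo_infinite hab).sdiff h3).nonempty
  refine ⟨R, hR.1, hR.2, fun z hz h0 => hR' ⟨z, ⟨h0, ?_⟩, ?_⟩⟩
  · rw [mem_sphere_zero_iff_norm] at hz
    rw [mem_closedBall_zero_iff, hz]
    exact hR.2.le
  · simpa using hz

/-- a holomorphic function which vanishes on a small ball vanishes on the disc -/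
theorem eq_zero_of_ball {f : ℂ → ℂ} (hf : DifferentiableOn ℂ f (ball 0 1)) {z₀ : ℂ}
    (hz₀ : z₀ ∈ ball (0 : ℂ) 1) {r : ℝ} (hr : 0 < r) (h : ∀ z ∈ ball z₀ r, f z = 0) :
    ∀ z ∈ ball (0 : ℂ) 1, f z = 0 := by
  have han : AnalyticOnNhd ℂ f (ball 0 1) := hf.analyticOnNhd isOpen_ball
  have h1 : f =ᶠ[𝓝 z₀] 0 := by
    filter_upwards [ball_mem_nhds z₀ hr] with z hz using h z hz
  exact fun z hz => han.eqOn_zero_of_preconnected_of_eventuallyEq_zero
    (convex_ball 0 1).isPreconnected hz₀ h1 hz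

/-- mean value property of the real part -/
theorem re_mean {W : ℂ → ℂ} (hW : DifferentiableOn ℂ W (ball 0 1)) {z : ℂ} {R : ℝ}
    (h : closedBall z |R| ⊆ ball 0 1) : circleAverage (fun w => (W w).re) z R = (W z).re := by
  have han : AnalyticOnNhd ℂ W (ball 0 1) := hW.analyticOnNhd isOpen_ball
  have h1 : HarmonicOnNhd (fun w => (W w).re) (closedBall z |R|) := fun x hx =>
    (han x (h hx)).harmonicAt_re
  exact h1.circleAverage_eq

theorem re_cont {W : ℂ → ℂ} (hW : DifferentiableOn ℂ W (ball 0 1)) :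
    ContinuousOn (fun w => (W w).re) (ball 0 1) :=
  Complex.continuous_re.comp_continuousOn hW.continuousOn

theorem ci_of_contOn {u : ℂ → ℝ} (hu : ContinuousOn u (ball 0 1)) {z : ℂ} {R : ℝ}
    (h : closedBall z |R| ⊆ ball 0 1) : CircleIntegrable u z R :=
  (hu.mono (sphere_subset_closedBall.trans h)).circleIntegrable'

theorem sub_disc {z : ℂ} {R : ℝ} (hR : 0 ≤ R) (h : ‖z‖ + R < 1) :
    closedBall z |R| ⊆ ball 0 1 := by
  intro w hw
  rw [abs_of_nonneg hR, mem_closedBall, dist_eq_norm] at hw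
  rw [mem_ball_zero_iff]
  have := norm_sub_norm_le w z
  linarith

end Pool.Agent.W775.SR
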