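import Mathlib
import Pool.Agent.W775.SR.Circ

set_option autoImplicit false
set_option linter.unusedVariables false

/-!
# The function `log |f|` of a vector of holomorphic functions
-/

namespace Pool.Agent.W775.SR

open Metric Set Filter Topology ComplexConjugate Real InnerProductSpace MeasureTheory

variable {ι : Type} [Fintype ι]

noncomputable def n2 (f : ι → ℂ → ℂ) (z : ℂ) : ℝ := ∑ i, ‖f i z‖ ^ 2

noncomputable def uu (f : ι → ℂ → ℂ) (z : ℂ) : ℝ := (1 / 2) * Real.log (n2 f z)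

noncomputable def pp (f : ι → ℂ → ℂ) (z w : ℂ) : ℂ := ∑ i, f i w * conj (f i z)

theorem n2_nonneg (f : ι → ℂ → ℂ) (z : ℂ) : 0 ≤ n2 f z :=
  Finset.sum_nonneg fun i _ => by positivity

theorem n2_contOn {f : ι → ℂ → ℂ} (hf : ∀ i, DifferentiableOn ℂ (f i) (ball 0 1)) :
    ContinuousOn (n2 f) (ball 0 1) := by
  unfold n2
  exact continuousOn_finsetSum _ fun i _ => ((hf i).continuousOn.norm.pow 2)

theorem uu_contOn {f : ι → ℂ → ℂ} (hf : ∀ i, DifferentiableOn ℂ (f i) (ball 0 1))
    (hpos : ∀ z ∈ ball (0 : ℂ) 1, 0 < n2 f z) : ContinuousOn (uu f) (ball 0 1) := by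
  unfold uu
  exact ((n2_contOn hf).log fun z hz => (hpos z hz).ne').const_mul _ |>.congr fun z _ => rfl

theorem pp_self (f : ι → ℂ → ℂ) (z : ℂ) : pp f z z = (n2 f z : ℂ) := by
  unfold pp n2
  push_cast
  refine Finset.sum_congr rfl fun i _ => ?_
  rw [Complex.mul_conj, Complex.normSq_eq_norm_sq]
  push_cast
  rfl

theorem pp_diff {f : ι → ℂ → ℂ} (hf : ∀ i, DifferentiableOn ℂ (f i) (ball 0 1)) (z : ℂ) :
    DifferentiableOn ℂ (pp f z) (ball 0 1) := by
  unfold pp
  exact DifferentiableOn.fun_sum fun i _ => (hf i).mul_const _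

theorem norm_pp_sq_le (f : ι → ℂ → ℂ) (z w : ℂ) : ‖pp f z w‖ ^ 2 ≤ n2 f z * n2 f w := by
  have h1 : ‖pp f z w‖ ≤ ∑ i, ‖f i w‖ * ‖f i z‖ := by
    unfold pp
    refine (norm_sum_le _ _).trans (le_of_eq ?_)
    refine Finset.sum_congr rfl fun i _ => ?_
    rw [norm_mul, RCLike.norm_conj]
  have h2 := Finset.sum_mul_sq_le_sq_mul_sq Finset.univ (fun i => ‖f i w‖) (fun i => ‖f i z‖)
  calc ‖pp f z w‖ ^ 2 ≤ (∑ i, ‖f i w‖ * ‖f i z‖) ^ 2 := by gcongr
    _ ≤ _ := h2
    _ = n2 f z * n2 f w := by unfold n2; ring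

theorem log_pp_le {f : ι → ℂ → ℂ} {z w : ℂ} (hz : 0 < n2 f z) (hw : 0 < n2 f w)
    (h : pp f z w ≠ 0) : Real.log ‖pp f z w‖ ≤ uu f z + uu f w := by
  have h1 := norm_pp_sq_le f z w
  have h2 : Real.log (‖pp f z w‖ ^ 2) ≤ Real.log (n2 f z * n2 f w) :=
    Real.log_le_log (by positivity) h1
  rw [Real.log_pow, Real.log_mul hz.ne' hw.ne'] at h2
  unfold uu
  push_cast at h2
  linarith

theorem log_pp_self {f : ι → ℂ → ℂ} {z : ℂ} (hz : 0 < n2 f z) :
    Real.log ‖pp f z z‖ = 2 * uu f z := by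
  rw [pp_self, Complex.norm_real, Real.norm_eq_abs, abs_of_pos hz]
  unfold uu
  ring

theorem kernel_re_nonneg {R : ℝ} {w ζ : ℂ} (hw : w ∈ ball (0 : ℂ) R) (hζ : ζ ∈ sphere (0 : ℂ) R) :
    0 ≤ (herglotzRieszKernel 0 w ζ).re := by
  have h := le_re_herglotzRieszKernel hζ hw
  rw [herglotzRieszKernel_def]
  refine le_trans ?_ h
  rw [mem_ball_zero_iff] at hw
  rw [sub_zero]
  apply div_nonneg <;> linarith [norm_nonneg w]

theorem kernel_avg {R : ℝ} {w : ℂ} (hw : w ∈ ball (0 : ℂ) R) (a : ℝ) :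
    circleAverage ((Complex.re ∘ herglotzRieszKernel 0 w) • (fun _ => a)) 0 R = a := by
  have h : HarmonicOnNhd (fun _ : ℂ => a) (closedBall 0 R) := fun x _ =>
    harmonicAt_const a
  exact HarmonicOnNhd.circleAverage_re_herglotzRieszKernel_smul h hw

theorem kernel_ci {R : ℝ} {w : ℂ} (hw : w ∈ ball (0 : ℂ) R) {u : ℂ → ℝ}
    (hu : ContinuousOn u (sphere 0 R)) :
    CircleIntegrable ((Complex.re ∘ herglotzRieszKernel 0 w) • u) 0 R := by
  have hR : 0 < R := pos_of_mem_ball hw
  have hK : ContinuousOn (Complex.re ∘ herglotzRieszKernel 0 w) (sphere (0 : ℂ) |R|) :=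
    Complex.continuous_re.comp_continuousOn (continuousOn_herglotzRieszKernel_sphere hw)
  apply ContinuousOn.circleIntegrable'
  refine hK.smul ?_
  rw [abs_of_pos hR]
  exact hu

theorem kernel_mono {R : ℝ} {w : ℂ} (hw : w ∈ ball (0 : ℂ) R) {u v : ℂ → ℝ}
    (hu : ContinuousOn u (sphere 0 R)) (hv : ContinuousOn v (sphere 0 R))
    (h : ∀ z ∈ sphere (0 : ℂ) R, u z ≤ v z) :
    circleAverage ((Complex.re ∘ herglotzRieszKernel 0 w) • u) 0 R ≤
      circleAverage ((Complex.re ∘ herglotzRieszKernel 0 w) • v) 0 R := by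
  have hR : 0 < R := pos_of_mem_ball hw
  apply circleAverage_mono (kernel_ci hw hu) (kernel_ci hw hv)
  intro z hz
  rw [abs_of_pos hR] at hz
  simp only [Pi.smul_apply', Function.comp_apply, smul_eq_mul]
  exact mul_le_mul_of_nonneg_left (h z hz) (kernel_re_nonneg hw hz)

/-- Poisson-Jensen for the vector, when the circle has no zeros of `pp` -/
theorem pj_uu0 {f : ι → ℂ → ℂ} (hf : ∀ i, DifferentiableOn ℂ (f i) (ball 0 1))
    (hpos : ∀ z ∈ ball (0 : ℂ) 1, 0 < n2 f z) {t : ℝ} (ht : t < 1) {z : ℂ}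
    (hz : z ∈ ball (0 : ℂ) t) (hne : ∀ w ∈ sphere (0 : ℂ) t, pp f z w ≠ 0) :
    uu f z ≤ circleAverage ((Complex.re ∘ herglotzRieszKernel 0 z) • uu f) 0 t := by
  have ht0 : 0 < t := pos_of_mem_ball hz
  have hsub : closedBall (0 : ℂ) t ⊆ ball 0 1 := closedBall_subset_ball ht
  have hz' := ball_subset_closedBall hz
  have han : AnalyticOnNhd ℂ (pp f z) (closedBall 0 t) :=
    ((pp_diff hf z).analyticOnNhd isOpen_ball).mono hsub
  obtain ⟨g, hg, hg0, hfg, hfg'⟩ := Pool.Agent.W775.SR.Dom.dominate ht0 han hne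
  have hharm : HarmonicOnNhd (fun z => Real.log ‖g z‖) (closedBall 0 t) := fun x hx =>
    (hg x hx).harmonicAt_log_norm (hg0 x hx)
  have h1 := HarmonicOnNhd.circleAverage_re_herglotzRieszKernel_smul hharm hz
  have huc : ContinuousOn (uu f) (sphere 0 t) :=
    (uu_contOn hf hpos).mono (sphere_subset_closedBall.trans hsub)
  have hpz : pp f z z ≠ 0 := by
    rw [pp_self]
    exact_mod_cast (hpos z (hsub hz')).ne'
  have h2 : 2 * uu f z ≤ circleAverage ((Complex.re ∘ herglotzRieszKernel 0 z) •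
      fun w => uu f z + uu f w) 0 t := by
    calc 2 * uu f z = Real.log ‖pp f z z‖ := (log_pp_self (hpos z (hsub hz'))).symm
      _ ≤ Real.log ‖g z‖ := Real.log_le_log (norm_pos_iff.2 hpz) (hfg z hz')
      _ = circleAverage ((Complex.re ∘ herglotzRieszKernel 0 z) • fun z => Real.log ‖g z‖) 0 t :=
        h1.symm
      _ ≤ _ := by
        apply kernel_mono hz
        · intro x hx
          have hx' := sphere_subset_closedBall hx
          exact ((hg x hx').continuousAt.norm.log (norm_ne_zero_iff.2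
            (hg0 x hx'))).continuousWithinAt
        · exact continuousOn_const.add huc
        · intro x hx
          rw [hfg' x hx]
          exact log_pp_le (hpos z (hsub hz')) (hpos x (hsub (sphere_subset_closedBall hx)))
            (hne x hx)
  have h3 : circleAverage ((Complex.re ∘ herglotzRieszKernel 0 z) •
      fun w => uu f z + uu f w) 0 t = uu f z +
      circleAverage ((Complex.re ∘ herglotzRieszKernel 0 z) • uu f) 0 t := by
    have e : ((Complex.re ∘ herglotzRieszKernel 0 z) • fun w => uu f z + uu f w) =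
        ((Complex.re ∘ herglotzRieszKernel 0 z) • fun _ => uu f z) +
        ((Complex.re ∘ herglotzRieszKernel 0 z) • uu f) := by
      funext w
      simp only [Pi.smul_apply', Pi.add_apply, smul_eq_mul, Pi.mul_apply]
      ring
    rw [e, circleAverage_add (kernel_ci hz continuousOn_const) (kernel_ci hz huc), kernel_avg hz]
  rw [h3] at h2
  linarith

theorem kernel_contOn (z : ℂ) {u : ℂ → ℝ} (hu : ContinuousOn u (ball 0 1)) :
    ContinuousOn (circleAverage ((Complex.re ∘ herglotzRieszKernel 0 z) • u) 0)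
      (Ioo ‖z‖ 1) := by
  apply ContinuousOn.circleAverage
  · have h1 : ContinuousOn (Complex.re ∘ herglotzRieszKernel 0 z)
        {w : ℂ | ‖w - 0‖ ∈ Ioo ‖z‖ 1} := by
      apply Complex.continuous_re.comp_continuousOn
      rw [herglotzRieszKernel_fun_def]
      apply ContinuousOn.div (by fun_prop) (by fun_prop)
      intro w hw h0
      simp only [sub_zero] at h0 hw
      have h2 : w = z := sub_eq_zero.1 h0
      rw [h2] at hw
      exact lt_irrefl _ hw.1
    refine h1.smul (hu.mono ?_)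
    intro w hw
    rw [mem_ball_zero_iff]
    simpa using hw.2
  · intro r hr
    exact (norm_nonneg z).trans hr.1.le

/-- Poisson-Jensen for the vector -/
theorem pj_uu {f : ι → ℂ → ℂ} (hf : ∀ i, DifferentiableOn ℂ (f i) (ball 0 1))
    (hpos : ∀ z ∈ ball (0 : ℂ) 1, 0 < n2 f z) {t : ℝ} (ht : t < 1) {z : ℂ}
    (hz : z ∈ ball (0 : ℂ) t) :
    uu f z ≤ circleAverage ((Complex.re ∘ herglotzRieszKernel 0 z) • uu f) 0 t := by
  have hzt : ‖z‖ < t := by simpa using hz
  have hz1 : z ∈ ball (0 : ℂ) 1 := by rw [mem_ball_zero_iff]; linarith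
  have hpz : pp f z z ≠ 0 := by
    rw [pp_self]
    exact_mod_cast (hpos z hz1).ne'
  have hc := (kernel_contOn z (uu_contOn hf hpos)).continuousAt (Ioo_mem_nhds hzt ht)
  have hfr : ∃ᶠ s in 𝓝[>] t, uu f z ≤
      circleAverage ((Complex.re ∘ herglotzRieszKernel 0 z) • uu f) 0 s := by
    rw [frequently_iff]
    intro U hU
    obtain ⟨s, hs, hsU⟩ := (mem_nhdsGT_iff_exists_Ioo_subset' ht).1 hU
    have hts : t < min s 1 := lt_min hs ht
    obtain ⟨b, hb1, hb2⟩ := exists_between hts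
    obtain ⟨R, hR1, hR2, hR3⟩ := exists_radius (pp_diff hf z) ⟨z, hz1, hpz⟩ hb1
      (hb2.trans_le (min_le_right _ _))
    refine ⟨R, hsU ⟨hR1, hR2.trans (hb2.trans_le (min_le_left _ _))⟩, ?_⟩
    apply pj_uu0 hf hpos (hR2.trans (hb2.trans_le (min_le_right _ _))) _ hR3
    rw [mem_ball_zero_iff]
    linarith
  exact ge_of_tendsto_of_frequently (hc.tendsto.mono_left nhdsWithin_le_nhds) hfr

/-- the Herglotz integral -/
noncomputable def HW (u : ℂ → ℝ) (t : ℝ) (z : ℂ) : ℂ :=
  circleAverage (fun ζ => herglotzRieszKernel 0 z ζ • (u ζ : ℂ)) 0 t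

theorem HW_diff {u : ℂ → ℝ} {t : ℝ} (ht : 0 < t) (hu : ContinuousOn u (sphere 0 t)) :
    DifferentiableOn ℂ (HW u t) (ball 0 t) := by
  have hpi' : CircleIntegrable (fun z => (u z : ℂ)) 0 t := by
    apply ContinuousOn.circleIntegrable'
    rw [abs_of_pos ht]
    exact Complex.continuous_ofReal.comp_continuousOn hu
  exact differentiableOn_circleAverage_herglotzRieszKernel_smul hpi'

theorem HW_re {u : ℂ → ℝ} {t : ℝ} (hu : ContinuousOn u (sphere 0 t)) {z : ℂ}
    (hz : z ∈ ball (0 : ℂ) t) :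
    (HW u t z).re = circleAverage ((Complex.re ∘ herglotzRieszKernel 0 z) • u) 0 t := by
  have ht : 0 < t := pos_of_mem_ball hz
  have hpi : CircleIntegrable u 0 t := by
    apply ContinuousOn.circleIntegrable'
    rw [abs_of_pos ht]
    exact hu
  exact re_circleAverage_herglotzRieszKernel_smul hpi hz

theorem HW_zero {u : ℂ → ℝ} {t : ℝ} (ht : 0 < t) (hu : ContinuousOn u (sphere 0 t)) :
    HW u t 0 = ((circleAverage u 0 t : ℝ) : ℂ) := by
  have hpi : CircleIntegrable u 0 t := by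
    apply ContinuousOn.circleIntegrable'
    rw [abs_of_pos ht]
    exact hu
  have h1 : HW u t 0 = circleAverage (Complex.ofRealCLM ∘ u) 0 t := by
    unfold HW
    apply circleAverage_congr_sphere
    intro ζ hζ
    rw [abs_of_pos ht, mem_sphere_zero_iff_norm] at hζ
    have hζ0 : ζ ≠ 0 := by
      intro h; rw [h, norm_zero] at hζ; linarith
    simp only [Function.comp_apply, smul_eq_mul, herglotzRieszKernel_def,
      sub_zero, add_zero, div_self hζ0, one_mul, Complex.ofRealCLM_apply]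
  rw [h1, ContinuousLinearMap.circleAverage_comp_comm _ hpi]
  rfl

/-- the means over concentric circles increase -/
theorem mean_mono {f : ι → ℂ → ℂ} (hf : ∀ i, DifferentiableOn ℂ (f i) (ball 0 1))
    (hpos : ∀ z ∈ ball (0 : ℂ) 1, 0 < n2 f z) {s t : ℝ} (hs : 0 ≤ s) (hst : s ≤ t) (ht : t < 1) :
    circleAverage (uu f) 0 s ≤ circleAverage (uu f) 0 t := by
  rcases hst.eq_or_lt with h | hst
  · rw [h]
  have ht0 : 0 < t := hs.trans_lt hst
  have hsub : closedBall (0 : ℂ) t ⊆ ball 0 1 := closedBall_subset_ball ht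
  have hsub' : closedBall (0 : ℂ) s ⊆ ball 0 t := closedBall_subset_ball hst
  have huc := uu_contOn hf hpos
  have huc' : ContinuousOn (uu f) (sphere 0 t) :=
    huc.mono (sphere_subset_closedBall.trans hsub)
  have hd := HW_diff ht0 huc'
  have hharm : HarmonicOnNhd (fun z => (HW (uu f) t z).re) (closedBall 0 |s|) := fun x hx => by
    rw [abs_of_nonneg hs] at hx
    exact ((hd.analyticOnNhd isOpen_ball) x (hsub' hx)).harmonicAt_re
  have h1 := hharm.circleAverage_eq
  rw [HW_zero ht0 huc'] at h1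
  rw [Complex.ofReal_re] at h1
  rw [← h1]
  have hss : sphere (0 : ℂ) |s| ⊆ ball 0 t := by
    rw [abs_of_nonneg hs]; exact sphere_subset_closedBall.trans hsub'
  apply circleAverage_mono
  · exact ContinuousOn.circleIntegrable' (huc.mono (hss.trans (ball_subset_ball ht.le)))
  · exact ContinuousOn.circleIntegrable'
      ((Complex.continuous_re.comp_continuousOn hd.continuousOn).mono hss)
  · intro x hx
    rw [HW_re huc' (hss hx)]
    exact pj_uu hf hpos ht (hss hx)

end Pool.Agent.W775.SR
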