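import Mathlib
import Pool.Agent.W775.SR.Vec
import Pool.Agent.Helper114.MontelSol

set_option autoImplicit false
set_option linter.unusedVariables false

/-!
# The Nevanlinna class and holomorphic majorants
-/

namespace Pool.Agent.W775.SR

open Metric Set Filter Topology ComplexConjugate Real InnerProductSpace MeasureTheory

/-- The Nevanlinna class of the disc. -/
def NV (f : ℂ → ℂ) : Prop :=
  DifferentiableOn ℂ f (ball 0 1) ∧
    ∃ M : ℝ, ∀ r ∈ Ioo (0 : ℝ) 1, circleAverage (fun z => log⁺ ‖f z‖) 0 r ≤ M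

/-- A holomorphic function with nonnegative real part. -/
def Maj (W : ℂ → ℂ) : Prop :=
  DifferentiableOn ℂ W (ball 0 1) ∧ ∀ z ∈ ball (0 : ℂ) 1, 0 ≤ (W z).re

theorem Maj.add {V W : ℂ → ℂ} (hV : Maj V) (hW : Maj W) : Maj (fun z => V z + W z) :=
  ⟨hV.1.add hW.1, fun z hz => by
    rw [Complex.add_re]; exact add_nonneg (hV.2 z hz) (hW.2 z hz)⟩

theorem Maj.const {a : ℝ} (ha : 0 ≤ a) : Maj (fun _ => (a : ℂ)) :=
  ⟨differentiableOn_const _, fun z _ => by simpa using ha⟩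

theorem Maj.smul {V : ℂ → ℂ} (hV : Maj V) {a : ℝ} (ha : 0 ≤ a) : Maj (fun z => (a : ℂ) * V z) :=
  ⟨hV.1.const_mul _, fun z hz => by
    rw [Complex.re_ofReal_mul]; exact mul_nonneg ha (hV.2 z hz)⟩

/-- Harnack -/
theorem Maj.harnack {W : ℂ → ℂ} (hW : Maj W) {z : ℂ} (hz : z ∈ ball (0 : ℂ) 1) :
    ‖W z‖ ≤ ‖W 0‖ * (1 + ‖z‖) / (1 - ‖z‖) := by
  have hz' : ‖z‖ < 1 := by simpa using hz
  have h1 : ∀ M : ℝ, 0 < M → ‖W z‖ ≤ 2 * M * ‖z‖ / (1 - ‖z‖) + ‖W 0‖ * (1 + ‖z‖) / (1 - ‖z‖) := by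
    intro M hM
    have := Complex.borelCaratheodory (f := fun z => -W z) (R := 1) hM hW.1.neg (fun x hx => by
      simp only [Set.mem_ofPred_eq, Complex.neg_re]
      have := hW.2 x hx
      linarith) one_pos hz
    simpa using this
  have h2 : Tendsto (fun M : ℝ => 2 * M * ‖z‖ / (1 - ‖z‖) + ‖W 0‖ * (1 + ‖z‖) / (1 - ‖z‖))
      (𝓝[>] 0) (𝓝 (2 * 0 * ‖z‖ / (1 - ‖z‖) + ‖W 0‖ * (1 + ‖z‖) / (1 - ‖z‖))) := by
    refine Tendsto.mono_left ?_ nhdsWithin_le_nhds
    exact Continuous.tendsto (by fun_prop) 0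
  have h3 := ge_of_tendsto h2 (by filter_upwards [self_mem_nhdsWithin] with M hM using h1 M hM)
  simpa using h3

theorem Maj.harnack' {W : ℂ → ℂ} (hW : Maj W) {z : ℂ} (hz : z ∈ ball (0 : ℂ) 1) :
    ‖W z‖ ≤ 2 * ‖W 0‖ / (1 - ‖z‖) := by
  have hz' : ‖z‖ < 1 := by simpa using hz
  refine (hW.harnack hz).trans ?_
  apply div_le_div_of_nonneg_right _ (by linarith)
  nlinarith [norm_nonneg (W 0)]

theorem NV.of_maj {f W : ℂ → ℂ} (hf : DifferentiableOn ℂ f (ball 0 1)) (hW : Maj W)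
    (h : ∀ z ∈ ball (0 : ℂ) 1, ‖f z‖ ≤ Real.exp (W z).re) : NV f := by
  refine ⟨hf, (W 0).re, fun r hr => ?_⟩
  have hsub : closedBall (0 : ℂ) |r| ⊆ ball 0 1 := sub_disc hr.1.le (by simpa using hr.2)
  rw [← re_mean hW.1 hsub]
  apply circleAverage_mono
  · apply ci_of_contOn _ hsub
    exact continuous_posLog.comp_continuousOn hf.continuousOn.norm
  · exact ci_of_contOn (re_cont hW.1) hsub
  · intro z hz
    have hz' := hsub (sphere_subset_closedBall hz)
    rw [posLog_apply]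
    apply max_le (hW.2 z hz')
    by_cases h0 : f z = 0
    · rw [h0, norm_zero, Real.log_zero]
      exact hW.2 z hz'
    · rw [Real.log_le_iff_le_exp (norm_pos_iff.2 h0)]
      exact h z hz'

theorem NV.maj {f : ℂ → ℂ} (hf : NV f) :
    ∃ W, Maj W ∧ ∀ z ∈ ball (0 : ℂ) 1, ‖f z‖ ≤ Real.exp (W z).re := by
  obtain ⟨hd, M, hM⟩ := hf
  -- the vector (1, f)
  set F : Bool → ℂ → ℂ := fun b => if b then (fun _ => 1) else f with hF
  have hFd : ∀ i, DifferentiableOn ℂ (F i) (ball 0 1) := by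
    intro i
    rcases i with _ | _
    · simpa [hF] using hd
    · simp [hF]
  have hn2 : ∀ z, n2 F z = 1 + ‖f z‖ ^ 2 := by
    intro z
    simp [n2, hF]
  have hpos : ∀ z ∈ ball (0 : ℂ) 1, 0 < n2 F z := by
    intro z _
    rw [hn2]
    positivity
  have hu0 : ∀ z, 0 ≤ uu F z := by
    intro z
    unfold uu
    rw [hn2]
    have : 0 ≤ Real.log (1 + ‖f z‖ ^ 2) := Real.log_nonneg (by nlinarith [sq_nonneg ‖f z‖])
    linarith
  have hu1 : ∀ z, uu F z ≤ log⁺ ‖f z‖ + 1 := by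
    intro z
    unfold uu
    rw [hn2]
    have h1 : 1 + ‖f z‖ ^ 2 ≤ 2 * (max 1 ‖f z‖) ^ 2 := by
      rcases le_total 1 ‖f z‖ with h | h
      · rw [max_eq_right h]; nlinarith
      · rw [max_eq_left h]; nlinarith [norm_nonneg (f z)]
    have h2 : Real.log (1 + ‖f z‖ ^ 2) ≤ Real.log (2 * (max 1 ‖f z‖) ^ 2) :=
      Real.log_le_log (by positivity) h1
    have h3 : (0:ℝ) < max 1 ‖f z‖ := lt_of_lt_of_le one_pos (le_max_left _ _)
    rw [Real.log_mul (by norm_num) (by positivity), Real.log_pow] at h2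
    have h4 : log⁺ ‖f z‖ = Real.log (max 1 ‖f z‖) := by
      rw [Real.posLog_eq_log_max_one (norm_nonneg _)]
    have h5 : Real.log 2 < 1 := by linarith [Real.log_two_lt_d9]
    rw [h4]
    push_cast at h2
    linarith
  have hu2 : ∀ z, ‖f z‖ ≤ Real.exp (uu F z) := by
    intro z
    have h1 : Real.exp (uu F z) ^ 2 = 1 + ‖f z‖ ^ 2 := by
      rw [← Real.exp_nat_mul]
      unfold uu
      rw [hn2]
      have : ((2:ℕ):ℝ) * (1 / 2 * Real.log (1 + ‖f z‖ ^ 2)) = Real.log (1 + ‖f z‖ ^ 2) := by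
        push_cast; ring
      rw [this, Real.exp_log (by positivity)]
    have h2 : ‖f z‖ ^ 2 ≤ Real.exp (uu F z) ^ 2 := by rw [h1]; linarith
    exact le_of_sq_le_sq h2 (Real.exp_pos _).le
  have huc := uu_contOn hFd hpos
  have hMm : ∀ r ∈ Ioo (0 : ℝ) 1, circleAverage (uu F) 0 r ≤ M + 1 := by
    intro r hr
    have hsub : closedBall (0 : ℂ) |r| ⊆ ball 0 1 := sub_disc hr.1.le (by simpa using hr.2)
    have h1 : CircleIntegrable (fun z => log⁺ ‖f z‖) 0 r :=
      ci_of_contOn (continuous_posLog.comp_continuousOn hd.continuousOn.norm) hsub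
    have h2 : CircleIntegrable (fun _ : ℂ => (1:ℝ)) 0 r := circleIntegrable_const _ _ _
    have h3 : circleAverage (fun z => log⁺ ‖f z‖ + 1) 0 r ≤ M + 1 := by
      rw [circleAverage_fun_add h1 h2, circleAverage_const]
      linarith [hM r hr]
    refine le_trans (circleAverage_mono (ci_of_contOn huc hsub) (h1.add h2) ?_) h3
    intro x _
    exact hu1 x
  -- radii
  set t : ℕ → ℝ := fun n => 1 - 1 / ((n : ℝ) + 2) with ht
  have ht0 : ∀ n, 0 < t n := by
    intro n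
    have : 1 / ((n : ℝ) + 2) < 1 := by
      rw [div_lt_one (by positivity)]
      have := Nat.cast_nonneg (α := ℝ) n
      linarith
    simp only [ht]; linarith
  have ht1 : ∀ n, t n < 1 := by
    intro n
    have : 0 < 1 / ((n : ℝ) + 2) := by positivity
    simp only [ht]; linarith
  have htl : Tendsto t atTop (𝓝 1) := by
    have h1 : Tendsto (fun k : ℕ => (k:ℝ) + 2) atTop atTop :=
      tendsto_atTop_add_const_right _ _ tendsto_natCast_atTop_atTop
    have h2 : Tendsto (fun k : ℕ => 1 / ((k:ℝ) + 2)) atTop (𝓝 0) := by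
      simp only [one_div]
      exact tendsto_inv_atTop_zero.comp h1
    have h3 := (tendsto_const_nhds (x := (1:ℝ))).sub h2
    rw [sub_zero] at h3
    exact h3
  have hsph : ∀ n, sphere (0 : ℂ) (t n) ⊆ ball 0 1 := fun n =>
    sphere_subset_closedBall.trans (closedBall_subset_ball (ht1 n))
  have hmap : ∀ n, ∀ z ∈ ball (0 : ℂ) 1, (t n : ℂ) * z ∈ ball (0 : ℂ) (t n) := by
    intro n z hz
    rw [mem_ball_zero_iff] at hz ⊢
    rw [norm_mul, Complex.norm_real, Real.norm_eq_abs, abs_of_pos (ht0 n)]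
    nlinarith [ht0 n]
  set V : ℕ → ℂ → ℂ := fun n z => HW (uu F) (t n) ((t n : ℂ) * z) with hV
  have hVd : ∀ n, DifferentiableOn ℂ (V n) (ball 0 1) := fun n =>
    (HW_diff (ht0 n) (huc.mono (hsph n))).comp (by fun_prop) (hmap n)
  have hVre : ∀ n, ∀ z ∈ ball (0 : ℂ) 1, uu F ((t n : ℂ) * z) ≤ (V n z).re := by
    intro n z hz
    simp only [hV]
    rw [HW_re (huc.mono (hsph n)) (hmap n z hz)]
    exact pj_uu hFd hpos (ht1 n) (hmap n z hz)
  have hVm : ∀ n, Maj (V n) := fun n => ⟨hVd n, fun z hz => (hu0 _).trans (hVre n z hz)⟩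
  have hV0 : ∀ n, ‖V n 0‖ ≤ M + 1 := by
    intro n
    simp only [hV, mul_zero]
    rw [HW_zero (ht0 n) (huc.mono (hsph n)), Complex.norm_real, Real.norm_eq_abs, abs_of_nonneg]
    · exact hMm _ ⟨ht0 n, ht1 n⟩
    · exact circleAverage_nonneg_of_nonneg fun x _ => hu0 x
  have hM0 : 0 ≤ M + 1 := (norm_nonneg _).trans (hV0 0)
  have hVb : ∀ n, ∀ z ∈ ball (0 : ℂ) 1, ‖V n z‖ ≤ 2 * (M + 1) / (1 - ‖z‖) := by
    intro n z hz
    have hz' : ‖z‖ < 1 := by simpa using hz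
    refine ((hVm n).harnack' hz).trans ?_
    apply div_le_div_of_nonneg_right _ (by linarith)
    linarith [hV0 n]
  have hne : ∀ n, ∀ z ∈ ball (0 : ℂ) 1, 1 + V n z ≠ 0 := by
    intro n z hz h0
    have h1 := congrArg Complex.re h0
    simp only [Complex.add_re, Complex.one_re, Complex.zero_re] at h1
    linarith [(hVm n).2 z hz]
  have hge : ∀ n, ∀ z ∈ ball (0 : ℂ) 1, 1 ≤ ‖1 + V n z‖ := by
    intro n z hz
    have h1 := Complex.abs_re_le_norm (1 + V n z)
    have h2 : (1 + V n z).re = 1 + (V n z).re := by simp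
    rw [h2] at h1
    have h3 := (hVm n).2 z hz
    exact le_trans (by rw [abs_of_nonneg (by linarith)]; linarith) h1
  set Q : ℕ → ℂ → ℂ := fun n z => (1 + V n z)⁻¹ with hQ
  obtain ⟨Φ, hΦd, hΦl⟩ := Pool.Agent.Helper114.Montel.montel (isOpen_ball : IsOpen (ball (0:ℂ) 1)) Q
    (fun n => ((differentiableOn_const _).add (hVd n)).inv (hne n)) 1 (fun n z hz => by
      simp only [hQ]
      rw [norm_inv]
      exact inv_le_one_of_one_le₀ (hge n z hz)) (hyperfilter ℕ)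
  have hle : ((hyperfilter ℕ : Ultrafilter ℕ) : Filter ℕ) ≤ atTop := by
    rw [← Nat.cofinite_eq_atTop]
    exact hyperfilter_le_cofinite
  have hΦt : ∀ z ∈ ball (0 : ℂ) 1, Tendsto (fun n => Q n z) (hyperfilter ℕ : Filter ℕ)
      (𝓝 (Φ z)) := fun z hz => hΦl.tendsto_at hz
  have hΦ0 : ∀ z ∈ ball (0 : ℂ) 1, Φ z ≠ 0 := by
    intro z hz h0
    have hz' : ‖z‖ < 1 := by simpa using hz
    have h1 := (hΦt z hz).norm
    rw [h0, norm_zero] at h1
    have h2 : ∀ n, (1 + 2 * (M + 1) / (1 - ‖z‖))⁻¹ ≤ ‖Q n z‖ := by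
      intro n
      simp only [hQ]
      rw [norm_inv]
      apply inv_anti₀ (lt_of_lt_of_le one_pos (hge n z hz))
      refine (norm_add_le _ _).trans ?_
      rw [norm_one]
      linarith [hVb n z hz]
    have h3 := ge_of_tendsto h1 (Eventually.of_forall h2)
    have h4 : 0 < (1 + 2 * (M + 1) / (1 - ‖z‖))⁻¹ := by
      apply inv_pos.2
      have : 0 ≤ 2 * (M + 1) / (1 - ‖z‖) := div_nonneg (by linarith) (by linarith)
      linarith
    linarith
  have hVt : ∀ z ∈ ball (0 : ℂ) 1, Tendsto (fun n => V n z) (hyperfilter ℕ : Filter ℕ)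
      (𝓝 ((Φ z)⁻¹ - 1)) := by
    intro z hz
    have h1 := ((hΦt z hz).inv₀ (hΦ0 z hz)).sub_const 1
    refine h1.congr fun n => ?_
    simp only [hQ, inv_inv]
    ring
  have hVr : ∀ z ∈ ball (0 : ℂ) 1, Tendsto (fun n => (V n z).re) (hyperfilter ℕ : Filter ℕ)
      (𝓝 ((Φ z)⁻¹ - 1).re) := fun z hz => (Complex.continuous_re.tendsto _).comp (hVt z hz)
  refine ⟨fun z => (Φ z)⁻¹ - 1, ⟨(hΦd.inv hΦ0).sub (differentiableOn_const _), fun z hz => ?_⟩,
    fun z hz => ?_⟩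
  · exact ge_of_tendsto (hVr z hz) (Eventually.of_forall fun n => (hVm n).2 z hz)
  · refine (hu2 z).trans (Real.exp_le_exp.2 ?_)
    have h1 : Tendsto (fun n => uu F ((t n : ℂ) * z)) atTop (𝓝 (uu F z)) := by
      have h2 : Tendsto (fun n => (t n : ℂ) * z) atTop (𝓝 z) := by
        have := ((Complex.continuous_ofReal.tendsto 1).comp htl).mul_const z
        simpa using this
      exact ((huc.continuousAt (isOpen_ball.mem_nhds hz)).tendsto).comp h2
    exact le_of_tendsto_of_tendsto' (h1.mono_left hle) (hVr z hz) fun n => hVre n z hz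

end Pool.Agent.W775.SR
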