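import Mathlib
import Pool.Agent.W775.SR.Nev

set_option autoImplicit false
set_option linter.unusedVariables false

/-!
# Jensen's inequality; closure properties of the Nevanlinna class
-/

namespace Pool.Agent.W775.SR

open Metric Set Filter Topology ComplexConjugate Real InnerProductSpace MeasureTheory MeromorphicOn

theorem ci_log {F : ℂ → ℂ} {c : ℂ} {R : ℝ} (hR : 0 < R)
    (hF : AnalyticOnNhd ℂ F (closedBall c R)) : CircleIntegrable (fun z => Real.log ‖F z‖) c R := by
  have h : AnalyticOnNhd ℂ F (sphere c |R|) := by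
    rw [abs_of_pos hR]; exact hF.mono sphere_subset_closedBall
  exact h.meromorphicOn.circleIntegrable_log_norm

theorem ci_add {f g : ℂ → ℝ} {c : ℂ} {R : ℝ} (hf : CircleIntegrable f c R)
    (hg : CircleIntegrable g c R) : CircleIntegrable (fun z => f z + g z) c R := hf.add hg

theorem ci_sub {f g : ℂ → ℝ} {c : ℂ} {R : ℝ} (hf : CircleIntegrable f c R)
    (hg : CircleIntegrable g c R) : CircleIntegrable (fun z => f z - g z) c R := hf.sub hg

theorem ci_const (a : ℝ) (c : ℂ) (R : ℝ) : CircleIntegrable (fun _ : ℂ => a) c R :=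
  circleIntegrable_const _ _ _

theorem divisor_ge_one {F : ℂ → ℂ} {c : ℂ} {R : ℝ} (hR : 0 < R)
    (hF : AnalyticOnNhd ℂ F (closedBall c R)) (hc : F c ≠ 0) {x : ℂ} (hx : x ∈ closedBall c R)
    (hFx : F x = 0) : 1 ≤ divisor F (closedBall c R) x := by
  rw [hF.divisor_apply hx]
  have h1 : analyticOrderAt F x ≠ 0 := by
    rw [Ne, (hF x hx).analyticOrderAt_eq_zero]
    exact not_not.2 hFx
  have h2 : analyticOrderAt F x ≠ ⊤ := by
    rw [Ne, analyticOrderAt_eq_top]
    intro h
    exact hc (hF.eqOn_zero_of_preconnected_of_eventuallyEq_zero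
      (convex_closedBall c R).isPreconnected hx h (mem_closedBall_self hR.le))
  obtain ⟨n, hn⟩ := ENat.ne_top_iff_exists.1 h2
  rw [← hn] at h1 ⊢
  have h3 : n ≠ 0 := by
    rintro rfl
    exact h1 rfl
  have h4 : ((n : ℕ∞).map (Nat.cast : ℕ → ℤ)).untop₀ = (n : ℤ) := rfl
  rw [h4]
  omega

theorem jensen_le {F : ℂ → ℂ} {c : ℂ} {R : ℝ} (hR : 0 < R)
    (hF : AnalyticOnNhd ℂ F (closedBall c R)) (hc : F c ≠ 0) (s : Finset ℂ)
    (hs : ∀ x ∈ s, x ∈ closedBall c R ∧ F x = 0) :
    ∑ x ∈ s, Real.log (R / ‖c - x‖) + Real.log ‖F c‖ ≤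
      circleAverage (fun z => Real.log ‖F z‖) c R := by
  have hF' : AnalyticOnNhd ℂ F (closedBall c |R|) := by rwa [abs_of_pos hR]
  rw [hF'.circleAverage_log_norm hR.ne' hc, abs_of_pos hR]
  have hfin : (divisor F (closedBall c R)).support.Finite :=
    (divisor F (closedBall c R)).finiteSupport (isCompact_closedBall c R)
  have hnn : ∀ u, 0 ≤ (divisor F (closedBall c R) u : ℝ) := fun u => by
    exact_mod_cast hF.divisor_nonneg u
  have hsub : (Function.support fun u => (divisor F (closedBall c R) u : ℝ) *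
      Real.log (R * ‖c - u‖⁻¹)) ⊆ hfin.toFinset := by
    intro u hu
    rw [Function.mem_support] at hu
    rw [Finite.coe_toFinset, Function.mem_support]
    intro h
    apply hu
    rw [h]
    simp
  rw [finsum_eq_sum_of_support_subset _ hsub]
  have hs2 : s ⊆ hfin.toFinset := by
    intro x hx
    rw [Finite.mem_toFinset, Function.mem_support]
    have := divisor_ge_one hR hF hc (hs x hx).1 (hs x hx).2
    omega
  have hlog : ∀ u ∈ closedBall c R, 0 ≤ Real.log (R * ‖c - u‖⁻¹) := by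
    intro u hu
    by_cases h0 : ‖c - u‖ = 0
    · rw [h0]; simp
    · apply Real.log_nonneg
      rw [mem_closedBall, dist_eq_norm, norm_sub_rev] at hu
      have h1 : 0 < ‖c - u‖ := lt_of_le_of_ne (norm_nonneg _) (Ne.symm h0)
      rw [← div_eq_mul_inv, le_div_iff₀ h1, one_mul]
      exact hu
  have h1 : ∑ x ∈ s, Real.log (R / ‖c - x‖) ≤
      ∑ x ∈ s, (divisor F (closedBall c R) x : ℝ) * Real.log (R * ‖c - x‖⁻¹) := by
    refine Finset.sum_le_sum fun x hx => ?_
    have h2 : (1 : ℝ) ≤ (divisor F (closedBall c R) x : ℝ) := by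
      exact_mod_cast divisor_ge_one hR hF hc (hs x hx).1 (hs x hx).2
    have h3 := hlog x (hs x hx).1
    rw [div_eq_mul_inv]
    nlinarith
  have h2 : ∑ x ∈ s, (divisor F (closedBall c R) x : ℝ) * Real.log (R * ‖c - x‖⁻¹) ≤
      ∑ x ∈ hfin.toFinset, (divisor F (closedBall c R) x : ℝ) * Real.log (R * ‖c - x‖⁻¹) := by
    apply Finset.sum_le_sum_of_subset_of_nonneg hs2
    intro x hx _
    rw [Finite.mem_toFinset] at hx
    exact mul_nonneg (hnn x) (hlog x ((divisor F (closedBall c R)).supportWithinDomain hx))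
  linarith

/-- Jensen at a simple zero -/
theorem jensen_simple {F : ℂ → ℂ} (hF : DifferentiableOn ℂ F (ball 0 1)) {c : ℂ} {R : ℝ}
    (hR : 0 < R) (hcR : ‖c‖ + R < 1) (hc : F c = 0) (hc' : deriv F c ≠ 0) (s : Finset ℂ)
    (hs : ∀ x ∈ s, x ∈ ball (0 : ℂ) 1 ∧ F x = 0) (hcs : c ∉ s) :
    ∑ x ∈ s, log⁺ (R / ‖c - x‖) + Real.log (R * ‖deriv F c‖) ≤
      circleAverage (fun z => Real.log ‖F z‖) c R := by
  have hsub : closedBall c R ⊆ ball 0 1 := by
    have := sub_disc (z := c) hR.le hcR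
    rwa [abs_of_pos hR] at this
  have hc1 : c ∈ ball (0 : ℂ) 1 := hsub (mem_closedBall_self hR.le)
  have hd : DifferentiableOn ℂ (dslope F c) (ball 0 1) :=
    (Complex.differentiableOn_dslope (isOpen_ball.mem_nhds hc1)).2 hF
  have han : AnalyticOnNhd ℂ (dslope F c) (closedBall c R) :=
    (hd.analyticOnNhd isOpen_ball).mono hsub
  have hanF : AnalyticOnNhd ℂ F (closedBall c R) := (hF.analyticOnNhd isOpen_ball).mono hsub
  have hval : ∀ w, F w = (w - c) * dslope F c w := by
    intro w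
    have := sub_smul_dslope F c w
    rw [hc, sub_zero, smul_eq_mul] at this
    exact this.symm
  have h0 : dslope F c c ≠ 0 := by rwa [dslope_same]
  classical
  set s' := s.filter (fun x => x ∈ closedBall c R) with hs'
  have h1 := jensen_le hR han h0 s' (fun x hx => by
    rw [hs', Finset.mem_filter] at hx
    refine ⟨hx.2, ?_⟩
    have h2 := hval x
    rw [(hs x hx.1).2] at h2
    have hxc : x - c ≠ 0 := by
      intro h
      rw [sub_eq_zero] at h
      rw [h] at hx
      exact hcs hx.1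
    exact (mul_eq_zero.1 h2.symm).resolve_left hxc)
  rw [dslope_same] at h1
  have h2 : ∑ x ∈ s, log⁺ (R / ‖c - x‖) = ∑ x ∈ s', Real.log (R / ‖c - x‖) := by
    rw [hs', Finset.sum_filter]
    refine Finset.sum_congr rfl fun x hx => ?_
    have hxc : 0 < ‖c - x‖ := by
      rw [norm_pos_iff, sub_ne_zero]
      rintro rfl
      exact hcs hx
    split_ifs with h
    · rw [mem_closedBall, dist_eq_norm, norm_sub_rev] at h
      apply posLog_eq_log
      rw [abs_of_nonneg (by positivity), le_div_iff₀ hxc, one_mul]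
      exact h
    · rw [mem_closedBall, dist_eq_norm, norm_sub_rev, not_le] at h
      rw [posLog_eq_zero_iff, abs_of_nonneg (by positivity), div_le_one hxc]
      exact h.le
  have hi : CircleIntegrable (fun z => Real.log ‖dslope F c z‖) c R := ci_log hR han
  have h3 : circleAverage (fun z => Real.log R + Real.log ‖dslope F c z‖) c R ≤
      circleAverage (fun z => Real.log ‖F z‖) c R := by
    apply ca_mono_ne hR han ⟨c, mem_closedBall_self hR.le, h0⟩
      (ci_add (ci_const _ _ _) hi) (ci_log hR hanF)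
    intro w hw hne
    have hw' : ‖w - c‖ = R := by rwa [mem_sphere, dist_eq_norm] at hw
    have : ‖F w‖ = R * ‖dslope F c w‖ := by rw [hval w, norm_mul, hw']
    rw [this, Real.log_mul hR.ne' (norm_ne_zero_iff.2 hne)]
  rw [circleAverage_fun_add (circleIntegrable_const _ _ _) hi, circleAverage_const] at h3
  rw [h2, Real.log_mul hR.ne' (norm_ne_zero_iff.2 hc')]
  linarith

/-! ### closure properties -/

theorem NV.diff {f : ℂ → ℂ} (hf : NV f) : DifferentiableOn ℂ f (ball 0 1) := hf.1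

theorem NV.add {f g : ℂ → ℂ} (hf : NV f) (hg : NV g) : NV (fun z => f z + g z) := by
  obtain ⟨V, hV, hV'⟩ := hf.maj
  obtain ⟨W, hW, hW'⟩ := hg.maj
  refine NV.of_maj (hf.1.add hg.1) ((hV.add hW).add (Maj.const zero_le_one)) fun z hz => ?_
  have h1 := hV' z hz
  have h2 := hW' z hz
  have h3 := hV.2 z hz
  have h4 := hW.2 z hz
  have e : (V z + W z + ((1:ℝ):ℂ)).re = (V z).re + (W z).re + 1 := by simp
  rw [e]
  have h5 : Real.exp (V z).re ≤ Real.exp ((V z).re + (W z).re) := Real.exp_le_exp.2 (by linarith)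
  have h6 : Real.exp (W z).re ≤ Real.exp ((V z).re + (W z).re) := Real.exp_le_exp.2 (by linarith)
  have h7 : (2:ℝ) ≤ Real.exp 1 := by linarith [Real.add_one_le_exp (1:ℝ)]
  rw [Real.exp_add _ (1:ℝ)]
  have h8 := norm_add_le (f z) (g z)
  nlinarith [Real.exp_pos ((V z).re + (W z).re)]

theorem NV.mul {f g : ℂ → ℂ} (hf : NV f) (hg : NV g) : NV (fun z => f z * g z) := by
  obtain ⟨V, hV, hV'⟩ := hf.maj
  obtain ⟨W, hW, hW'⟩ := hg.maj
  refine NV.of_maj (hf.1.mul hg.1) (hV.add hW) fun z hz => ?_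
  rw [Complex.add_re, Real.exp_add, norm_mul]
  exact mul_le_mul (hV' z hz) (hW' z hz) (norm_nonneg _) (Real.exp_pos _).le

theorem NV.const (c : ℂ) : NV (fun _ => c) := by
  refine NV.of_maj (differentiableOn_const _) (Maj.const (norm_nonneg c)) fun z hz => ?_
  rw [Complex.ofReal_re]
  linarith [Real.add_one_le_exp ‖c‖]

theorem NV.const_mul {f : ℂ → ℂ} (hf : NV f) (c : ℂ) : NV (fun z => c * f z) :=
  (NV.const c).mul hf

theorem NV.neg {f : ℂ → ℂ} (hf : NV f) : NV (fun z => - f z) := by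
  have := hf.const_mul (-1)
  simpa using this

theorem NV.sub {f g : ℂ → ℂ} (hf : NV f) (hg : NV g) : NV (fun z => f z - g z) := by
  have := hf.add hg.neg
  simpa [sub_eq_add_neg] using this

theorem NV.congr {f g : ℂ → ℂ} (hf : NV f) (h : ∀ z ∈ ball (0 : ℂ) 1, g z = f z) : NV g := by
  obtain ⟨V, hV, hV'⟩ := hf.maj
  exact NV.of_maj (hf.1.congr h) hV fun z hz => by rw [h z hz]; exact hV' z hz

theorem NV.div {φ F G : ℂ → ℂ} (hφ : NV φ) (hF : NV F) (hF0 : F 0 ≠ 0)
    (hG : DifferentiableOn ℂ G (ball 0 1)) (h : ∀ z ∈ ball (0 : ℂ) 1, G z * F z = φ z) : NV G := by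
  obtain ⟨Mφ, hMφ⟩ := hφ.2
  obtain ⟨MF, hMF⟩ := hF.2
  refine ⟨hG, Mφ + MF - Real.log ‖F 0‖, fun r hr => ?_⟩
  have hsub : closedBall (0 : ℂ) |r| ⊆ ball 0 1 := sub_disc hr.1.le (by simpa using hr.2)
  have hsub' : closedBall (0 : ℂ) r ⊆ ball 0 1 := by rwa [abs_of_pos hr.1] at hsub
  have han : AnalyticOnNhd ℂ F (closedBall 0 r) := (hF.1.analyticOnNhd isOpen_ball).mono hsub'
  have i1 : CircleIntegrable (fun z => log⁺ ‖G z‖) 0 r :=
    ci_of_contOn (continuous_posLog.comp_continuousOn hG.continuousOn.norm) hsub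
  have i2 : CircleIntegrable (fun z => log⁺ ‖φ z‖) 0 r :=
    ci_of_contOn (continuous_posLog.comp_continuousOn hφ.1.continuousOn.norm) hsub
  have i3 : CircleIntegrable (fun z => log⁺ ‖F z‖) 0 r :=
    ci_of_contOn (continuous_posLog.comp_continuousOn hF.1.continuousOn.norm) hsub
  have i4 : CircleIntegrable (fun z => Real.log ‖F z‖) 0 r := ci_log hr.1 han
  have h1 : circleAverage (fun z => log⁺ ‖G z‖) 0 r ≤
      circleAverage (fun z => (log⁺ ‖φ z‖ + log⁺ ‖F z‖) - Real.log ‖F z‖) 0 r := by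
    apply ca_mono_ne hr.1 han ⟨0, mem_closedBall_self hr.1.le, hF0⟩ i1 (ci_sub (ci_add i2 i3) i4)
    intro w hw hne
    have hw' : w ∈ ball (0 : ℂ) 1 := hsub' (sphere_subset_closedBall hw)
    have h2 : G w = φ w * (F w)⁻¹ := by rw [← h w hw', mul_assoc, mul_inv_cancel₀ hne, mul_one]
    rw [h2, norm_mul, norm_inv]
    have h3 := posLog_mul (x := ‖φ w‖) (y := ‖F w‖⁻¹)
    have h4 := posLog_sub_posLog_inv (x := ‖F w‖)
    linarith
  rw [circleAverage_fun_sub (ci_add i2 i3) i4, circleAverage_fun_add i2 i3] at h1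
  have h2 := jensen_le hr.1 han hF0 ∅ (by simp)
  simp only [Finset.sum_empty, zero_add] at h2
  linarith [hMφ r hr, hMF r hr]

end Pool.Agent.W775.SR
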