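import Mathlib
import Pool.Agent.W775.SR.Jens

set_option autoImplicit false
set_option linter.unusedVariables false

/-!
# A pair which is not reducible
-/

open Filter Topology Complex Metric Set
open scoped ComplexConjugate

namespace Pool.Agent.W775.SR

theorem exists_clog {u : ℂ → ℂ} (hu : DifferentiableOn ℂ u (ball 0 1))
    (h0 : ∀ z ∈ ball (0 : ℂ) 1, u z ≠ 0) :
    ∃ g : ℂ → ℂ, DifferentiableOn ℂ g (ball 0 1) ∧ ∀ z ∈ ball (0 : ℂ) 1, u z = Complex.exp (g z) := by
  have hd : DifferentiableOn ℂ (fun z => deriv u z / u z) (ball 0 1) :=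
    (hu.deriv isOpen_ball).div hu h0
  obtain ⟨G, hG⟩ := hd.isExactOn_ball
  have hGd : DifferentiableOn ℂ G (ball 0 1) := fun z hz =>
    (hG z hz).differentiableAt.differentiableWithinAt
  have hq : DifferentiableOn ℂ (fun z => u z * Complex.exp (-G z)) (ball 0 1) :=
    hu.mul hGd.neg.cexp
  have hq0 : (ball (0 : ℂ) 1).EqOn (deriv fun z => u z * Complex.exp (-G z)) 0 := by
    intro z hz
    have e1 : HasDerivAt u (deriv u z) z :=
      (hu.differentiableAt (isOpen_ball.mem_nhds hz)).hasDerivAt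
    have e2 := (hG z hz).neg.cexp
    have e3 := (e1.mul e2).deriv
    have e4 : (deriv fun z => u z * Complex.exp (-G z)) z = deriv u z * Complex.exp (-G z) +
        u z * (Complex.exp (-G z) * -(deriv u z / u z)) := e3
    rw [e4]
    have := h0 z hz
    show _ = (0:ℂ)
    field_simp
    ring
  have hconst : ∀ z ∈ ball (0 : ℂ) 1, u z * Complex.exp (-G z) = u 0 * Complex.exp (-G 0) :=
    fun z hz => isOpen_ball.is_const_of_deriv_eq_zero (convex_ball 0 1).isPreconnected hq hq0 hz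
      (mem_ball_self one_pos)
  have hc0 : u 0 * Complex.exp (-G 0) ≠ 0 :=
    mul_ne_zero (h0 0 (mem_ball_self one_pos)) (Complex.exp_ne_zero _)
  refine ⟨fun z => G z + Complex.log (u 0 * Complex.exp (-G 0)),
    hGd.add (differentiableOn_const _), fun z hz => ?_⟩
  rw [Complex.exp_add, Complex.exp_log hc0, ← hconst z hz, Complex.exp_neg]
  field_simp [Complex.exp_ne_zero]

theorem one_sub_slit {z : ℂ} (hz : z ∈ ball (0 : ℂ) 1) : 0 < (1 - z).re := by
  rw [mem_ball_zero_iff] at hz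
  have := (Complex.abs_re_le_norm z)
  have h2 := le_abs_self z.re
  simp only [Complex.sub_re, Complex.one_re]
  linarith

noncomputable def LL (z : ℂ) : ℂ := Complex.log (1 - z)

theorem LL_diff : DifferentiableOn ℂ LL (ball 0 1) := by
  unfold LL
  intro z hz
  apply DifferentiableAt.differentiableWithinAt
  apply DifferentiableAt.clog (by fun_prop)
  exact Or.inl (one_sub_slit hz)

theorem LL_im {z : ℂ} (hz : z ∈ ball (0 : ℂ) 1) : |(LL z).im| ≤ 2 := by
  unfold LL
  rw [Complex.log_im]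
  have h1 := Complex.abs_arg_lt_pi_div_two_iff.2 (Or.inl (one_sub_slit hz))
  have h2 := Real.pi_lt_d2
  linarith

noncomputable def s1 (z : ℂ) : ℂ := Complex.sin (-(Real.pi * LL z))

theorem s1_NV : NV s1 := by
  have h1 : ∀ c : ℝ, |c| ≤ 4 → NV (fun z => Complex.exp (c * (LL z) * I)) := by
    intro c hc
    refine NV.of_maj (((LL_diff.const_mul _).mul_const _).cexp)
      (Maj.const (show (0:ℝ) ≤ 8 by norm_num)) fun z hz => ?_
    rw [Complex.norm_exp]
    apply Real.exp_le_exp.2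
    have e : (c * LL z * I).re = -(c * (LL z).im) := by simp
    rw [e, Complex.ofReal_re]
    have h2 := LL_im hz
    have h3 : |c * (LL z).im| ≤ 4 * 2 := by
      rw [abs_mul]
      exact mul_le_mul hc h2 (abs_nonneg _) (by norm_num)
    have h4 := neg_abs_le (c * (LL z).im)
    linarith
  have h2 : |Real.pi| ≤ 4 := by
    rw [abs_of_pos Real.pi_pos]; linarith [Real.pi_lt_d2]
  have h3 : |-Real.pi| ≤ 4 := by rwa [abs_neg]
  have h4 := ((h1 _ h2).sub (h1 _ h3)).const_mul (I / 2)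
  refine h4.congr fun z hz => ?_
  unfold s1
  rw [Complex.sin]
  push_cast
  have e1 : -(-(↑Real.pi * LL z)) * I = Real.pi * LL z * I := by ring
  have e2 : (-(↑Real.pi * LL z)) * I = -Real.pi * LL z * I := by ring
  rw [e1, e2]
  ring

theorem inv_NV : NV (fun z => (1 - z)⁻¹) := by
  have hm : Maj (fun z => ((Real.log 2 : ℝ) : ℂ) - LL z) := by
    refine ⟨(differentiableOn_const _).sub LL_diff, fun z hz => ?_⟩
    rw [Complex.sub_re, Complex.ofReal_re]
    unfold LL
    rw [Complex.log_re]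
    have h1 : 0 < ‖1 - z‖ := by
      rw [norm_pos_iff]
      intro h
      have := one_sub_slit hz
      rw [h] at this
      simp at this
    have h2 : ‖1 - z‖ ≤ 2 := by
      rw [mem_ball_zero_iff] at hz
      refine (norm_sub_le _ _).trans ?_
      rw [norm_one]; linarith
    linarith [Real.log_le_log h1 h2]
  refine NV.of_maj ?_ hm fun z hz => ?_
  · intro z hz
    apply DifferentiableAt.differentiableWithinAt
    apply DifferentiableAt.inv (by fun_prop)
    intro h
    have := one_sub_slit hz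
    rw [h] at this
    simp at this
  · have h1 : 0 < ‖1 - z‖ := by
      rw [norm_pos_iff]
      intro h
      have := one_sub_slit hz
      rw [h] at this
      simp at this
    rw [Complex.sub_re, Complex.ofReal_re, LL, Complex.log_re, Real.exp_sub,
      Real.exp_log (by norm_num), Real.exp_log h1, norm_inv, ← one_div]
    apply div_le_div_of_nonneg_right _ h1.le
    norm_num

/-- `δ = (1 - z) ^ 2` -/
noncomputable def dl (z : ℂ) : ℂ := (1 - z) ^ 2

theorem dl_NV : NV dl := by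
  have h1 : NV (fun z => 1 - z) := by
    refine NV.of_maj (by fun_prop) (Maj.const (show (0:ℝ) ≤ 1 by norm_num)) fun z hz => ?_
    rw [mem_ball_zero_iff] at hz
    rw [Complex.ofReal_re]
    refine (norm_sub_le _ _).trans ?_
    rw [norm_one]
    linarith [Real.add_one_le_exp (1:ℝ)]
  refine (h1.mul h1).congr fun z _ => ?_
  unfold dl; ring

noncomputable def s2 (z : ℂ) : ℂ := s1 z ^ 2 - dl z ^ 2

theorem s2_NV : NV s2 := by
  refine ((s1_NV.mul s1_NV).sub (dl_NV.mul dl_NV)).congr fun z _ => ?_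
  unfold s2; ring

theorem s_unimod : ∃ g₁ g₂ : ℂ → ℂ, NV g₁ ∧ NV g₂ ∧
    ∀ z ∈ ball (0 : ℂ) 1, g₁ z * s1 z + g₂ z * s2 z = 1 := by
  have h1 : NV (fun z => (((1 - z)⁻¹ * (1 - z)⁻¹) * ((1 - z)⁻¹ * (1 - z)⁻¹))) :=
    (inv_NV.mul inv_NV).mul (inv_NV.mul inv_NV)
  refine ⟨_, _, h1.mul s1_NV, h1.neg, fun z hz => ?_⟩
  have h2 : (1 - z) ≠ 0 := by
    intro h
    have := one_sub_slit hz
    rw [h] at this
    simp at this
  show (1 - z)⁻¹ * (1 - z)⁻¹ * ((1 - z)⁻¹ * (1 - z)⁻¹) * s1 z * s1 z +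
    -((1 - z)⁻¹ * (1 - z)⁻¹ * ((1 - z)⁻¹ * (1 - z)⁻¹)) * s2 z = 1
  unfold s2 dl
  field_simp
  ring

/-- on the real axis -/
theorem s1_real (τ : ℝ) : s1 ((1 - Real.exp (-τ) : ℝ) : ℂ) = ((Real.sin (Real.pi * τ) : ℝ) : ℂ) := by
  unfold s1 LL
  have e : (1 : ℂ) - ((1 - Real.exp (-τ) : ℝ) : ℂ) = ((Real.exp (-τ) : ℝ) : ℂ) := by
    push_cast; ring
  rw [e, ← Complex.ofReal_log (Real.exp_pos _).le, Real.log_exp]
  push_cast
  congr 1
  ring

theorem dl_real (τ : ℝ) : dl ((1 - Real.exp (-τ) : ℝ) : ℂ) = ((Real.exp (-(2 * τ)) : ℝ) : ℂ) := by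
  unfold dl
  have e : (1 : ℂ) - ((1 - Real.exp (-τ) : ℝ) : ℂ) = ((Real.exp (-τ) : ℝ) : ℂ) := by
    push_cast; ring
  rw [e]
  have e2 : Real.exp (-(2 * τ)) = Real.exp (-τ) ^ 2 := by
    rw [← Real.exp_nat_mul]; congr 1; push_cast; ring
  rw [e2]
  push_cast
  rfl

/-- the two families of points -/
theorem exists_pts {n : ℕ} (hn : 1 ≤ n) : ∃ τ σ : ℝ, 0 < τ ∧ 0 < σ ∧
    |τ - 2 * n| ≤ Real.exp (-(4 * n)) ∧ |σ - 2 * n| ≤ Real.exp (-(4 * n)) ∧
    Real.sin (Real.pi * τ) = Real.exp (-(2 * τ)) ∧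
    Real.sin (Real.pi * σ) = -Real.exp (-(2 * σ)) := by
  set ε : ℝ := Real.exp (-(4 * n)) with hε
  have hn' : (1:ℝ) ≤ n := by exact_mod_cast hn
  have hε0 : 0 < ε := Real.exp_pos _
  have hε1 : ε ≤ 1 / 5 := by
    rw [hε, Real.exp_neg, ← one_div]
    apply one_div_le_one_div_of_le (by norm_num)
    have := Real.add_one_le_exp (4 * (n:ℝ))
    linarith
  have hs : ∀ x : ℝ, Real.sin (Real.pi * (x + 2 * n)) = Real.sin (Real.pi * x) := by
    intro x
    have : Real.pi * (x + 2 * n) = Real.pi * x + n * (2 * Real.pi) := by ring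
    rw [this, Real.sin_add_nat_mul_two_pi]
  have hJ : 2 * ε ≤ Real.sin (Real.pi * ε) := by
    have h1 := Real.mul_le_sin (x := Real.pi * ε) (by positivity) (by nlinarith [Real.pi_pos])
    have h2 : 2 / Real.pi * (Real.pi * ε) = 2 * ε := by
      have := Real.pi_pos.ne'
      field_simp
    linarith
  -- first point
  obtain ⟨τ, hτ, hτ'⟩ : ∃ τ ∈ Icc (2 * (n:ℝ)) (2 * n + ε),
      Real.sin (Real.pi * τ) - Real.exp (-(2 * τ)) = 0 := by
    have hc : ContinuousOn (fun τ : ℝ => Real.sin (Real.pi * τ) - Real.exp (-(2 * τ)))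
      (Icc (2 * (n:ℝ)) (2 * n + ε)) := by fun_prop
    have h1 := intermediate_value_Icc (show 2 * (n:ℝ) ≤ 2 * n + ε by linarith) hc
    have h2 : (0:ℝ) ∈ Icc (Real.sin (Real.pi * (2 * n)) - Real.exp (-(2 * (2 * n))))
        (Real.sin (Real.pi * (2 * n + ε)) - Real.exp (-(2 * (2 * n + ε)))) := by
      constructor
      · have h3 := hs 0
        rw [zero_add, mul_zero, Real.sin_zero] at h3
        rw [h3]
        linarith [Real.exp_pos (-(2 * (2 * (n:ℝ))))]
      · have h3 := hs ε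
        rw [add_comm (2 * (n:ℝ)) ε, h3]
        have h4 : Real.exp (-(2 * (ε + 2 * n))) ≤ ε := by
          rw [hε]; apply Real.exp_le_exp.2
          rw [← hε]; linarith
        linarith
    obtain ⟨τ, hτ1, hτ2⟩ := h1 h2
    exact ⟨τ, hτ1, hτ2⟩
  obtain ⟨σ, hσ, hσ'⟩ : ∃ σ ∈ Icc (2 * (n:ℝ) - ε) (2 * n),
      Real.sin (Real.pi * σ) + Real.exp (-(2 * σ)) = 0 := by
    have hc : ContinuousOn (fun τ : ℝ => Real.sin (Real.pi * τ) + Real.exp (-(2 * τ)))
      (Icc (2 * (n:ℝ) - ε) (2 * n)) := by fun_prop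
    have h1 := intermediate_value_Icc (show 2 * (n:ℝ) - ε ≤ 2 * n by linarith) hc
    have h2 : (0:ℝ) ∈ Icc (Real.sin (Real.pi * (2 * n - ε)) + Real.exp (-(2 * (2 * n - ε))))
        (Real.sin (Real.pi * (2 * n)) + Real.exp (-(2 * (2 * n)))) := by
      constructor
      · have h3 := hs (-ε)
        have e : 2 * (n:ℝ) - ε = -ε + 2 * n := by ring
        rw [e, h3, mul_neg, Real.sin_neg]
        have h4 : Real.exp (-(2 * (-ε + 2 * n))) = ε * Real.exp (2 * ε) := by
          rw [hε, ← Real.exp_add]; congr 1; rw [← hε]; ring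
        have h5 : Real.exp (2 * ε) ≤ 2 := by
          have h6 : Real.exp (2 * ε) ≤ Real.exp (2 / 5) := Real.exp_le_exp.2 (by linarith)
          have h7 : Real.exp (2 / 5) ≤ 2 := by
            have h8 : (Real.exp (2 / 5)) ^ 5 = Real.exp 1 ^ 2 := by
              rw [← Real.exp_nat_mul, ← Real.exp_nat_mul]; congr 1; norm_num
            by_contra hcon
            push Not at hcon
            have h9 : (2:ℝ) ^ 5 < (Real.exp (2 / 5)) ^ 5 := by gcongr
            rw [h8] at h9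
            have h10 := Real.exp_one_lt_d9
            nlinarith [Real.exp_pos (1:ℝ)]
          linarith
        rw [h4]
        nlinarith
      · have h3 := hs 0
        rw [zero_add, mul_zero, Real.sin_zero] at h3
        rw [h3]
        linarith [Real.exp_pos (-(2 * (2 * (n:ℝ))))]
    obtain ⟨τ, hτ1, hτ2⟩ := h1 h2
    exact ⟨τ, hτ1, hτ2⟩
  refine ⟨τ, σ, by linarith [hτ.1], by linarith [hσ.1], ?_, ?_, by linarith, by linarith⟩
  · rw [abs_le]; constructor <;> linarith [hτ.1, hτ.2]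
  · rw [abs_le]; constructor <;> linarith [hσ.1, hσ.2]

/-- the pair `(s1, s2)` is not reducible -/
theorem not_red {h u v : ℂ → ℂ} (hh : NV h) (hu : NV u) (hv : NV v)
    (hue : ∀ z ∈ ball (0 : ℂ) 1, u z = s1 z + h z * s2 z)
    (huv : ∀ z ∈ ball (0 : ℂ) 1, u z * v z = 1) : False := by
  have hu0 : ∀ z ∈ ball (0 : ℂ) 1, u z ≠ 0 := by
    intro z hz h0
    have := huv z hz
    rw [h0, zero_mul] at this
    exact zero_ne_one this
  obtain ⟨g, hg, hgu⟩ := exists_clog hu.1 hu0
  obtain ⟨W, hW, hW'⟩ := hv.maj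
  have hA : Maj (fun z => g z + W z) := by
    refine ⟨hg.add hW.1, fun z hz => ?_⟩
    have h1 := hW' z hz
    have h2 : ‖v z‖ = Real.exp (-(g z).re) := by
      have h3 : v z = Complex.exp (-g z) := by
        have h4 := huv z hz
        rw [hgu z hz] at h4
        rw [Complex.exp_neg]
        exact eq_inv_of_mul_eq_one_right h4
      rw [h3, Complex.norm_exp, Complex.neg_re]
    rw [h2] at h1
    have h3 := Real.exp_le_exp.1 h1
    rw [Complex.add_re]
    linarith
  set C : ℝ := 2 * ‖g 0 + W 0‖ + 2 * ‖W 0‖ with hC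
  have hC0 : 0 ≤ C := by positivity
  have hgb : ∀ z ∈ ball (0 : ℂ) 1, ‖g z‖ ≤ C / (1 - ‖z‖) := by
    intro z hz
    have h1 := hA.harnack' hz
    have h2 := hW.harnack' hz
    have h3 : ‖g z‖ ≤ ‖g z + W z‖ + ‖W z‖ := by
      have : g z = (g z + W z) - W z := by ring
      calc ‖g z‖ = ‖(g z + W z) - W z‖ := by rw [← this]
        _ ≤ _ := norm_sub_le _ _
    have h4 : C / (1 - ‖z‖) = 2 * ‖g 0 + W 0‖ / (1 - ‖z‖) + 2 * ‖W 0‖ / (1 - ‖z‖) := by
      rw [hC, add_div]
    rw [h4]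
    linarith
  -- choose n
  obtain ⟨n, hn1, hn2⟩ : ∃ n : ℕ, 1 ≤ n ∧ 32 * C * Real.exp 1 * Real.exp (-(2 * n)) < 1 / 2 := by
    have h1 : Tendsto (fun n : ℕ => 32 * C * Real.exp 1 * Real.exp (-(2 * n))) atTop
        (𝓝 (32 * C * Real.exp 1 * 0)) := by
      apply Tendsto.const_mul
      apply Real.tendsto_exp_neg_atTop_nhds_zero.comp
      exact tendsto_natCast_atTop_atTop.const_mul_atTop (by norm_num)
    rw [mul_zero] at h1
    have h2 := h1.eventually (gt_mem_nhds (show (0:ℝ) < 1 / 2 by norm_num))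
    obtain ⟨n, hn⟩ := (h2.and (eventually_ge_atTop 1)).exists
    exact ⟨n, hn.2, hn.1⟩
  obtain ⟨τ, σ, hτ0, hσ0, hτ, hσ, hτs, hσs⟩ := exists_pts hn1
  set ε : ℝ := Real.exp (-(4 * n)) with hε
  have hn1' : (1:ℝ) ≤ n := by exact_mod_cast hn1
  have hε0 : 0 < ε := Real.exp_pos _
  have hε1 : ε ≤ 1 / 5 := by
    rw [hε, Real.exp_neg, ← one_div]
    apply one_div_le_one_div_of_le (by norm_num)
    have := Real.add_one_le_exp (4 * (n:ℝ))
    linarith
  set x : ℝ := 1 - Real.exp (-τ) with hx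
  set y : ℝ := 1 - Real.exp (-σ) with hy
  have hex : Real.exp (-τ) < 1 := by rw [Real.exp_lt_one_iff]; linarith
  have hey : Real.exp (-σ) < 1 := by rw [Real.exp_lt_one_iff]; linarith
  have hx0 : 0 < x := by linarith
  have hy0 : 0 < y := by linarith
  have hx1 : x < 1 := by linarith [Real.exp_pos (-τ)]
  have hy1 : y < 1 := by linarith [Real.exp_pos (-σ)]
  have hxD : (x : ℂ) ∈ ball (0 : ℂ) 1 := by
    rw [mem_ball_zero_iff, Complex.norm_real, Real.norm_eq_abs, abs_of_pos hx0]; exact hx1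
  have hyD : (y : ℂ) ∈ ball (0 : ℂ) 1 := by
    rw [mem_ball_zero_iff, Complex.norm_real, Real.norm_eq_abs, abs_of_pos hy0]; exact hy1
  set r : ℝ := Real.exp (-σ) / 2 with hr
  have hr0 : 0 < r := by positivity
  have hτσ : |σ - τ| ≤ 2 * ε := by
    have e : σ - τ = (σ - 2 * n) - (τ - 2 * n) := by ring
    rw [e]
    exact (abs_sub _ _).trans (by linarith)
  have hxy : |x - y| ≤ Real.exp (-σ) * (4 * ε) := by
    have e : x - y = Real.exp (-σ) * -(Real.exp (σ - τ) - 1) := by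
      rw [hx, hy, sub_eq_add_neg σ τ, Real.exp_add, Real.exp_neg σ, Real.exp_neg τ]
      have := Real.exp_pos σ
      field_simp
      ring
    rw [e, abs_mul, abs_of_pos (Real.exp_pos _), abs_neg]
    apply mul_le_mul_of_nonneg_left _ (Real.exp_pos _).le
    have h1 := Real.abs_exp_sub_one_le (x := σ - τ) (by linarith)
    linarith
  have hsub : ball (y : ℂ) r ⊆ ball 0 1 := by
    intro w hw
    rw [mem_ball, dist_eq_norm] at hw
    rw [mem_ball_zero_iff]
    have h1 := norm_sub_norm_le w (y : ℂ)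
    rw [Complex.norm_real, Real.norm_eq_abs, abs_of_pos hy0] at h1
    have h2 : y + r < 1 := by rw [hy, hr]; linarith [Real.exp_pos (-σ)]
    linarith
  have hbound : ∀ w ∈ ball (y : ℂ) r, ‖g w‖ ≤ C / r := by
    intro w hw
    refine (hgb w (hsub hw)).trans ?_
    apply div_le_div_of_nonneg_left hC0 hr0
    rw [mem_ball, dist_eq_norm] at hw
    have h1 := norm_sub_norm_le w (y : ℂ)
    rw [Complex.norm_real, Real.norm_eq_abs, abs_of_pos hy0] at h1
    have h2 : y + r = 1 - r := by rw [hy, hr]; ring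
    linarith
  have hmaps : MapsTo g (ball (y : ℂ) r) (closedBall (g y) (2 * (C / r))) := by
    intro w hw
    rw [mem_closedBall, dist_eq_norm]
    refine (norm_sub_le _ _).trans ?_
    linarith [hbound w hw, hbound y (mem_ball_self hr0)]
  have hxb : (x : ℂ) ∈ ball (y : ℂ) r := by
    rw [mem_ball, dist_eq_norm, ← Complex.ofReal_sub, Complex.norm_real, Real.norm_eq_abs]
    have := Real.exp_pos (-σ)
    rw [hr]
    -- 4 ε < 1 / 2
    have hε2 : ε < 1 / 8 := by
      rw [hε, Real.exp_neg, ← one_div]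
      apply one_div_lt_one_div_of_lt (by norm_num)
      have h1 : Real.exp (4 * (n:ℝ)) = Real.exp (2 * n) ^ 2 := by
        rw [← Real.exp_nat_mul]; congr 1; push_cast; ring
      have h2 := Real.add_one_le_exp (2 * (n:ℝ))
      rw [h1]
      nlinarith
    nlinarith
  have hdist := Complex.dist_le_div_mul_dist_of_mapsTo_ball (hg.mono hsub) hmaps hxb
  rw [dist_eq_norm, dist_eq_norm, ← Complex.ofReal_sub, Complex.norm_real,
    Real.norm_eq_abs] at hdist
  have hfin : ‖g x - g y‖ < 1 / 2 := by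
    refine lt_of_le_of_lt ?_ hn2
    refine hdist.trans ?_
    have h1 : 2 * (C / r) / r * |x - y| ≤ 2 * (C / r) / r * (Real.exp (-σ) * (4 * ε)) :=
      mul_le_mul_of_nonneg_left hxy (by positivity)
    refine h1.trans ?_
    have h2 : 2 * (C / r) / r * (Real.exp (-σ) * (4 * ε)) = 32 * C * (Real.exp σ * ε) := by
      rw [hr, Real.exp_neg]
      have := Real.exp_pos σ
      field_simp
      ring
    rw [h2, mul_assoc (32 * C)]
    apply mul_le_mul_of_nonneg_left _ (by positivity)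
    rw [hε, ← Real.exp_add, ← Real.exp_add]
    apply Real.exp_le_exp.2
    have h3 := (abs_le.1 hσ).2
    linarith
  -- values
  have hux : u x = ((Real.exp (-(2 * τ)) : ℝ) : ℂ) := by
    have h1 : s1 x = ((Real.exp (-(2 * τ)) : ℝ) : ℂ) := by rw [hx, s1_real, hτs]
    have h2 : dl x = ((Real.exp (-(2 * τ)) : ℝ) : ℂ) := by rw [hx, dl_real]
    rw [hue x hxD, s2, h1, h2]
    ring
  have huy : u y = -((Real.exp (-(2 * σ)) : ℝ) : ℂ) := by
    have h1 : s1 y = -((Real.exp (-(2 * σ)) : ℝ) : ℂ) := by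
      rw [hy, s1_real, hσs]; push_cast; rfl
    have h2 : dl y = ((Real.exp (-(2 * σ)) : ℝ) : ℂ) := by rw [hy, dl_real]
    rw [hue y hyD, s2, h1, h2]
    ring
  have hexp : Complex.exp (g x - g y) = ((-(Real.exp (-(2 * τ)) / Real.exp (-(2 * σ))) : ℝ) : ℂ) := by
    rw [Complex.exp_sub, ← hgu x hxD, ← hgu y hyD, hux, huy]
    push_cast
    rw [div_neg]
  have h1 := Complex.norm_exp_sub_one_le (x := g x - g y) (by linarith)
  rw [hexp] at h1
  have h2 : ((-(Real.exp (-(2 * τ)) / Real.exp (-(2 * σ))) : ℝ) : ℂ) - 1 =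
      ((-(Real.exp (-(2 * τ)) / Real.exp (-(2 * σ)) + 1) : ℝ) : ℂ) := by push_cast; ring
  rw [h2, Complex.norm_real, Real.norm_eq_abs, abs_neg] at h1
  have h3 : 0 < Real.exp (-(2 * τ)) / Real.exp (-(2 * σ)) := by positivity
  rw [abs_of_pos (by linarith)] at h1
  linarith

end Pool.Agent.W775.SR
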