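import Mathlib
import Pool.Agent.W775.SR.Circ

set_option autoImplicit false
set_option linter.unusedVariables false

/-!
# The area integral of the local mean excess
-/

namespace Pool.Agent.W775.SR

open Metric Set Filter Topology ComplexConjugate Real MeasureTheory
open scoped ENNReal

section

variable {u : ℂ → ℝ} (hu : ContinuousOn u (ball 0 1))
  (hm : ∀ s t : ℝ, 0 ≤ s → s ≤ t → t < 1 → circleAverage u 0 s ≤ circleAverage u 0 t)

include hu hm in
theorem avg_avg {r R : ℝ} (hr : 0 ≤ r) (hR : 0 ≤ R) (hrR : r + R < 1) :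
    ∫ θ in (0 : ℝ)..2 * π, circleAverage u (circleMap 0 r θ) R ≤
      2 * π * circleAverage u 0 (r + R) := by
  have hpi : (0:ℝ) < 2 * π := two_pi_pos
  set w : ℝ → ℂ := fun φ => (r : ℂ) + R * Complex.exp (φ * Complex.I) with hw
  have hwn : ∀ φ, ‖w φ‖ ≤ r + R := by
    intro φ
    refine (norm_add_le _ _).trans ?_
    rw [norm_mul, Complex.norm_exp_ofReal_mul_I, mul_one, Complex.norm_real, Complex.norm_real,
      Real.norm_eq_abs, Real.norm_eq_abs, abs_of_nonneg hr, abs_of_nonneg hR]
  set h : ℝ → ℝ → ℝ := fun θ φ => u (Complex.exp (θ * Complex.I) * w φ) with hh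
  have hhc : Continuous (Function.uncurry h) := by
    have : (Function.uncurry h) = u ∘ (fun p : ℝ × ℝ =>
        Complex.exp (p.1 * Complex.I) * w p.2) := by
      funext p; rfl
    rw [this]
    rw [← continuousOn_univ]
    refine hu.comp (Continuous.continuousOn (by simp only [hw]; fun_prop)) ?_
    intro p _
    rw [mem_ball_zero_iff, norm_mul, Complex.norm_exp_ofReal_mul_I, one_mul]
    exact lt_of_le_of_lt (hwn _) hrR
  have h1 : ∀ θ, circleAverage u (circleMap 0 r θ) R = (2 * π)⁻¹ * ∫ φ in (0:ℝ)..2 * π, h θ φ := by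
    intro θ
    rw [circleAverage_eq_integral_add θ, smul_eq_mul]
    congr 1
    apply intervalIntegral.integral_congr
    intro φ _
    simp only [hh, hw, circleMap]
    congr 1
    push_cast
    rw [add_mul, Complex.exp_add]
    ring
  have h2 : ∀ φ, ∫ θ in (0:ℝ)..2 * π, h θ φ ≤ 2 * π * circleAverage u 0 (r + R) := by
    intro φ
    have e1 : circleAverage u 0 ‖w φ‖ = (2 * π)⁻¹ * ∫ θ in (0:ℝ)..2 * π, h θ φ := by
      rw [circleAverage_eq_integral_add (Complex.arg (w φ)), smul_eq_mul]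
      congr 1
      apply intervalIntegral.integral_congr
      intro θ _
      simp only [hh, circleMap]
      congr 1
      conv_rhs => rw [← Complex.norm_mul_exp_arg_mul_I (w φ)]
      push_cast
      rw [add_mul, Complex.exp_add]
      ring
    have e2 : ∫ θ in (0:ℝ)..2 * π, h θ φ = 2 * π * circleAverage u 0 ‖w φ‖ := by
      rw [e1, ← mul_assoc, mul_inv_cancel₀ hpi.ne', one_mul]
    rw [e2]
    exact mul_le_mul_of_nonneg_left (hm _ _ (norm_nonneg _) (hwn φ) hrR) hpi.le
  have h3 : ∫ θ in (0 : ℝ)..2 * π, circleAverage u (circleMap 0 r θ) R =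
      (2 * π)⁻¹ * ∫ θ in (0:ℝ)..2 * π, ∫ φ in (0:ℝ)..2 * π, h θ φ := by
    rw [← intervalIntegral.integral_const_mul]
    exact intervalIntegral.integral_congr fun θ _ => h1 θ
  have h4 : ∫ θ in (0:ℝ)..2 * π, ∫ φ in (0:ℝ)..2 * π, h θ φ =
      ∫ φ in (0:ℝ)..2 * π, ∫ θ in (0:ℝ)..2 * π, h θ φ := by
    apply intervalIntegral_intervalIntegral_swap
    have hc : IsCompact (Icc (0:ℝ) (2 * π) ×ˢ Icc (0:ℝ) (2 * π)) := isCompact_Icc.prod isCompact_Icc
    have := hhc.continuousOn (s := Icc (0:ℝ) (2 * π) ×ˢ Icc (0:ℝ) (2 * π))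
    refine (this.integrableOn_compact hc).mono_set ?_
    rw [uIoc_of_le hpi.le]
    exact prod_mono Ioc_subset_Icc_self Ioc_subset_Icc_self
  have h5 : ∫ φ in (0:ℝ)..2 * π, ∫ θ in (0:ℝ)..2 * π, h θ φ ≤
      ∫ φ in (0:ℝ)..2 * π, (2 * π * circleAverage u 0 (r + R)) := by
    apply intervalIntegral.integral_mono_on hpi.le
    · apply Continuous.intervalIntegrable
      have hsw : Continuous (Function.uncurry fun φ θ => h θ φ) := hhc.comp continuous_swap
      exact intervalIntegral.continuous_parametric_intervalIntegral_of_continuous' hsw _ _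
    · exact intervalIntegrable_const
    · intro φ _
      exact h2 φ
  rw [intervalIntegral.integral_const, sub_zero, smul_eq_mul] at h5
  rw [h3, h4]
  calc (2 * π)⁻¹ * ∫ φ in (0:ℝ)..2 * π, ∫ θ in (0:ℝ)..2 * π, h θ φ
      ≤ (2 * π)⁻¹ * (2 * π * (2 * π * circleAverage u 0 (r + R))) :=
        mul_le_mul_of_nonneg_left h5 (by positivity)
    _ = _ := by rw [← mul_assoc, inv_mul_cancel₀ hpi.ne', one_mul]

/-- the local mean excess -/
noncomputable def gg (u : ℂ → ℝ) (z : ℂ) : ℝ := circleAverage u z ((1 - ‖z‖) / 2) - u z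

include hu in
theorem gg_circle_cont {r : ℝ} (hr : 0 ≤ r) (hr1 : r < 1) :
    Continuous fun θ : ℝ => gg u (circleMap 0 r θ) := by
  have hn : ∀ θ : ℝ, ‖circleMap 0 r θ‖ = r := fun θ => by
    rw [norm_circleMap_zero, abs_of_nonneg hr]
  unfold gg
  simp only [hn]
  have hc : Continuous fun θ : ℝ => u (circleMap 0 r θ) := by
    rw [← continuousOn_univ]
    refine hu.comp (continuous_circleMap 0 r).continuousOn ?_
    intro θ _
    rw [mem_ball_zero_iff, hn]
    exact hr1
  refine Continuous.sub ?_ hc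
  unfold circleAverage
  simp only [smul_eq_mul]
  refine Continuous.mul continuous_const ?_
  apply intervalIntegral.continuous_parametric_intervalIntegral_of_continuous'
  have : (Function.uncurry fun θ φ : ℝ => u (circleMap (circleMap 0 r θ) ((1 - r) / 2) φ)) =
      u ∘ (fun p : ℝ × ℝ => circleMap (circleMap 0 r p.1) ((1 - r) / 2) p.2) := by
    funext p; rfl
  rw [this, ← continuousOn_univ]
  refine hu.comp (Continuous.continuousOn (by unfold circleMap; fun_prop)) ?_
  intro p _
  rw [mem_ball_zero_iff]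
  have h1 : ‖circleMap (circleMap 0 r p.1) ((1 - r) / 2) p.2‖ ≤ r + (1 - r) / 2 := by
    unfold circleMap
    refine (norm_add_le _ _).trans ?_
    rw [norm_mul, Complex.norm_exp_ofReal_mul_I, mul_one, zero_add, norm_mul,
      Complex.norm_exp_ofReal_mul_I, mul_one, Complex.norm_real, Complex.norm_real,
      Real.norm_eq_abs, Real.norm_eq_abs, abs_of_nonneg hr, abs_of_nonneg (by linarith)]
  linarith

include hu in
theorem gg_contOn : ContinuousOn (gg u) (ball 0 1) := by
  unfold gg
  refine ContinuousOn.sub ?_ hu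
  rw [continuousOn_iff_continuous_domRestrict]
  have e : (ball (0:ℂ) 1).domRestrict (fun z => circleAverage u z ((1 - ‖z‖) / 2)) =
      fun z : ball (0:ℂ) 1 => (2 * π)⁻¹ * ∫ θ in (0:ℝ)..2 * π,
        u (circleMap (z : ℂ) ((1 - ‖(z : ℂ)‖) / 2) θ) := by
    funext z
    rfl
  rw [e]
  refine Continuous.mul continuous_const ?_
  apply intervalIntegral.continuous_parametric_intervalIntegral_of_continuous'
  have e2 : (Function.uncurry fun (z : ball (0:ℂ) 1) (θ : ℝ) =>
      u (circleMap (z : ℂ) ((1 - ‖(z : ℂ)‖) / 2) θ)) =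
      fun p : ball (0:ℂ) 1 × ℝ => u (circleMap (p.1 : ℂ) ((1 - ‖(p.1 : ℂ)‖) / 2) p.2) := by
    funext p; rfl
  rw [e2]
  refine hu.comp_continuous (by unfold circleMap; fun_prop) ?_
  rintro ⟨⟨z, hz⟩, θ⟩
  have hz' : ‖z‖ < 1 := by simpa using hz
  rw [mem_ball_zero_iff]
  have h1 : ‖circleMap z ((1 - ‖z‖) / 2) θ‖ ≤ ‖z‖ + (1 - ‖z‖) / 2 := by
    unfold circleMap
    refine (norm_add_le _ _).trans ?_
    rw [norm_mul, Complex.norm_exp_ofReal_mul_I, mul_one, Complex.norm_real,
      Real.norm_eq_abs, abs_of_nonneg (by linarith)]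
  show ‖circleMap z ((1 - ‖z‖) / 2) θ‖ < 1
  linarith

include hu hm in
theorem gg_circle_le {r : ℝ} (hr : 0 ≤ r) (hr1 : r < 1) :
    ∫ θ in (0 : ℝ)..2 * π, gg u (circleMap 0 r θ) ≤
      2 * π * (circleAverage u 0 ((1 + r) / 2) - circleAverage u 0 r) := by
  have hn : ∀ θ : ℝ, ‖circleMap 0 r θ‖ = r := fun θ => by
    rw [norm_circleMap_zero, abs_of_nonneg hr]
  have hc : Continuous fun θ : ℝ => u (circleMap 0 r θ) := by
    rw [← continuousOn_univ]
    refine hu.comp (continuous_circleMap 0 r).continuousOn ?_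
    intro θ _
    rw [mem_ball_zero_iff, hn]
    exact hr1
  have hg := gg_circle_cont hu hr hr1
  have e1 : ∀ θ : ℝ, circleAverage u (circleMap 0 r θ) ((1 - r) / 2) =
      gg u (circleMap 0 r θ) + u (circleMap 0 r θ) := by
    intro θ
    unfold gg
    rw [hn]
    ring
  have h1 := avg_avg hu hm hr (R := (1 - r) / 2) (by linarith) (by linarith)
  simp only [e1] at h1
  rw [intervalIntegral.integral_add (hg.intervalIntegrable _ _) (hc.intervalIntegrable _ _)] at h1
  have e2 : ∫ θ in (0 : ℝ)..2 * π, u (circleMap 0 r θ) = 2 * π * circleAverage u 0 r := by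
    unfold circleAverage
    rw [smul_eq_mul, ← mul_assoc, mul_inv_cancel₀ two_pi_pos.ne', one_mul]
  have e3 : r + (1 - r) / 2 = (1 + r) / 2 := by ring
  rw [e2, e3] at h1
  linarith

include hu hm in
theorem gg_lint_circle (h0 : ∀ z ∈ ball (0 : ℂ) 1, 0 ≤ gg u z) {r : ℝ} (hr : 0 < r) (hr1 : r < 1) :
    ∫⁻ θ in Ioo (-π) π, ENNReal.ofReal (gg u (Complex.polarCoord.symm (r, θ))) ≤
      ENNReal.ofReal (2 * π * (circleAverage u 0 ((1 + r) / 2) - circleAverage u 0 r)) := by
  have hg := gg_circle_cont hu hr.le hr1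
  have e1 : ∀ θ : ℝ, Complex.polarCoord.symm (r, θ) = circleMap 0 r θ := by
    intro θ
    rw [Complex.polarCoord_symm_apply, circleMap, zero_add, Complex.exp_mul_I]
    push_cast
    rfl
  simp only [e1]
  have hn : ∀ θ : ℝ, 0 ≤ gg u (circleMap 0 r θ) := by
    intro θ
    apply h0
    rw [mem_ball_zero_iff, norm_circleMap_zero, abs_of_pos hr]
    exact hr1
  have hper : Function.Periodic (fun θ : ℝ => gg u (circleMap 0 r θ)) (2 * π) := by
    intro θ
    simp only [periodic_circleMap 0 r θ]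
  have e2 : ∫⁻ θ in Ioo (-π) π, ENNReal.ofReal (gg u (circleMap 0 r θ)) =
      ENNReal.ofReal (∫ θ in (-π)..π, gg u (circleMap 0 r θ)) := by
    rw [intervalIntegral.integral_of_le (by linarith [Real.pi_pos]),
      ← integral_Ioc_eq_integral_Ioo.symm, ofReal_integral_eq_lintegral_ofReal]
    · exact (hg.integrableOn_Icc (a := -π) (b := π)).mono_set Ioo_subset_Icc_self
    · exact Eventually.of_forall hn
  rw [e2]
  apply ENNReal.ofReal_le_ofReal
  have h1 := hper.intervalIntegral_add_eq (-π) 0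
  rw [zero_add] at h1
  have e3 : -π + 2 * π = π := by ring
  rw [e3] at h1
  rw [h1]
  exact gg_circle_le hu hm hr.le hr1

include hu hm in
theorem gg_area (h0 : ∀ z ∈ ball (0 : ℂ) 1, 0 ≤ gg u z) {M : ℝ}
    (hM : ∀ t : ℝ, 0 ≤ t → t < 1 → circleAverage u 0 t ≤ M) :
    ∫⁻ z in ball (0 : ℂ) 1, ENNReal.ofReal (gg u z / (1 - ‖z‖)) < ∞ := by
  set m : ℝ → ℝ := fun r => circleAverage u 0 r with hmdef
  set ψ : ℝ → ℝ≥0∞ := fun r => ENNReal.ofReal (1 / (1 - r)) *
    ENNReal.ofReal (2 * π * (m ((1 + r) / 2) - m r)) with hψ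
  have h1 : ∫⁻ z in ball (0 : ℂ) 1, ENNReal.ofReal (gg u z / (1 - ‖z‖)) ≤
      ∫⁻ r in Ioi (0:ℝ), (Iio (1:ℝ)).indicator ψ r := by
    rw [← lintegral_indicator measurableSet_ball, ← Complex.lintegral_comp_polarCoord_symm]
    have e1 : (polarCoord.target : Set (ℝ × ℝ)) = Ioi (0:ℝ) ×ˢ Ioo (-π) π := rfl
    rw [e1, Measure.volume_eq_prod, ← Measure.prod_restrict]
    refine (lintegral_prod_le _).trans ?_
    apply setLIntegral_mono' measurableSet_Ioi
    intro r hr
    have hr0 : (0:ℝ) < r := hr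
    have hn : ∀ θ : ℝ, ‖Complex.polarCoord.symm (r, θ)‖ = r := by
      intro θ
      rw [Complex.norm_polarCoord_symm, abs_of_pos hr0]
    by_cases hr1 : r < 1
    · rw [indicator_of_mem (show r ∈ Iio (1:ℝ) from hr1)]
      have h2 : ∀ θ : ℝ, ENNReal.ofReal (r, θ).1 • (ball (0:ℂ) 1).indicator
          (fun z => ENNReal.ofReal (gg u z / (1 - ‖z‖))) (Complex.polarCoord.symm (r, θ)) ≤
          ENNReal.ofReal (1 / (1 - r)) *
            ENNReal.ofReal (gg u (Complex.polarCoord.symm (r, θ))) := by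
        intro θ
        have hz : Complex.polarCoord.symm (r, θ) ∈ ball (0:ℂ) 1 := by
          rw [mem_ball_zero_iff, hn]; exact hr1
        rw [indicator_of_mem hz, hn, smul_eq_mul, ← ENNReal.ofReal_mul hr0.le,
          ← ENNReal.ofReal_mul (by apply div_nonneg <;> linarith)]
        apply ENNReal.ofReal_le_ofReal
        have h3 := h0 _ hz
        have h4 : 0 ≤ gg u (Complex.polarCoord.symm (r, θ)) / (1 - r) :=
          div_nonneg h3 (by linarith)
        have h5 : 1 / (1 - r) * gg u (Complex.polarCoord.symm (r, θ)) =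
          gg u (Complex.polarCoord.symm (r, θ)) / (1 - r) := by ring
        rw [h5]
        show r * _ ≤ _
        nlinarith
      refine (lintegral_mono h2).trans ?_
      rw [lintegral_const_mul' _ _ ENNReal.ofReal_ne_top]
      exact mul_le_mul_right (gg_lint_circle hu hm h0 hr0 hr1) _
    · have h2 : ∀ θ : ℝ, ENNReal.ofReal (r, θ).1 • (ball (0:ℂ) 1).indicator
          (fun z => ENNReal.ofReal (gg u z / (1 - ‖z‖))) (Complex.polarCoord.symm (r, θ)) = 0 := by
        intro θ
        rw [indicator_of_notMem, smul_zero]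
        rw [mem_ball_zero_iff, hn]
        exact hr1
      simp only [h2, lintegral_zero]
      exact zero_le
  refine lt_of_le_of_lt h1 ?_
  rw [lintegral_indicator measurableSet_Iio, Measure.restrict_restrict measurableSet_Iio]
  set s : ℕ → ℝ := fun k => 1 - (1 / 2) ^ k with hs
  have hs0 : ∀ k, 0 ≤ s k := by
    intro k
    have : ((1:ℝ) / 2) ^ k ≤ 1 := pow_le_one₀ (by norm_num) (by norm_num)
    simp only [hs]; linarith
  have hs1 : ∀ k, s k < 1 := by
    intro k
    have : 0 < ((1:ℝ) / 2) ^ k := by positivity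
    simp only [hs]; linarith
  have hsm : ∀ k, s k ≤ s (k + 1) := by
    intro k
    have : 0 < ((1:ℝ) / 2) ^ k := by positivity
    simp only [hs, pow_succ]; linarith
  have hcov : Iio (1:ℝ) ∩ Ioi 0 ⊆ ⋃ k, Ico (s k) (s (k + 1)) := by
    intro r hr
    have hr1 : r < 1 := hr.1
    have hr0 : (0:ℝ) < r := hr.2
    have hex : ∃ k, r < s k := by
      obtain ⟨k, hk⟩ := exists_pow_lt_of_lt_one (show (0:ℝ) < 1 - r by linarith)
        (show (1:ℝ) / 2 < 1 by norm_num)
      exact ⟨k, by simp only [hs]; linarith⟩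
    classical
    have hk := Nat.find_spec hex
    have hk0 : Nat.find hex ≠ 0 := by
      intro h
      rw [h] at hk
      simp only [hs, pow_zero, sub_self] at hk
      linarith
    obtain ⟨j, hj⟩ := Nat.exists_eq_succ_of_ne_zero hk0
    rw [mem_iUnion]
    refine ⟨j, ?_, ?_⟩
    · by_contra hlt
      push Not at hlt
      have := Nat.find_min' hex hlt
      omega
    · rw [hj] at hk; exact hk
  refine lt_of_le_of_lt (lintegral_mono_set hcov) ?_
  refine lt_of_le_of_lt (lintegral_iUnion_le _ _) ?_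
  set c : ℕ → ℝ := fun k => 2 * π * (m (s (k + 2)) - m (s k)) with hc
  have hms : ∀ k, m (s k) ≤ m (s (k + 1)) := fun k => hm _ _ (hs0 k) (hsm k) (hs1 _)
  have hc0 : ∀ k, 0 ≤ c k := by
    intro k
    simp only [hc]
    apply mul_nonneg two_pi_pos.le
    linarith [hms k, hms (k + 1)]
  have h2 : ∀ k, ∫⁻ r in Ico (s k) (s (k + 1)), ψ r ≤ ENNReal.ofReal (c k) := by
    intro k
    have h3 : ∀ r ∈ Ico (s k) (s (k + 1)), ψ r ≤
        ENNReal.ofReal (2 ^ (k + 1)) * ENNReal.ofReal (c k) := by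
      intro r hr
      have hr1 : r < 1 := hr.2.trans (hs1 _)
      have hpk : (0:ℝ) < (1 / 2) ^ (k + 1) := by positivity
      have h4 : (1/2 : ℝ) ^ (k + 1) < 1 - r := by
        have := hr.2
        simp only [hs] at this
        linarith
      have h5 : 1 / (1 - r) ≤ 2 ^ (k + 1) := by
        rw [div_le_iff₀ (by linarith)]
        have e : (2:ℝ) ^ (k + 1) * (1 / 2) ^ (k + 1) = 1 := by
          rw [← mul_pow]; norm_num
        nlinarith [pow_pos (show (0:ℝ) < 2 by norm_num) (k + 1)]
      have h6 : (1 + r) / 2 ≤ s (k + 2) := by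
        have := hr.2
        simp only [hs] at this ⊢
        rw [pow_succ (1/2 : ℝ) (k + 1)]
        linarith
      simp only [hψ]
      apply mul_le_mul'
      · exact ENNReal.ofReal_le_ofReal h5
      · apply ENNReal.ofReal_le_ofReal
        simp only [hc]
        apply mul_le_mul_of_nonneg_left _ two_pi_pos.le
        have h7 := hm _ _ (show 0 ≤ (1 + r) / 2 by linarith [hs0 k, hr.1]) h6 (hs1 _)
        have h8 := hm _ _ (hs0 k) hr.1 hr1
        simp only [hmdef]
        linarith
    refine (setLIntegral_mono' measurableSet_Ico h3).trans ?_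
    rw [setLIntegral_const, Real.volume_Ico, mul_right_comm, ← ENNReal.ofReal_mul (by positivity)]
    have e : (2:ℝ) ^ (k + 1) * (s (k + 1) - s k) = 1 := by
      have e2 : s (k + 1) - s k = (1/2 : ℝ) ^ (k + 1) := by
        simp only [hs, pow_succ]; ring
      rw [e2, ← mul_pow]; norm_num
    rw [e, ENNReal.ofReal_one, one_mul]
  refine lt_of_le_of_lt (ENNReal.tsum_le_tsum h2) ?_
  have hsum : Summable c := by
    apply summable_of_sum_range_le (c := 2 * π * (2 * M - 2 * m (s 0))) hc0
    intro n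
    have h3 : ∑ k ∈ Finset.range n, c k =
        2 * π * (m (s (n + 1)) + m (s n) - m (s 1) - m (s 0)) := by
      induction n with
      | zero => simp
      | succ n ih =>
        rw [Finset.sum_range_succ, ih]
        simp only [hc]
        ring
    rw [h3]
    apply mul_le_mul_of_nonneg_left _ two_pi_pos.le
    have h4 := hM _ (hs0 (n + 1)) (hs1 _)
    have h5 := hM _ (hs0 n) (hs1 _)
    have h6 := hms 0
    simp only [hmdef] at h6 ⊢
    rw [zero_add] at h6
    linarith
  rw [← ENNReal.ofReal_tsum_of_nonneg hc0 hsum]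
  exact ENNReal.ofReal_lt_top

end

end Pool.Agent.W775.SR
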