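import Mathlib
import Pool.Agent.W775.SR.Jens

set_option autoImplicit false
set_option linter.unusedVariables false

/-!
# The local mean excess `G` of `log |f|`
-/

namespace Pool.Agent.W775.SR

open Metric Set Filter Topology ComplexConjugate Real InnerProductSpace MeasureTheory MeromorphicOn

variable {ι : Type} [Fintype ι]

noncomputable def GG (f : ι → ℂ → ℂ) (z : ℂ) : ℝ :=
  circleAverage (uu f) z ((1 - ‖z‖) / 2) - uu f z

theorem disc_geom {z : ℂ} (hz : z ∈ ball (0 : ℂ) 1) :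
    0 < (1 - ‖z‖) / 2 ∧ ‖z‖ + (1 - ‖z‖) / 2 < 1 ∧ closedBall z ((1 - ‖z‖) / 2) ⊆ ball 0 1 ∧
      closedBall z |(1 - ‖z‖) / 2| ⊆ ball 0 1 := by
  rw [mem_ball_zero_iff] at hz
  have h1 : 0 < (1 - ‖z‖) / 2 := by linarith
  have h2 : ‖z‖ + (1 - ‖z‖) / 2 < 1 := by linarith
  have h3 := sub_disc (z := z) h1.le h2
  refine ⟨h1, h2, ?_, h3⟩
  rwa [abs_of_pos h1] at h3

theorem log_pp_avg {f : ι → ℂ → ℂ} (hf : ∀ i, DifferentiableOn ℂ (f i) (ball 0 1))
    (hpos : ∀ z ∈ ball (0 : ℂ) 1, 0 < n2 f z) {z : ℂ} (hz : z ∈ ball (0 : ℂ) 1) :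
    2 * uu f z ≤ circleAverage (fun w => Real.log ‖pp f z w‖) z ((1 - ‖z‖) / 2) := by
  obtain ⟨hR, hR1, hsub, hsub'⟩ := disc_geom hz
  have han : AnalyticOnNhd ℂ (pp f z) (closedBall z ((1 - ‖z‖) / 2)) :=
    ((pp_diff hf z).analyticOnNhd isOpen_ball).mono hsub
  have hpz : pp f z z ≠ 0 := by
    rw [pp_self]
    exact_mod_cast (hpos z hz).ne'
  have h1 := jensen_le hR han hpz ∅ (by simp)
  simp only [Finset.sum_empty, zero_add] at h1
  rwa [log_pp_self (hpos z hz)] at h1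

theorem GG_nonneg {f : ι → ℂ → ℂ} (hf : ∀ i, DifferentiableOn ℂ (f i) (ball 0 1))
    (hpos : ∀ z ∈ ball (0 : ℂ) 1, 0 < n2 f z) {z : ℂ} (hz : z ∈ ball (0 : ℂ) 1) :
    0 ≤ GG f z := by
  obtain ⟨hR, hR1, hsub, hsub'⟩ := disc_geom hz
  have han : AnalyticOnNhd ℂ (pp f z) (closedBall z ((1 - ‖z‖) / 2)) :=
    ((pp_diff hf z).analyticOnNhd isOpen_ball).mono hsub
  have hpz : pp f z z ≠ 0 := by
    rw [pp_self]
    exact_mod_cast (hpos z hz).ne'
  have h1 := log_pp_avg hf hpos hz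
  have hu : CircleIntegrable (uu f) z ((1 - ‖z‖) / 2) := ci_of_contOn (uu_contOn hf hpos) hsub'
  have h2 : circleAverage (fun w => Real.log ‖pp f z w‖) z ((1 - ‖z‖) / 2) ≤
      circleAverage (fun w => uu f z + uu f w) z ((1 - ‖z‖) / 2) := by
    apply ca_mono_ne hR han ⟨z, mem_closedBall_self hR.le, hpz⟩ (ci_log hR han)
      (ci_add (ci_const _ _ _) hu)
    intro w hw hne
    exact log_pp_le (hpos z hz) (hpos w (hsub (sphere_subset_closedBall hw))) hne
  rw [circleAverage_fun_add (ci_const _ _ _) hu, circleAverage_const] at h2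
  unfold GG
  linarith

theorem GG_le {f : ι → ℂ → ℂ} (hf : ∀ i, DifferentiableOn ℂ (f i) (ball 0 1))
    (hpos : ∀ z ∈ ball (0 : ℂ) 1, 0 < n2 f z) {V W : ℂ → ℂ} (hV : Maj V)
    (hV' : ∀ z ∈ ball (0 : ℂ) 1, uu f z ≤ (V z).re)
    (hW' : ∀ z ∈ ball (0 : ℂ) 1, -(W z).re ≤ uu f z) {z : ℂ} (hz : z ∈ ball (0 : ℂ) 1) :
    GG f z ≤ (V z).re + (W z).re := by
  obtain ⟨hR, hR1, hsub, hsub'⟩ := disc_geom hz
  have h1 : circleAverage (uu f) z ((1 - ‖z‖) / 2) ≤ (V z).re := by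
    rw [← re_mean hV.1 hsub']
    apply circleAverage_mono (ci_of_contOn (uu_contOn hf hpos) hsub')
      (ci_of_contOn (re_cont hV.1) hsub')
    intro w hw
    exact hV' w (hsub' (sphere_subset_closedBall hw))
  have h2 := hW' z hz
  unfold GG
  linarith

/-- Cauchy-Schwarz orthogonal to `v` -/
theorem cs_orth (a v w : ι → ℂ) (h : ∑ i, a i * v i = 0) :
    ‖∑ i, a i * w i‖ ^ 2 * (∑ i, ‖v i‖ ^ 2) ≤
      (∑ i, ‖a i‖ ^ 2) * ((∑ i, ‖v i‖ ^ 2) * (∑ i, ‖w i‖ ^ 2) -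
        ‖∑ i, w i * conj (v i)‖ ^ 2) := by
  set N : ℝ := ∑ i, ‖v i‖ ^ 2 with hN
  set p : ℂ := ∑ i, w i * conj (v i) with hp
  have hN0 : 0 ≤ N := Finset.sum_nonneg fun i _ => by positivity
  rcases hN0.eq_or_lt with h0 | hNpos
  · have hv : ∀ i, v i = 0 := by
      intro i
      have := (Finset.sum_eq_zero_iff_of_nonneg (fun i _ => by positivity)).1 h0.symm i
        (Finset.mem_univ i)
      simpa using this
    have hp0 : p = 0 := by
      rw [hp]
      exact Finset.sum_eq_zero fun i _ => by rw [hv i]; simp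
    rw [← h0, hp0]
    simp
  -- projected vector
  set u : ι → ℂ := fun i => (N : ℂ) * w i - p * v i with hu
  have h1 : ∑ i, a i * u i = (N : ℂ) * ∑ i, a i * w i := by
    simp only [hu, mul_sub]
    rw [Finset.sum_sub_distrib, Finset.mul_sum]
    have e : ∑ i, a i * (p * v i) = p * ∑ i, a i * v i := by
      rw [Finset.mul_sum]
      exact Finset.sum_congr rfl fun i _ => by ring
    rw [e, h, mul_zero, sub_zero]
    exact Finset.sum_congr rfl fun i _ => by ring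
  have hNc : ∑ i, v i * conj (v i) = (N : ℂ) := by
    rw [hN]
    push_cast
    refine Finset.sum_congr rfl fun i _ => ?_
    rw [Complex.mul_conj, Complex.normSq_eq_norm_sq]
    push_cast
    rfl
  have h2 : ((∑ i, ‖u i‖ ^ 2 : ℝ) : ℂ) =
      ((N * (N * (∑ i, ‖w i‖ ^ 2) - ‖p‖ ^ 2) : ℝ) : ℂ) := by
    have hsq : ∀ x : ℂ, ((‖x‖ ^ 2 : ℝ) : ℂ) = x * conj x := by
      intro x
      rw [Complex.mul_conj, Complex.normSq_eq_norm_sq]
    rw [Complex.ofReal_sum]
    simp only [hsq]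
    have hpc : conj p = ∑ i, v i * conj (w i) := by
      rw [hp, map_sum]
      exact Finset.sum_congr rfl fun i _ => by simp [mul_comm]
    have e1 : ∀ i, u i * conj (u i) = (N : ℂ) ^ 2 * (w i * conj (w i)) -
        (N : ℂ) * conj p * (w i * conj (v i)) - (N : ℂ) * p * (v i * conj (w i)) +
        p * conj p * (v i * conj (v i)) := by
      intro i
      simp only [hu, map_sub, map_mul, Complex.conj_ofReal]
      ring
    simp only [e1]
    rw [Finset.sum_add_distrib, Finset.sum_sub_distrib, Finset.sum_sub_distrib,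
      ← Finset.mul_sum, ← Finset.mul_sum, ← Finset.mul_sum, ← Finset.mul_sum, hNc, ← hpc, ← hp]
    push_cast
    have e2 : (‖p‖ : ℂ) ^ 2 = p * conj p := by rw [← hsq]; push_cast; rfl
    have e3 : ∑ i, (‖w i‖ : ℂ) ^ 2 = ∑ i, w i * conj (w i) :=
      Finset.sum_congr rfl fun i _ => by rw [← hsq]; push_cast; rfl
    rw [e2, e3]
    ring
  have h2' : ∑ i, ‖u i‖ ^ 2 = N * (N * (∑ i, ‖w i‖ ^ 2) - ‖p‖ ^ 2) := by exact_mod_cast h2
  have h3 : ‖∑ i, a i * u i‖ ^ 2 ≤ (∑ i, ‖a i‖ ^ 2) * ∑ i, ‖u i‖ ^ 2 := by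
    have h4 : ‖∑ i, a i * u i‖ ≤ ∑ i, ‖a i‖ * ‖u i‖ := by
      refine (norm_sum_le _ _).trans (le_of_eq ?_)
      exact Finset.sum_congr rfl fun i _ => norm_mul _ _
    calc ‖∑ i, a i * u i‖ ^ 2 ≤ (∑ i, ‖a i‖ * ‖u i‖) ^ 2 := by gcongr
      _ ≤ _ := Finset.sum_mul_sq_le_sq_mul_sq _ _ _
  rw [h1, h2', norm_mul, mul_pow, Complex.norm_real, Real.norm_eq_abs, sq_abs] at h3
  have h5 : N * (‖∑ i, a i * w i‖ ^ 2 * N) ≤
      N * ((∑ i, ‖a i‖ ^ 2) * (N * (∑ i, ‖w i‖ ^ 2) - ‖p‖ ^ 2)) := by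
    calc N * (‖∑ i, a i * w i‖ ^ 2 * N) = N ^ 2 * ‖∑ i, a i * w i‖ ^ 2 := by ring
      _ ≤ _ := h3
      _ = _ := by ring
  exact le_of_mul_le_mul_left h5 hNpos

/-- the main local estimate: zeros of `F` near a simple zero -/
theorem local_sum {f : ι → ℂ → ℂ} (hf : ∀ i, DifferentiableOn ℂ (f i) (ball 0 1))
    (hpos : ∀ z ∈ ball (0 : ℂ) 1, 0 < n2 f z) (a : ι → ℂ) {F : ℂ → ℂ}
    (hF : ∀ z, F z = ∑ i, a i * f i z) {z : ℂ} (hz : z ∈ ball (0 : ℂ) 1) (hFz : F z = 0)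
    (hFz' : deriv F z ≠ 0) (s : Finset ℂ) (hs : ∀ x ∈ s, x ∈ ball (0 : ℂ) 1 ∧ F x = 0)
    (hzs : z ∉ s) :
    ∑ x ∈ s, log⁺ ((1 - ‖z‖) / 2 / ‖z - x‖) ≤ GG f z +
      (∑ i, ‖a i‖ ^ 2) * GG f z * (n2 f z / (((1 - ‖z‖) / 2) ^ 2 * ‖deriv F z‖ ^ 2)) := by
  obtain ⟨hR, hR1, hsub, hsub'⟩ := disc_geom hz
  set R : ℝ := (1 - ‖z‖) / 2 with hRdef
  have hFd : DifferentiableOn ℂ F (ball 0 1) := by
    have h1 : DifferentiableOn ℂ (fun z => ∑ i, a i * f i z) (ball 0 1) :=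
      DifferentiableOn.fun_sum fun i _ => (hf i).const_mul _
    exact h1.congr fun z _ => hF z
  have hanF : AnalyticOnNhd ℂ F (closedBall z R) := (hFd.analyticOnNhd isOpen_ball).mono hsub
  have hanp : AnalyticOnNhd ℂ (pp f z) (closedBall z R) :=
    ((pp_diff hf z).analyticOnNhd isOpen_ball).mono hsub
  have hpz : pp f z z ≠ 0 := by
    rw [pp_self]
    exact_mod_cast (hpos z hz).ne'
  have hN := hpos z hz
  set K : ℝ := ∑ i, ‖a i‖ ^ 2 with hK
  have hK0 : 0 ≤ K := Finset.sum_nonneg fun i _ => by positivity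
  set X : ℝ := R ^ 2 * ‖deriv F z‖ ^ 2 / n2 f z with hX
  have hd0 : 0 < ‖deriv F z‖ := norm_pos_iff.2 hFz'
  have hX0 : 0 < X := by positivity
  have hu : CircleIntegrable (uu f) z R := ci_of_contOn (uu_contOn hf hpos) hsub'
  have ip : CircleIntegrable (fun w => Real.log ‖pp f z w‖) z R := ci_log hR hanp
  have iF : CircleIntegrable (fun w => Real.log ‖F w‖) z R := ci_log hR hanF
  have hex : ∃ x ∈ closedBall z R, F x * pp f z x ≠ 0 := by
    have h1 : ∀ᶠ x in 𝓝[≠] z, F x ≠ 0 := by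
      have h2 : HasDerivAt F (deriv F z) z :=
        (hFd.differentiableAt (isOpen_ball.mem_nhds hz)).hasDerivAt
      exact h2.eventually_ne hFz'
    have h3 : ∀ᶠ x in 𝓝[≠] z, pp f z x ≠ 0 := by
      have h4 : ContinuousAt (pp f z) z :=
        ((pp_diff hf z).differentiableAt (isOpen_ball.mem_nhds hz)).continuousAt
      exact (h4.eventually_ne hpz).filter_mono nhdsWithin_le_nhds
    have h5 : ∀ᶠ x in 𝓝[≠] z, x ∈ closedBall z R :=
      (closedBall_mem_nhds z hR : _) |> fun h => nhdsWithin_le_nhds h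
    obtain ⟨x, hx1, hx2, hx3⟩ := (h1.and (h3.and h5)).exists
    exact ⟨x, hx3, mul_ne_zero hx1 hx2⟩
  -- pointwise inequality
  have hpt : ∀ w ∈ sphere z R, F w * pp f z w ≠ 0 → Real.log ‖F w‖ ≤
      ((K / X + 1) * uu f w - (K / X) * Real.log ‖pp f z w‖) +
        ((K / X) * uu f z + (1 / 2) * Real.log X - 1 / 2) := by
    intro w hw hne
    have hFw : F w ≠ 0 := left_ne_zero_of_mul hne
    have hpw : pp f z w ≠ 0 := right_ne_zero_of_mul hne
    have hw1 : w ∈ ball (0 : ℂ) 1 := hsub (sphere_subset_closedBall hw)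
    have hNw := hpos w hw1
    have hFw0 : 0 < ‖F w‖ := norm_pos_iff.2 hFw
    have hpw0 : 0 < ‖pp f z w‖ := norm_pos_iff.2 hpw
    -- Cauchy-Schwarz
    have h1 : ‖F w‖ ^ 2 * n2 f z ≤ K * (n2 f z * n2 f w - ‖pp f z w‖ ^ 2) := by
      have h2 := cs_orth a (fun i => f i z) (fun i => f i w) (by rw [← hF z]; exact hFz)
      rw [← hF w] at h2
      exact h2
    set κ : ℝ := ‖pp f z w‖ ^ 2 / (n2 f z * n2 f w) with hκ
    have hκ0 : 0 < κ := by positivity
    have h3 : 1 - κ ≤ - Real.log κ := by linarith [Real.log_le_sub_one_of_pos hκ0]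
    have h4 : Real.log κ = 2 * Real.log ‖pp f z w‖ - 2 * uu f z - 2 * uu f w := by
      rw [hκ, Real.log_div (by positivity) (by positivity), Real.log_pow,
        Real.log_mul hN.ne' hNw.ne']
      unfold uu
      push_cast
      ring
    have h5 : ‖F w‖ ^ 2 / n2 f w ≤ K * (1 - κ) := by
      rw [div_le_iff₀ hNw]
      have e : K * (1 - κ) * n2 f w * n2 f z = K * (n2 f z * n2 f w - ‖pp f z w‖ ^ 2) := by
        rw [hκ]; field_simp
      have h6 : ‖F w‖ ^ 2 * n2 f z ≤ K * (1 - κ) * n2 f w * n2 f z := by rw [e]; exact h1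
      exact le_of_mul_le_mul_right h6 hN
    have h7 : ‖F w‖ ^ 2 / n2 f w ≤ K * (2 * uu f z + 2 * uu f w - 2 * Real.log ‖pp f z w‖) := by
      refine h5.trans (mul_le_mul_of_nonneg_left ?_ hK0)
      linarith
    -- tangent line
    set t : ℝ := ‖F w‖ ^ 2 / n2 f w with ht
    have ht0 : 0 < t := by positivity
    have h8 : Real.log t ≤ t / X - 1 + Real.log X := by
      have h9 := Real.log_le_sub_one_of_pos (x := t / X) (by positivity)
      rw [Real.log_div ht0.ne' hX0.ne'] at h9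
      linarith
    have h10 : Real.log t = 2 * Real.log ‖F w‖ - 2 * uu f w := by
      rw [ht, Real.log_div (by positivity) hNw.ne', Real.log_pow]
      unfold uu
      push_cast
      ring
    have h11 : t / X ≤ K / X * (2 * uu f z + 2 * uu f w - 2 * Real.log ‖pp f z w‖) := by
      rw [div_mul_eq_mul_div]
      exact div_le_div_of_nonneg_right h7 hX0.le
    linarith
  have hAF : circleAverage (fun w => Real.log ‖F w‖) z R ≤
      (K / X + 1) * circleAverage (uu f) z R -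
        (K / X) * circleAverage (fun w => Real.log ‖pp f z w‖) z R +
        ((K / X) * uu f z + (1 / 2) * Real.log X - 1 / 2) := by
    have i1 : CircleIntegrable (fun w => (K / X + 1) * uu f w) z R := ci_const_mul _ hu
    have i2 : CircleIntegrable (fun w => (K / X) * Real.log ‖pp f z w‖) z R := ci_const_mul _ ip
    have h1 := ca_mono_ne hR (hanF.mul hanp) hex iF
      (ci_add (ci_sub i1 i2) (ci_const ((K / X) * uu f z + (1 / 2) * Real.log X - 1 / 2) z R)) hpt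
    rwa [circleAverage_fun_add (ci_sub i1 i2) (ci_const _ _ _), circleAverage_fun_sub i1 i2,
      circleAverage_const, ca_const_mul, ca_const_mul] at h1
  have hAL := log_pp_avg hf hpos hz
  rw [← hRdef] at hAL
  have hJ := jensen_simple hFd hR hR1 hFz hFz' s hs hzs
  have hlogX : (1 / 2) * Real.log X = Real.log (R * ‖deriv F z‖) - uu f z := by
    rw [hX, Real.log_div (by positivity) hN.ne', ← mul_pow, Real.log_pow]
    unfold uu
    push_cast
    ring
  have hKX : 0 ≤ K / X := by positivity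
  have h1 : (K / X) * (2 * uu f z) ≤
      (K / X) * circleAverage (fun w => Real.log ‖pp f z w‖) z R :=
    mul_le_mul_of_nonneg_left hAL hKX
  have h2 : K * GG f z * (n2 f z / (R ^ 2 * ‖deriv F z‖ ^ 2)) = (K / X) * GG f z := by
    rw [hX]; field_simp
  rw [h2]
  have h3 : GG f z = circleAverage (uu f) z R - uu f z := rfl
  rw [h3]
  nlinarith

end Pool.Agent.W775.SR
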