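import Mathlib
import Pool.Agent.W775.SR.Jens
import Pool.Agent.Helper34.Dg.Bfac

set_option autoImplicit false
set_option linter.unusedVariables false

/-!
# Infinite Blaschke products and Herglotz sums

The section `family` is copied from `Pool.Agent.Helper34.Dg.Bl` (to avoid its long import chain).
-/

open MeasureTheory Filter Topology Complex Metric Set
open scoped ComplexConjugate

namespace Pool.Agent.W775.SR

open Pool.Agent.Helper34.Dg (bfac disc mem_disc bfac_sub_one bfac_diff bfac_le bfac_eq_zero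
  one_sub_bfac bden_ne bden_ge bden_ge' bden_le)

section family

variable {ι : Type} {a : ι → ℂ}

/-- infinite Blaschke product -/
noncomputable def bprod (a : ι → ℂ) (z : ℂ) : ℂ := ∏' i, bfac (a i) z

variable (ha : ∀ i, a i ∈ disc) (hs : Summable fun i => 1 - ‖a i‖)

include ha hs in
lemma fam_summable {z : ℂ} (hz : z ∈ disc) : Summable fun i => ‖bfac (a i) z - 1‖ := by
  have hz1 : ‖z‖ < 1 := mem_disc.1 hz
  refine Summable.of_nonneg_of_le (fun _ => norm_nonneg _) (fun i => ?_)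
    (hs.mul_right (2 / (1 - ‖z‖)))
  rw [mul_div, le_div_iff₀ (by linarith)]
  exact bfac_sub_one (ha i) hz

include ha hs in
lemma fam_hasProd {z : ℂ} (hz : z ∈ disc) : HasProd (fun i => bfac (a i) z) (bprod a z) := by
  have h1 : Multipliable fun i => (1 + (bfac (a i) z - 1)) :=
    multipliable_one_add_of_summable (fam_summable ha hs hz)
  have h2 : (fun i => (1 + (bfac (a i) z - 1))) = fun i => bfac (a i) z := by
    funext i; ring
  rw [h2] at h1
  exact h1.hasProd

include ha hs in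
lemma fam_ne {z : ℂ} (hz : z ∈ disc) (h : ∀ i, z ≠ a i) : bprod a z ≠ 0 := by
  have h2 : bprod a z = ∏' i, (1 + (bfac (a i) z - 1)) := by
    unfold bprod
    congr 1
    funext i; ring
  rw [h2]
  refine tprod_one_add_ne_zero_of_summable (fun i => ?_) (fam_summable ha hs hz)
  have e1 : 1 + (bfac (a i) z - 1) = bfac (a i) z := by ring
  rw [e1, ne_eq, bfac_eq_zero (ha i) hz]
  exact h i

include ha hs in
lemma fam_diff : DifferentiableOn ℂ (bprod a) disc := by
  have hball : ∀ R : ℝ, R < 1 → DifferentiableOn ℂ (bprod a) (ball 0 R) := by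
    intro R hR1
    have hsub : ball (0 : ℂ) R ⊆ disc := ball_subset_ball hR1.le
    have h1 : HasProdLocallyUniformlyOn
        (fun (i : ι) z => 1 + (bfac (a i) z - 1)) (fun z => ∏' i, (1 + (bfac (a i) z - 1)))
        (ball 0 R) := by
      refine Summable.hasProdLocallyUniformlyOn_one_add isOpen_ball
        (u := fun i => (1 - ‖a i‖) * (2 / (1 - R))) (hs.mul_right _) ?_ ?_
      · refine Filter.Eventually.of_forall fun i z hz => ?_
        have h2 := bfac_sub_one (ha i) (hsub hz)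
        rw [mul_div, le_div_iff₀ (by linarith)]
        refine le_trans ?_ h2
        apply mul_le_mul_of_nonneg_left _ (norm_nonneg _)
        rw [mem_ball_zero_iff] at hz
        linarith
      · intro i
        exact ((bfac_diff (ha i)).continuousOn.mono hsub).sub continuousOn_const
    have h2 : DifferentiableOn ℂ (fun z => ∏' i, (1 + (bfac (a i) z - 1))) (ball 0 R) := by
      refine TendstoLocallyUniformlyOn.differentiableOn
        (hasProdLocallyUniformlyOn_iff_tendstoLocallyUniformlyOn.1 h1) ?_ isOpen_ball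
      refine Filter.Eventually.of_forall fun s => ?_
      refine DifferentiableOn.fun_finsetProd fun i _ => ?_
      exact (differentiableOn_const _).add
        (((bfac_diff (ha i)).mono hsub).sub (differentiableOn_const _))
    refine h2.congr fun z _ => ?_
    unfold bprod
    congr 1
    funext i; ring
  intro z hz
  obtain ⟨R, hR0, hR1⟩ := exists_between (mem_disc.1 hz)
  exact ((hball R hR1).differentiableAt
    (isOpen_ball.mem_nhds (mem_ball_zero_iff.2 hR0))).differentiableWithinAt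

include ha hs in
lemma fam_le_fin (s : Finset ι) {z : ℂ} (hz : z ∈ disc) :
    ‖bprod a z‖ ≤ ∏ i ∈ s, ‖bfac (a i) z‖ := by
  refine le_of_tendsto (fam_hasProd ha hs hz).norm ?_
  filter_upwards [eventually_ge_atTop s] with t ht
  classical
  rw [← Finset.prod_sdiff ht]
  refine mul_le_of_le_one_left (Finset.prod_nonneg fun _ _ => norm_nonneg _) ?_
  exact Finset.prod_le_one (fun _ _ => norm_nonneg _) fun i _ => bfac_le (ha i) hz

include ha hs in
lemma fam_le {z : ℂ} (hz : z ∈ disc) : ‖bprod a z‖ ≤ 1 := by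
  simpa using fam_le_fin ha hs ∅ hz

include ha hs in
lemma fam_split (s : Finset ι) {z : ℂ} (hz : z ∈ disc) :
    bprod a z = (∏ i ∈ s, bfac (a i) z) *
      bprod (fun i : ((s : Set ι)ᶜ : Set ι) => a i) z := by
  have h1 := fam_hasProd (a := fun i : ((s : Set ι)ᶜ : Set ι) => a i) (fun i => ha i)
    (hs.subtype _) hz
  have h2 := s.hasProd (fun i : ι => bfac (a i) z)
  exact (fam_hasProd ha hs hz).unique (h2.mul_isCompl isCompl_compl h1)

end family

section lower

variable {ι : Type} {a : ι → ℂ}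

theorem bprod_ge (ha : ∀ i, a i ∈ disc) (hs : Summable fun i => 1 - ‖a i‖) {z : ℂ} (hz : z ∈ disc)
    (hne : ∀ i, z ≠ a i) {C : ℝ} (h : ∀ s : Finset ι, ∑ i ∈ s, -Real.log ‖bfac (a i) z‖ ≤ C) :
    Real.exp (-C) ≤ ‖bprod a z‖ := by
  refine ge_of_tendsto (fam_hasProd ha hs hz).norm (Eventually.of_forall fun s => ?_)
  have hpos : ∀ i, 0 < ‖bfac (a i) z‖ := fun i => by
    rw [norm_pos_iff, Ne, bfac_eq_zero (ha i) hz]
    exact hne i
  have h1 : ∏ i ∈ s, ‖bfac (a i) z‖ = Real.exp (∑ i ∈ s, Real.log ‖bfac (a i) z‖) := by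
    rw [Real.exp_sum]
    exact Finset.prod_congr rfl fun i _ => (Real.exp_log (hpos i)).symm
  show Real.exp (-C) ≤ ∏ i ∈ s, ‖bfac (a i) z‖
  rw [h1]
  apply Real.exp_le_exp.2
  have := h s
  rw [Finset.sum_neg_distrib] at this
  linarith

end lower

/-! ### Herglotz kernels -/

/-- the function `(1 - |a|²) (1 + conj a z) / (1 - conj a z)` -/
noncomputable def kk (a z : ℂ) : ℂ :=
  ((1 - ‖a‖ ^ 2 : ℝ) : ℂ) * ((1 + conj a * z) / (1 - conj a * z))

theorem kk_diff {a : ℂ} (ha : a ∈ disc) : DifferentiableOn ℂ (kk a) disc := by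
  unfold kk
  refine (DifferentiableOn.div (by fun_prop) (by fun_prop) fun z hz => bden_ne ha hz).const_mul _

theorem kk_re {a z : ℂ} (ha : a ∈ disc) (hz : z ∈ disc) :
    (kk a z).re = (1 - ‖a‖ ^ 2) * (1 - ‖a‖ ^ 2 * ‖z‖ ^ 2) / ‖1 - conj a * z‖ ^ 2 := by
  unfold kk
  rw [Complex.re_ofReal_mul, mul_div_assoc]
  congr 1
  have h1 : ‖a‖ ^ 2 * ‖z‖ ^ 2 = Complex.normSq (conj a * z) := by
    rw [Complex.normSq_eq_norm_sq, norm_mul, RCLike.norm_conj]; ring
  rw [h1, ← Complex.normSq_eq_norm_sq, Complex.div_re]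
  have h2 : Complex.normSq (1 - conj a * z) ≠ 0 := by
    rw [Ne, Complex.normSq_eq_zero]; exact bden_ne ha hz
  generalize conj a * z = w at *
  field_simp
  simp only [Complex.normSq_apply, Complex.sub_re, Complex.sub_im, Complex.one_re,
      Complex.one_im, Complex.add_re, Complex.add_im]
  ring

theorem kk_re_ge {a z : ℂ} (ha : a ∈ disc) (hz : z ∈ disc) :
    (1 - ‖a‖ ^ 2) ^ 2 / ‖1 - conj a * z‖ ^ 2 ≤ (kk a z).re := by
  rw [kk_re ha hz]
  rw [mem_disc] at ha hz
  apply div_le_div_of_nonneg_right _ (by positivity)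
  rw [sq]
  apply mul_le_mul_of_nonneg_left _ (by nlinarith [norm_nonneg a])
  have : ‖z‖ ^ 2 ≤ 1 := by nlinarith [norm_nonneg z]
  nlinarith [sq_nonneg ‖a‖]

theorem kk_re_nonneg {a z : ℂ} (ha : a ∈ disc) (hz : z ∈ disc) : 0 ≤ (kk a z).re :=
  le_trans (by positivity) (kk_re_ge ha hz)

theorem kk_re_ge' {a z : ℂ} (ha : a ∈ disc) (hz : z ∈ disc) :
    1 - ‖bfac a z‖ ^ 2 ≤ (kk a z).re := by
  have h1 := one_sub_bfac ha hz
  have hd : 0 < ‖1 - conj a * z‖ := norm_pos_iff.2 (bden_ne ha hz)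
  rw [kk_re ha hz, le_div_iff₀ (by positivity), h1]
  rw [mem_disc] at ha hz
  apply mul_le_mul_of_nonneg_left _ (by nlinarith [norm_nonneg a])
  have : ‖a‖ ^ 2 ≤ 1 := by nlinarith [norm_nonneg a]
  nlinarith [sq_nonneg ‖z‖]

theorem kk_self {a : ℂ} (ha : a ∈ disc) : 1 ≤ (kk a a).re := by
  refine le_trans ?_ (kk_re_ge' ha ha)
  rw [(bfac_eq_zero ha ha).2 rfl]
  simp

theorem kk_norm {a z : ℂ} (ha : a ∈ disc) (hz : z ∈ disc) :
    ‖kk a z‖ ≤ (1 - ‖a‖) * (4 / (1 - ‖z‖)) := by
  unfold kk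
  have hd' := bden_ge' (z := z) ha
  rw [norm_mul, norm_div, Complex.norm_real, Real.norm_eq_abs]
  rw [mem_disc] at ha hz
  rw [abs_of_nonneg (by nlinarith [norm_nonneg a])]
  have h1 : ‖1 + conj a * z‖ ≤ 2 := by
    refine (norm_add_le _ _).trans ?_
    rw [norm_one, norm_mul, RCLike.norm_conj]
    nlinarith [norm_nonneg a, norm_nonneg z]
  have h2 : ‖1 + conj a * z‖ / ‖1 - conj a * z‖ ≤ 2 / (1 - ‖z‖) :=
    div_le_div₀ (by norm_num) h1 (by linarith) hd'
  have h3 : 1 - ‖a‖ ^ 2 ≤ 2 * (1 - ‖a‖) := by nlinarith [norm_nonneg a]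
  calc (1 - ‖a‖ ^ 2) * (‖1 + conj a * z‖ / ‖1 - conj a * z‖)
      ≤ (2 * (1 - ‖a‖)) * (2 / (1 - ‖z‖)) := by
        apply mul_le_mul h3 h2 (by positivity) (by linarith)
    _ = _ := by ring

section hsum

variable {ι : Type} {a : ι → ℂ} {c : ι → ℝ}

/-- Herglotz sum -/
noncomputable def hsum (c : ι → ℝ) (a : ι → ℂ) (z : ℂ) : ℂ := ∑' i, (c i : ℂ) * kk (a i) z

theorem hsum_bound (ha : ∀ i, a i ∈ disc) (hc : ∀ i, 0 ≤ c i) (i : ι) {z : ℂ} (hz : z ∈ disc) :
    ‖(c i : ℂ) * kk (a i) z‖ ≤ c i * (1 - ‖a i‖) * (4 / (1 - ‖z‖)) := by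
  rw [norm_mul, Complex.norm_real, Real.norm_eq_abs, abs_of_nonneg (hc i), mul_assoc]
  exact mul_le_mul_of_nonneg_left (kk_norm (ha i) hz) (hc i)

theorem hsum_summable (ha : ∀ i, a i ∈ disc) (hc : ∀ i, 0 ≤ c i)
    (hs : Summable fun i => c i * (1 - ‖a i‖)) {z : ℂ} (hz : z ∈ disc) :
    Summable fun i => (c i : ℂ) * kk (a i) z :=
  Summable.of_norm_bounded (hs.mul_right (4 / (1 - ‖z‖))) fun i => hsum_bound ha hc i hz

theorem hsum_re (ha : ∀ i, a i ∈ disc) (hc : ∀ i, 0 ≤ c i)
    (hs : Summable fun i => c i * (1 - ‖a i‖)) {z : ℂ} (hz : z ∈ disc) :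
    HasSum (fun i => c i * (kk (a i) z).re) (hsum c a z).re := by
  have h1 := (hsum_summable ha hc hs hz).hasSum
  have h2 := Complex.reCLM.hasSum h1
  have e : (fun i => c i * (kk (a i) z).re) =
      (fun b => Complex.reCLM ((c b : ℂ) * kk (a b) z)) := by
    funext i
    rw [Complex.reCLM_apply, Complex.re_ofReal_mul]
  rw [e]
  exact h2

theorem hsum_ge (ha : ∀ i, a i ∈ disc) (hc : ∀ i, 0 ≤ c i)
    (hs : Summable fun i => c i * (1 - ‖a i‖)) {z : ℂ} (hz : z ∈ disc) (s : Finset ι) :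
    ∑ i ∈ s, c i * (kk (a i) z).re ≤ (hsum c a z).re :=
  sum_le_hasSum s (fun i _ => mul_nonneg (hc i) (kk_re_nonneg (ha i) hz)) (hsum_re ha hc hs hz)

theorem hsum_diff (ha : ∀ i, a i ∈ disc) (hc : ∀ i, 0 ≤ c i)
    (hs : Summable fun i => c i * (1 - ‖a i‖)) : DifferentiableOn ℂ (hsum c a) disc := by
  intro z hz
  obtain ⟨R, hR0, hR1⟩ := exists_between (mem_disc.1 hz)
  have hsub : ball (0 : ℂ) R ⊆ disc := ball_subset_ball hR1.le
  have h1 : DifferentiableOn ℂ (hsum c a) (ball 0 R) := by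
    unfold hsum
    refine Complex.differentiableOn_tsum_of_summable_norm
      (u := fun i => c i * (1 - ‖a i‖) * (4 / (1 - R))) (hs.mul_right _)
      (fun i => ((kk_diff (ha i)).const_mul _).mono hsub) isOpen_ball fun i w hw => ?_
    refine (hsum_bound ha hc i (hsub hw)).trans ?_
    have h2 : 0 ≤ c i * (1 - ‖a i‖) := mul_nonneg (hc i) (by linarith [mem_disc.1 (ha i)])
    apply mul_le_mul_of_nonneg_left _ h2
    rw [mem_ball_zero_iff] at hw
    apply div_le_div_of_nonneg_left (by norm_num) (by linarith) (by linarith)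
  exact (h1.differentiableAt
    (isOpen_ball.mem_nhds (mem_ball_zero_iff.2 hR0))).differentiableWithinAt

theorem hsum_maj (ha : ∀ i, a i ∈ disc) (hc : ∀ i, 0 ≤ c i)
    (hs : Summable fun i => c i * (1 - ‖a i‖)) : Maj (hsum c a) :=
  ⟨hsum_diff ha hc hs, fun z hz => by simpa using hsum_ge ha hc hs hz ∅⟩

end hsum

/-! ### interpolation -/

section interp

variable {ι : Type} {a : ι → ℂ}

/-- Interpolation in the Nevanlinna class, when the Blaschke products `B_j` satisfy
`|B_j(a_j)| ≥ exp (- Re V(a_j))`. -/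
theorem interp (ha : ∀ i, a i ∈ disc) (hinj : Function.Injective a)
    (hs : Summable fun i => 1 - ‖a i‖) {V : ℂ → ℂ} (hV : Maj V)
    (hB : ∀ j, ∀ s : Finset ι, j ∉ s → ∑ i ∈ s, -Real.log ‖bfac (a i) (a j)‖ ≤ (V (a j)).re)
    {W : ℂ → ℂ} (hW : Maj W) (w : ι → ℂ) (hw : ∀ j, ‖w j‖ ≤ Real.exp (W (a j)).re) :
    ∃ g, NV g ∧ ∀ j, g (a j) = w j := by
  classical
  set B : ι → ℂ → ℂ := fun j => bprod (fun i : {i : ι // i ≠ j} => a i.1) with hBdef
  have hss : ∀ j, Summable fun i : {i : ι // i ≠ j} => 1 - ‖a i.1‖ := by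
    intro j
    have hj : Function.Injective (fun i : {i : ι // i ≠ j} => i.1) := Subtype.val_injective
    exact hs.comp_injective hj
  have hBd : ∀ j, DifferentiableOn ℂ (B j) disc := fun j =>
    fam_diff (a := fun i : {i : ι // i ≠ j} => a i.1) (fun i => ha i) (hss j)
  have hBle : ∀ j, ∀ z ∈ disc, ‖B j z‖ ≤ 1 := fun j z hz =>
    fam_le (a := fun i : {i : ι // i ≠ j} => a i.1) (fun i => ha i) (hss j) hz
  have hB0 : ∀ j k, j ≠ k → B j (a k) = 0 := by
    intro j k hjk
    have h1 := fam_le_fin (a := fun i : {i : ι // i ≠ j} => a i.1) (fun i => ha i) (hss j)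
      {(⟨k, hjk.symm⟩ : {i : ι // i ≠ j})} (ha k)
    rw [Finset.prod_singleton, (bfac_eq_zero (ha k) (ha k)).2 rfl, norm_zero] at h1
    exact norm_le_zero_iff.1 h1
  have hBge : ∀ j, Real.exp (-(V (a j)).re) ≤ ‖B j (a j)‖ := by
    intro j
    apply bprod_ge (a := fun i : {i : ι // i ≠ j} => a i.1) (fun i => ha i) (hss j) (ha j)
    · intro i h
      exact i.2 (hinj h).symm
    · intro s
      have h1 := hB j (s.map (Function.Embedding.subtype _)) (by
        intro h
        rw [Finset.mem_map] at h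
        obtain ⟨x, _, hx⟩ := h
        exact x.2 hx)
      rw [Finset.sum_map] at h1
      exact h1
  set U : ℂ → ℂ := fun z => V z + W z with hU
  have hUm : Maj U := hV.add hW
  set cc : ι → ℂ := fun j => w j * Complex.exp (-U (a j)) / B j (a j) with hcc
  have hBpos : ∀ j, 0 < ‖B j (a j)‖ := fun j => lt_of_lt_of_le (Real.exp_pos _) (hBge j)
  have hcc1 : ∀ j, ‖cc j‖ ≤ 1 := by
    intro j
    simp only [hcc]
    rw [norm_div, norm_mul, Complex.norm_exp, div_le_one (hBpos j)]
    refine le_trans ?_ (hBge j)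
    have e : (-U (a j)).re = -(V (a j)).re + -(W (a j)).re := by
      simp only [hU, Complex.neg_re, Complex.add_re]; ring
    rw [e, Real.exp_add]
    have h1 := hw j
    have h2 : ‖w j‖ * Real.exp (-(W (a j)).re) ≤ 1 := by
      calc ‖w j‖ * Real.exp (-(W (a j)).re) ≤ Real.exp (W (a j)).re * Real.exp (-(W (a j)).re) :=
            mul_le_mul_of_nonneg_right h1 (Real.exp_pos _).le
        _ = 1 := by rw [← Real.exp_add]; simp
    nlinarith [Real.exp_pos (-(V (a j)).re)]
  set q : ι → ℂ → ℂ := fun j z => ((1 - ‖a j‖ ^ 2 : ℝ) : ℂ) / (1 - conj (a j) * z) with hq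
  set T : ι → ℂ → ℂ := fun j z => cc j * B j z * (q j z) ^ 2 with hT
  have hqd : ∀ j, DifferentiableOn ℂ (q j) disc := fun j =>
    DifferentiableOn.div (differentiableOn_const _) (by fun_prop) fun z hz => bden_ne (ha j) hz
  have hTd : ∀ j, DifferentiableOn ℂ (T j) disc := by
    intro j
    have h1 : DifferentiableOn ℂ (fun z => cc j * B j z) disc := (hBd j).const_mul (cc j)
    have h2 : DifferentiableOn ℂ (fun z => (q j z) ^ 2) disc := (hqd j).pow 2
    exact h1.mul h2
  have hq2 : ∀ j, ∀ z ∈ disc, ‖q j z‖ ^ 2 ≤ (kk (a j) z).re := by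
    intro j z hz
    refine le_trans (le_of_eq ?_) (kk_re_ge (ha j) hz)
    simp only [hq]
    rw [norm_div, Complex.norm_real, div_pow, Real.norm_eq_abs, sq_abs]
  have hTb : ∀ j, ∀ z ∈ disc, ‖T j z‖ ≤ (kk (a j) z).re := by
    intro j z hz
    simp only [hT]
    rw [norm_mul, norm_mul, norm_pow]
    have h1 := hq2 j z hz
    have h2 : ‖cc j‖ * ‖B j z‖ ≤ 1 :=
      mul_le_one₀ (hcc1 j) (norm_nonneg _) (hBle j z hz)
    nlinarith [sq_nonneg ‖q j z‖, mul_nonneg (norm_nonneg (cc j)) (norm_nonneg (B j z))]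
  have hc1 : ∀ i : ι, (0:ℝ) ≤ (fun _ : ι => (1:ℝ)) i := fun _ => zero_le_one
  have hs1 : Summable fun i => (fun _ : ι => (1:ℝ)) i * (1 - ‖a i‖) := by simpa using hs
  set X : ℂ → ℂ := hsum (fun _ : ι => (1:ℝ)) a with hX
  have hXm : Maj X := hsum_maj ha hc1 hs1
  have hXs : ∀ z ∈ disc, HasSum (fun i => (kk (a i) z).re) (X z).re := by
    intro z hz
    have := hsum_re (c := fun _ : ι => (1:ℝ)) ha hc1 hs1 hz
    simpa using this
  have hTs : ∀ z ∈ disc, Summable fun j => T j z := fun z hz =>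
    Summable.of_norm_bounded (hXs z hz).summable fun j => hTb j z hz
  set S : ℂ → ℂ := fun z => ∑' j, T j z with hS
  have hSb : ∀ z ∈ disc, ‖S z‖ ≤ (X z).re := by
    intro z hz
    exact tsum_of_norm_bounded (hXs z hz) fun j => hTb j z hz
  have hSd : DifferentiableOn ℂ S disc := by
    intro z hz
    obtain ⟨R, hR0, hR1⟩ := exists_between (mem_disc.1 hz)
    have hsub : ball (0 : ℂ) R ⊆ disc := ball_subset_ball hR1.le
    have h1 : DifferentiableOn ℂ S (ball 0 R) := by
      refine Complex.differentiableOn_tsum_of_summable_norm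
        (u := fun i => (1 - ‖a i‖) * (4 / (1 - R))) (hs.mul_right _)
        (fun i => (hTd i).mono hsub) isOpen_ball fun i w hw => ?_
      refine (hTb i w (hsub hw)).trans ?_
      refine ((Complex.abs_re_le_norm _).trans' (le_abs_self _)).trans ?_
      refine (kk_norm (ha i) (hsub hw)).trans ?_
      have h2 : 0 ≤ 1 - ‖a i‖ := by linarith [mem_disc.1 (ha i)]
      apply mul_le_mul_of_nonneg_left _ h2
      rw [mem_ball_zero_iff] at hw
      apply div_le_div_of_nonneg_left (by norm_num) (by linarith) (by linarith)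
    exact (h1.differentiableAt
      (isOpen_ball.mem_nhds (mem_ball_zero_iff.2 hR0))).differentiableWithinAt
  have hSa : ∀ k, S (a k) = cc k * B k (a k) := by
    intro k
    have h1 : S (a k) = T k (a k) := by
      simp only [hS]
      apply tsum_eq_single
      intro j hj
      simp only [hT]
      rw [hB0 j k hj]
      ring
    rw [h1]
    simp only [hT, hq]
    have h2 : ((1 - ‖a k‖ ^ 2 : ℝ) : ℂ) / (1 - conj (a k) * a k) = 1 := by
      have h3 := bden_ne (ha k) (ha k)
      rw [div_eq_one_iff_eq h3, mul_comm, Complex.mul_conj, Complex.normSq_eq_norm_sq]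
      push_cast
      rfl
    rw [h2]
    ring
  refine ⟨fun z => Complex.exp (U z) * S z, ?_, fun k => ?_⟩
  · refine NV.of_maj (hUm.1.cexp.mul hSd) (hUm.add hXm) fun z hz => ?_
    have e2 : (U z + X z).re = (U z).re + (X z).re := Complex.add_re _ _
    rw [norm_mul, Complex.norm_exp, e2, Real.exp_add]
    apply mul_le_mul_of_nonneg_left _ (Real.exp_pos _).le
    refine (hSb z hz).trans ?_
    linarith [Real.add_one_le_exp (X z).re]
  · show Complex.exp (U (a k)) * S (a k) = w k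
    rw [hSa]
    simp only [hcc]
    have h1 : B k (a k) ≠ 0 := norm_pos_iff.1 (hBpos k)
    rw [div_mul_cancel₀ _ h1, mul_comm (w k), ← mul_assoc, ← Complex.exp_add]
    simp

end interp

end Pool.Agent.W775.SR
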