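import Mathlib
import Pool.Agent.W775.SR.Blas

set_option autoImplicit false
set_option linter.unusedVariables false

/-!
# Pseudohyperbolic estimates, zeros of functions of the Nevanlinna class
-/

open MeasureTheory Filter Topology Complex Metric Set
open scoped ComplexConjugate

namespace Pool.Agent.W775.SR

open Pool.Agent.Helper34.Dg (bfac disc mem_disc bfac_sub_one bfac_diff bfac_le bfac_eq_zero
  one_sub_bfac bden_ne bden_ge bden_ge' bden_le)
open Real (posLog)

theorem norm_bfac (a z : ℂ) : ‖bfac a z‖ = ‖z - a‖ / ‖1 - conj a * z‖ := by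
  unfold bfac
  split_ifs with h
  · subst h; simp
  · rw [norm_mul, norm_div, norm_div, Complex.norm_real, norm_norm,
      div_self (norm_ne_zero_iff.2 h), one_mul, norm_sub_rev]

theorem rho_log {a b : ℂ} (ha : a ∈ disc) (hb : b ∈ disc) (hab : a ≠ b) :
    -Real.log ‖bfac a b‖ ≤ Real.posLog ((1 - ‖b‖) / 2 / ‖b - a‖) +
      25 / 2 * (1 - ‖bfac a b‖ ^ 2) := by
  have hb1 : ‖b‖ < 1 := mem_disc.1 hb
  have ha1 : ‖a‖ < 1 := mem_disc.1 ha
  set R : ℝ := (1 - ‖b‖) / 2 with hR
  have hR0 : 0 < R := by rw [hR]; linarith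
  set d : ℝ := ‖b - a‖ with hd
  have hd0 : 0 < d := norm_pos_iff.2 (sub_ne_zero.2 (Ne.symm hab))
  set N : ℝ := ‖1 - conj a * b‖ with hN
  have hN0 : 0 < N := norm_pos_iff.2 (bden_ne ha hb)
  have hbf : ‖bfac a b‖ = d / N := norm_bfac a b
  have hbf0 : 0 < ‖bfac a b‖ := by rw [hbf]; positivity
  have hbf1 : ‖bfac a b‖ ≤ 1 := bfac_le ha hb
  set e : ℝ := max R d with he
  have he0 : 0 < e := lt_max_of_lt_left hR0
  have hed : d ≤ e := le_max_right _ _
  have heR : R ≤ e := le_max_left _ _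
  have hN5 : N ≤ 5 * e := by
    have h1 : (1 : ℂ) - conj a * b = ((1 - ‖b‖ ^ 2 : ℝ) : ℂ) + conj (b - a) * b := by
      have : conj b * b = ((‖b‖ ^ 2 : ℝ) : ℂ) := by
        rw [mul_comm, Complex.mul_conj, Complex.normSq_eq_norm_sq]
      rw [map_sub, sub_mul, this]
      push_cast
      ring
    have h2 : N ≤ (1 - ‖b‖ ^ 2) + d * ‖b‖ := by
      rw [hN, h1]
      refine (norm_add_le _ _).trans ?_
      rw [norm_mul, RCLike.norm_conj, Complex.norm_real, Real.norm_eq_abs,
        abs_of_nonneg (by nlinarith [norm_nonneg b])]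
    have h3 : 1 - ‖b‖ ^ 2 ≤ 4 * R := by rw [hR]; nlinarith [norm_nonneg b]
    nlinarith [norm_nonneg b]
  have hpl : Real.posLog (R / d) = Real.log (e / d) := by
    rw [Real.posLog_eq_log_max_one (by positivity)]
    congr 1
    rw [he, max_div_div_right hd0.le R d |>.symm, div_self hd0.ne', max_comm]
  have h1 : -Real.log ‖bfac a b‖ = Real.log (e / d) + Real.log (N / e) := by
    rw [hbf, Real.log_div hd0.ne' hN0.ne', Real.log_div he0.ne' hd0.ne',
      Real.log_div hN0.ne' he0.ne']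
    ring
  rw [h1, hpl]
  have hx0 : 0 < N / e := by positivity
  have h2 : Real.log (N / e) ≤ ((N / e) ^ 2 - 1) / 2 := by
    have := Real.log_le_sub_one_of_pos (x := (N / e) ^ 2) (by positivity)
    rw [Real.log_pow] at this
    push_cast at this
    linarith
  have h3 : ((N / e) ^ 2 - 1) / 2 ≤ 25 / 2 * (1 - ‖bfac a b‖ ^ 2) := by
    have h4 : (N / e) ^ 2 ≤ 25 := by
      have h5 : N / e ≤ 5 := by rw [div_le_iff₀ he0]; exact hN5
      nlinarith
    have h6 : (N / e) ^ 2 - 1 ≤ (N / e) ^ 2 * (1 - ‖bfac a b‖ ^ 2) := by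
      have h7 : (N / e) ^ 2 * ‖bfac a b‖ ^ 2 ≤ 1 := by
        rw [hbf, ← mul_pow]
        have h8 : N / e * (d / N) = d / e := by field_simp
        rw [h8]
        have h9 : d / e ≤ 1 := (div_le_one he0).2 hed
        have h10 : 0 ≤ d / e := by positivity
        nlinarith
      linarith
    have h11 : 0 ≤ 1 - ‖bfac a b‖ ^ 2 := by nlinarith
    nlinarith
  linarith

/-- the zeros of a function of the Nevanlinna class satisfy the Blaschke condition -/
theorem zeros_summable {F : ℂ → ℂ} (hF : NV F) (hF0 : F 0 ≠ 0) :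
    Summable fun z : {z : ℂ // z ∈ ball (0 : ℂ) 1 ∧ F z = 0} => 1 - ‖(z : ℂ)‖ := by
  obtain ⟨M, hM⟩ := hF.2
  have key : ∀ s : Finset ℂ, (∀ x ∈ s, x ∈ ball (0 : ℂ) 1 ∧ F x = 0) →
      ∑ x ∈ s, (1 - ‖x‖) ≤ M - Real.log ‖F 0‖ := by
    intro s hs
    have hx0 : ∀ x ∈ s, 0 < ‖x‖ := by
      intro x hx
      rw [norm_pos_iff]
      rintro rfl
      exact hF0 (hs 0 hx).2
    have h1 : ∀ᶠ r : ℝ in 𝓝[<] 1, ∑ x ∈ s, Real.log (r / ‖x‖) ≤ M - Real.log ‖F 0‖ := by
      have h2 : ∀ᶠ r : ℝ in 𝓝[<] 1, ∀ x ∈ s, ‖x‖ < r := by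
        rw [Filter.eventually_all_finset]
        intro x hx
        have : ‖x‖ < 1 := by simpa using (hs x hx).1
        exact nhdsWithin_le_nhds (lt_mem_nhds this)
      have h3 : ∀ᶠ r : ℝ in 𝓝[<] 1, 0 < r := nhdsWithin_le_nhds (lt_mem_nhds one_pos)
      filter_upwards [h2, h3, self_mem_nhdsWithin] with r hr hr0 hr1
      have hr1' : r < 1 := hr1
      have hsub : closedBall (0 : ℂ) r ⊆ ball 0 1 := closedBall_subset_ball hr1'
      have han : AnalyticOnNhd ℂ F (closedBall 0 r) := (hF.1.analyticOnNhd isOpen_ball).mono hsub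
      have h4 := jensen_le hr0 han hF0 s (fun x hx => ⟨by
        rw [mem_closedBall_zero_iff]; exact (hr x hx).le, (hs x hx).2⟩)
      simp only [zero_sub, norm_neg] at h4
      have h5 : Real.circleAverage (fun z => Real.log ‖F z‖) 0 r ≤
          Real.circleAverage (fun z => Real.posLog ‖F z‖) 0 r := by
        apply Real.circleAverage_mono (ci_log hr0 han)
        · apply ci_of_contOn (Real.continuous_posLog.comp_continuousOn hF.1.continuousOn.norm)
          rw [abs_of_pos hr0]; exact hsub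
        · intro x _
          rw [Real.posLog_apply]
          exact le_max_right _ _
      linarith [hM r ⟨hr0, hr1'⟩]
    have h2 : Tendsto (fun r : ℝ => ∑ x ∈ s, Real.log (r / ‖x‖)) (𝓝[<] 1)
        (𝓝 (∑ x ∈ s, Real.log (1 / ‖x‖))) := by
      apply tendsto_finsetSum
      intro x hx
      have h3 : ContinuousAt (fun r : ℝ => Real.log (r / ‖x‖)) 1 := by
        apply ContinuousAt.log (by fun_prop)
        have := hx0 x hx
        positivity
      exact h3.tendsto.mono_left nhdsWithin_le_nhds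
    have h3 := le_of_tendsto h2 h1
    refine le_trans (Finset.sum_le_sum fun x hx => ?_) h3
    rw [one_div, Real.log_inv]
    linarith [Real.log_le_sub_one_of_pos (hx0 x hx)]
  apply summable_of_sum_le (c := M - Real.log ‖F 0‖)
  · intro z
    have : ‖(z : ℂ)‖ < 1 := by simpa using z.2.1
    show (0:ℝ) ≤ 1 - ‖(z : ℂ)‖
    linarith
  · intro s
    have h1 := key (s.map (Function.Embedding.subtype _)) (by
      intro x hx
      rw [Finset.mem_map] at hx
      obtain ⟨y, _, rfl⟩ := hx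
      exact y.2)
    rw [Finset.sum_map] at h1
    exact h1

end Pool.Agent.W775.SR
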