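import Mathlib

set_option autoImplicit false
set_option linter.unusedVariables false

/-!
# The area formula for holomorphic functions
-/

namespace Pool.Agent.W775.SR

open Metric Set Filter Topology MeasureTheory
open scoped ENNReal

theorem exists_inj_nhd {q : ℂ → ℂ} {U : Set ℂ} (hU : IsOpen U) (hq : DifferentiableOn ℂ q U)
    {z : ℂ} (hz : z ∈ U) (h0 : deriv q z ≠ 0) : ∃ V : Set ℂ, IsOpen V ∧ z ∈ V ∧ InjOn q V := by
  have han : AnalyticAt ℂ q z := hq.analyticAt (hU.mem_nhds hz)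
  have h1 := han.hasStrictDerivAt
  have h2 := h1.hasStrictFDerivAt_equiv h0
  refine ⟨(h2.toOpenPartialHomeomorph q).source, (h2.toOpenPartialHomeomorph q).open_source,
    h2.mem_toOpenPartialHomeomorph_source, ?_⟩
  exact (h2.toOpenPartialHomeomorph q).injOn

theorem det_mul (a : ℂ) :
    ((ContinuousLinearMap.toSpanSingleton ℂ a).restrictScalars ℝ : ℂ →L[ℝ] ℂ).det = ‖a‖ ^ 2 := by
  have h1 : ((ContinuousLinearMap.toSpanSingleton ℂ a).restrictScalars ℝ : ℂ →L[ℝ] ℂ).det =
      LinearMap.det (((ContinuousLinearMap.toSpanSingleton ℂ a : ℂ →L[ℂ] ℂ) : ℂ →ₗ[ℂ] ℂ).restrictScalars ℝ) :=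
    rfl
  rw [h1, LinearMap.det_restrictScalars, Algebra.norm_complex_apply, Complex.normSq_eq_norm_sq]
  congr 1
  congr 1
  rw [LinearMap.det_ring]
  simp

/-- area formula on a set where `q` is injective -/
theorem area_inj {q : ℂ → ℂ} {U : Set ℂ} (hU : IsOpen U) (hq : DifferentiableOn ℂ q U)
    {E : Set ℂ} (hE : MeasurableSet E) (hEU : E ⊆ U) (hinj : InjOn q E) (g : ℂ → ℝ≥0∞) :
    ∫⁻ c in q '' E, g c = ∫⁻ z in E, ENNReal.ofReal (‖deriv q z‖ ^ 2) * g (q z) := by
  have hd : ∀ z ∈ E, HasFDerivWithinAt q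
      ((ContinuousLinearMap.toSpanSingleton ℂ (deriv q z)).restrictScalars ℝ : ℂ →L[ℝ] ℂ) E z := by
    intro z hz
    have h1 : HasDerivAt q (deriv q z) z :=
      (hq.differentiableAt (hU.mem_nhds (hEU hz))).hasDerivAt
    exact (h1.hasFDerivAt.restrictScalars ℝ).hasFDerivWithinAt
  rw [lintegral_image_eq_lintegral_abs_det_fderiv_mul volume hE hd hinj g]
  apply setLIntegral_congr_fun hE
  intro z hz
  simp only [det_mul]
  rw [abs_of_nonneg (by positivity)]

theorem area_ae {U : Set ℂ} (hU : IsOpen U) {q : ℂ → ℂ} (hq : DifferentiableOn ℂ q U)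
    {Φ : ℂ → ℝ≥0∞} (hΦ : Measurable Φ) {B : Set ℂ} (hB : MeasurableSet B)
    (hfin : ∫⁻ z in U, (q ⁻¹' B).indicator
      (fun z => ENNReal.ofReal (‖deriv q z‖ ^ 2) * Φ z) z < ∞) :
    ∀ᵐ c, c ∈ B → ∑' z : {z // z ∈ U ∧ deriv q z ≠ 0 ∧ q z = c}, Φ z < ∞ := by
  classical
  set U' : Set ℂ := {z | z ∈ U ∧ deriv q z ≠ 0} with hU'
  have hU'o : IsOpen U' := by
    have h1 : ContinuousOn (deriv q) U := (hq.deriv hU).continuousOn
    have : U' = U ∩ (deriv q) ⁻¹' {0}ᶜ := by
      ext z; simp [hU']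
    rw [this]
    exact h1.isOpen_inter_preimage hU isOpen_compl_singleton
  have hcov : ∀ z, ∃ V : Set ℂ, z ∈ U' → (IsOpen V ∧ z ∈ V ∧ InjOn q V) := by
    intro z
    by_cases hz : z ∈ U'
    · obtain ⟨V, h1, h2, h3⟩ := exists_inj_nhd hU hq hz.1 hz.2
      exact ⟨V, fun _ => ⟨h1, h2, h3⟩⟩
    · exact ⟨∅, fun h => absurd h hz⟩
  choose V hV using hcov
  obtain ⟨t, htU, htc, ht⟩ := TopologicalSpace.countable_cover_nhdsWithin (s := U') (f := V)
    (fun z hz => mem_nhdsWithin_of_mem_nhds ((hV z hz).1.mem_nhds (hV z hz).2.1))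
  -- enumerate
  obtain ⟨W, hWo, hWi, hWc⟩ : ∃ W : ℕ → Set ℂ, (∀ n, IsOpen (W n)) ∧ (∀ n, InjOn q (W n)) ∧
      U' ⊆ ⋃ n, W n := by
    rcases t.eq_empty_or_nonempty with h | h
    · rw [h] at ht
      simp only [mem_empty_iff_false, iUnion_of_empty, iUnion_empty] at ht
      exact ⟨fun _ => ∅, fun _ => isOpen_empty, fun _ => injOn_empty _,
        fun z hz => absurd (ht hz) (notMem_empty z)⟩
    · obtain ⟨f, hf⟩ := htc.exists_eq_range h
      have hft : ∀ n, f n ∈ U' := fun n => htU (by rw [hf]; exact mem_range_self n)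
      refine ⟨fun n => V (f n), fun n => (hV _ (hft n)).1, fun n => (hV _ (hft n)).2.2, ?_⟩
      intro z hz
      obtain ⟨x, hx, hzx⟩ := mem_iUnion₂.1 (ht hz)
      rw [hf] at hx
      obtain ⟨n, rfl⟩ := hx
      exact mem_iUnion.2 ⟨n, hzx⟩
  set E : ℕ → Set ℂ := disjointed fun n => W n ∩ U' with hE
  have hEm : ∀ n, MeasurableSet (E n) :=
    MeasurableSet.disjointed fun n => ((hWo n).inter hU'o).measurableSet
  have hEsub : ∀ n, E n ⊆ W n ∩ U' := fun n => disjointed_subset _ n
  have hEinj : ∀ n, InjOn q (E n) := fun n => (hWi n).mono ((hEsub n).trans inter_subset_left)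
  have hEU : ∀ n, E n ⊆ U := fun n z hz => (hEsub n hz).2.1
  have hEd : Pairwise (Function.onFun Disjoint E) := disjoint_disjointed _
  have hEun : ⋃ n, E n = U' := by
    rw [hE, iUnion_disjointed]
    apply Subset.antisymm
    · exact iUnion_subset fun n => inter_subset_right
    · intro z hz
      obtain ⟨n, hn⟩ := mem_iUnion.1 (hWc hz)
      exact mem_iUnion.2 ⟨n, hn, hz⟩
  have hemb : ∀ n, MeasurableEmbedding ((E n).domRestrict q) := by
    intro n
    have hd : ∀ z ∈ E n, HasFDerivWithinAt q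
        ((ContinuousLinearMap.toSpanSingleton ℂ (deriv q z)).restrictScalars ℝ : ℂ →L[ℝ] ℂ)
        (E n) z := by
      intro z hz
      have h1 : HasDerivAt q (deriv q z) z :=
        (hq.differentiableAt (hU.mem_nhds (hEU n hz))).hasDerivAt
      exact (h1.hasFDerivAt.restrictScalars ℝ).hasFDerivWithinAt
    exact measurableEmbedding_of_fderivWithin (hEm n) hd (hEinj n)
  set g : ℕ → ℂ → ℝ≥0∞ := fun n =>
    Function.extend ((E n).domRestrict q) (fun z => Φ z) 0 with hg
  have hgm : ∀ n, Measurable (g n) := fun n =>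
    (hemb n).measurable_extend (hΦ.comp measurable_subtype_coe) measurable_zero
  have hgv : ∀ n, ∀ z ∈ E n, g n (q z) = Φ z := by
    intro n z hz
    have := (hemb n).injective.extend_apply (fun z => Φ z) 0 ⟨z, hz⟩
    exact this
  have hgz : ∀ n, ∀ c, c ∉ q '' (E n) → g n c = 0 := by
    intro n c hc
    simp only [hg]
    rw [Function.extend_apply']
    · rfl
    · rintro ⟨⟨z, hz⟩, rfl⟩
      exact hc ⟨z, hz, rfl⟩
  -- total
  have hTm : Measurable fun c => ∑' n, g n c := Measurable.tsum hgm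
  have hint : ∫⁻ c in B, ∑' n, g n c < ∞ := by
    rw [lintegral_tsum fun n => (hgm n).aemeasurable]
    have h1 : ∀ n, ∫⁻ c in B, g n c =
        ∫⁻ z in E n, (q ⁻¹' B).indicator (fun z => ENNReal.ofReal (‖deriv q z‖ ^ 2) * Φ z) z := by
      intro n
      have h2 : ∫⁻ c in B, g n c = ∫⁻ c in q '' (E n), B.indicator (g n) c := by
        have hm : MeasurableSet (q '' (E n)) := by
          have := (hemb n).measurableSet_range
          rwa [Set.range_domRestrict] at this
        rw [← lintegral_indicator hB, ← lintegral_indicator hm]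
        congr 1
        funext c
        by_cases hc : c ∈ q '' (E n)
        · rw [indicator_of_mem hc]
        · rw [indicator_of_notMem hc]
          by_cases hcB : c ∈ B
          · rw [indicator_of_mem hcB, hgz n c hc]
          · rw [indicator_of_notMem hcB]
      rw [h2, area_inj hU hq (hEm n) (hEU n) (hEinj n)]
      apply setLIntegral_congr_fun (hEm n)
      intro z hz
      by_cases hzB : q z ∈ B
      · simp only [indicator_of_mem hzB, indicator_of_mem (show z ∈ q ⁻¹' B from hzB), hgv n z hz]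
      · simp only [indicator_of_notMem hzB,
          indicator_of_notMem (show z ∉ q ⁻¹' B from hzB), mul_zero]
    simp only [h1]
    rw [← lintegral_iUnion hEm hEd, hEun]
    exact lt_of_le_of_lt (lintegral_mono_set fun z hz => hz.1) hfin
  have hae : ∀ᵐ c ∂(volume.restrict B), ∑' n, g n c < ∞ :=
    ae_lt_top hTm hint.ne
  rw [ae_restrict_iff' hB] at hae
  filter_upwards [hae] with c hc hcB
  refine lt_of_le_of_lt ?_ (hc hcB)
  have hn : ∀ z : {z // z ∈ U ∧ deriv q z ≠ 0 ∧ q z = c}, ∃ n, (z : ℂ) ∈ E n := by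
    intro z
    have : (z : ℂ) ∈ ⋃ n, E n := by
      rw [hEun]
      exact ⟨z.2.1, z.2.2.1⟩
    exact mem_iUnion.1 this
  choose N hN using hn
  have hNinj : Function.Injective N := by
    intro z w hzw
    have h1 := hN z
    have h2 := hN w
    rw [← hzw] at h2
    exact Subtype.ext (hEinj (N z) h1 h2 (by rw [z.2.2.2, w.2.2.2]))
  calc ∑' z : {z // z ∈ U ∧ deriv q z ≠ 0 ∧ q z = c}, Φ z
      = ∑' z : {z // z ∈ U ∧ deriv q z ≠ 0 ∧ q z = c}, (fun n => g n c) (N z) := by
        congr 1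
        funext z
        show Φ z = g (N z) c
        have := hgv (N z) z (hN z)
        rw [z.2.2.2] at this
        exact this.symm
    _ ≤ ∑' n, g n c := ENNReal.tsum_comp_le_tsum_of_injective hNinj _

end Pool.Agent.W775.SR
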