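import Mathlib
import Pool.Agent.W775.SR.Circ
import Pool.Agent.W775.SR.Area

set_option autoImplicit false
set_option linter.unusedVariables false

/-!
# Choice of the coefficients
-/

namespace Pool.Agent.W775.SR

open Metric Set Filter Topology MeasureTheory
open scoped ENNReal

theorem meas_pw {β : Type} [TopologicalSpace β] [MeasurableSpace β] [BorelSpace β]
    {g : ℂ → β} (b : β) (hg : ContinuousOn g (ball 0 1)) :
    ∃ g' : ℂ → β, Measurable g' ∧ ∀ z ∈ ball (0 : ℂ) 1, g' z = g z := by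
  classical
  refine ⟨(ball (0 : ℂ) 1).piecewise g (fun _ => b),
    ContinuousOn.measurable_piecewise hg continuousOn_const measurableSet_ball, fun z hz => ?_⟩
  rw [piecewise_eq_of_mem _ _ _ hz]

theorem exists_of_ae {P : ℂ → Prop} (h : ∀ᵐ c : ℂ, c ∈ closedBall (0 : ℂ) 1 → P c) :
    ∃ c ∈ closedBall (0 : ℂ) 1, P c := by
  by_contra hcon
  push Not at hcon
  have h1 : volume (closedBall (0 : ℂ) 1) = 0 := by
    refine measure_mono_null ?_ (ae_iff.1 h)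
    intro c hc hP
    exact hcon c hc (hP hc)
  have h2 : 0 < volume (closedBall (0 : ℂ) 1) := measure_closedBall_pos _ _ one_pos
  exact h2.ne' h1

theorem ae_notMem_countable {S : Set ℂ} (hS : S.Countable) : ∀ᵐ c : ℂ, c ∉ S :=
  hS.ae_notMem volume

/-- the measure estimate -/
theorem vol_bound (a b d : ℂ) (hb : b ≠ 0) :
    ENNReal.ofReal ((‖a‖ ^ 2 + ‖b‖ ^ 2 + ‖d‖ ^ 2) / ‖b‖ ^ 2) *
      volume (closedBall (0 : ℂ) 1 ∩ {c | ‖a + c * d‖ ≤ ‖b‖}) ≤ ENNReal.ofReal (6 * Real.pi) := by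
  have hb0 : 0 < ‖b‖ := norm_pos_iff.2 hb
  rcases (closedBall (0 : ℂ) 1 ∩ {c | ‖a + c * d‖ ≤ ‖b‖}).eq_empty_or_nonempty with h | ⟨c, hc1, hc2⟩
  · rw [h]; simp
  have hc1' : ‖c‖ ≤ 1 := by simpa using hc1
  have hc2' : ‖a + c * d‖ ≤ ‖b‖ := hc2
  have ha : ‖a‖ ≤ ‖b‖ + ‖d‖ := by
    calc ‖a‖ = ‖(a + c * d) - c * d‖ := by congr 1; ring
      _ ≤ ‖a + c * d‖ + ‖c * d‖ := norm_sub_le _ _
      _ ≤ ‖b‖ + ‖d‖ := by
        rw [norm_mul]
        nlinarith [norm_nonneg d]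
  have hN : ‖a‖ ^ 2 + ‖b‖ ^ 2 + ‖d‖ ^ 2 ≤ 3 * (‖b‖ ^ 2 + ‖d‖ ^ 2) := by
    nlinarith [norm_nonneg a, norm_nonneg b, norm_nonneg d, sq_nonneg (‖b‖ - ‖d‖)]
  have hpi : (NNReal.pi : ℝ≥0∞) = ENNReal.ofReal Real.pi := by
    rw [ENNReal.ofReal, ← NNReal.coe_real_pi, Real.toNNReal_coe]
  rcases le_or_gt ‖d‖ ‖b‖ with hdb | hdb
  · have h1 : (‖a‖ ^ 2 + ‖b‖ ^ 2 + ‖d‖ ^ 2) / ‖b‖ ^ 2 ≤ 6 := by
      rw [div_le_iff₀ (by positivity)]
      nlinarith [norm_nonneg d]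
    have h2 : volume (closedBall (0 : ℂ) 1 ∩ {c | ‖a + c * d‖ ≤ ‖b‖}) ≤
        ENNReal.ofReal Real.pi := by
      refine (measure_mono inter_subset_left).trans (le_of_eq ?_)
      rw [Complex.volume_closedBall, hpi]
      simp
    calc _ ≤ ENNReal.ofReal 6 * ENNReal.ofReal Real.pi :=
          mul_le_mul' (ENNReal.ofReal_le_ofReal h1) h2
      _ = _ := (ENNReal.ofReal_mul (by norm_num)).symm
  · have hd0 : 0 < ‖d‖ := hb0.trans hdb
    have hd : d ≠ 0 := norm_pos_iff.1 hd0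
    have h1 : (‖a‖ ^ 2 + ‖b‖ ^ 2 + ‖d‖ ^ 2) / ‖b‖ ^ 2 ≤ 6 * (‖d‖ / ‖b‖) ^ 2 := by
      rw [div_pow, ← mul_div_assoc]
      apply div_le_div_of_nonneg_right _ (by positivity)
      nlinarith [norm_nonneg b]
    have h2 : volume (closedBall (0 : ℂ) 1 ∩ {c | ‖a + c * d‖ ≤ ‖b‖}) ≤
        ENNReal.ofReal (Real.pi * (‖b‖ / ‖d‖) ^ 2) := by
      have h3 : closedBall (0 : ℂ) 1 ∩ {c | ‖a + c * d‖ ≤ ‖b‖} ⊆
          closedBall (-a / d) (‖b‖ / ‖d‖) := by
        rintro c ⟨_, hc⟩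
        have hc' : ‖a + c * d‖ ≤ ‖b‖ := hc
        rw [mem_closedBall, dist_eq_norm, le_div_iff₀ hd0, ← norm_mul]
        have e : (c - -a / d) * d = a + c * d := by field_simp; ring
        rw [e]
        exact hc'
      refine (measure_mono h3).trans (le_of_eq ?_)
      rw [Complex.volume_closedBall, hpi, ENNReal.ofReal_mul Real.pi_pos.le,
        ENNReal.ofReal_pow (by positivity), mul_comm]
    calc _ ≤ ENNReal.ofReal (6 * (‖d‖ / ‖b‖) ^ 2) * ENNReal.ofReal (Real.pi * (‖b‖ / ‖d‖) ^ 2) :=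
          mul_le_mul' (ENNReal.ofReal_le_ofReal h1) h2
      _ = _ := by
        rw [← ENNReal.ofReal_mul (by positivity)]
        congr 1
        field_simp

theorem select {f₁ f₂ f₃ : ℂ → ℂ} (h₁ : DifferentiableOn ℂ f₁ (ball 0 1))
    (h₂ : DifferentiableOn ℂ f₂ (ball 0 1)) (h₃ : DifferentiableOn ℂ f₃ (ball 0 1))
    (hpos : ∀ z ∈ ball (0 : ℂ) 1, 0 < ‖f₁ z‖ ^ 2 + ‖f₂ z‖ ^ 2 + ‖f₃ z‖ ^ 2)
    (hf₂ : ∃ z ∈ ball (0 : ℂ) 1, f₂ z ≠ 0)
    (hW : ∃ z ∈ ball (0 : ℂ) 1, f₂ z * deriv f₁ z - deriv f₂ z * f₁ z ≠ 0 ∨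
      f₂ z * deriv f₃ z - deriv f₂ z * f₃ z ≠ 0)
    {G : ℂ → ℝ} (hGc : ContinuousOn G (ball 0 1)) (hG0 : ∀ z ∈ ball (0 : ℂ) 1, 0 ≤ G z)
    (hG : ∫⁻ z in ball (0 : ℂ) 1, ENNReal.ofReal (G z / (1 - ‖z‖)) < ∞) :
    ∃ c ∈ closedBall (0 : ℂ) 1, ∃ c' ∈ closedBall (0 : ℂ) 1,
      (f₁ 0 + c * f₂ 0 + c' * f₃ 0 ≠ 0) ∧
      (∀ z ∈ ball (0 : ℂ) 1, f₁ z + c * f₂ z + c' * f₃ z = 0 →
        deriv (fun z => f₁ z + c * f₂ z + c' * f₃ z) z ≠ 0) ∧
      ∑' z : {z : ℂ // z ∈ ball (0 : ℂ) 1 ∧ f₁ z + c * f₂ z + c' * f₃ z = 0},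
        ENNReal.ofReal (G z * (‖f₁ z‖ ^ 2 + ‖f₂ z‖ ^ 2 + ‖f₃ z‖ ^ 2) /
          ((1 - ‖(z : ℂ)‖) * ‖deriv (fun z => f₁ z + c * f₂ z + c' * f₃ z) z‖ ^ 2)) < ∞ := by
  classical
  set D : Set ℂ := ball (0 : ℂ) 1 with hD
  obtain ⟨g₁, hg₁, hg₁'⟩ := meas_pw (0 : ℂ) h₁.continuousOn
  obtain ⟨g₂, hg₂, hg₂'⟩ := meas_pw (0 : ℂ) h₂.continuousOn
  obtain ⟨g₃, hg₃, hg₃'⟩ := meas_pw (0 : ℂ) h₃.continuousOn
  obtain ⟨g, hg, hg'⟩ := meas_pw (0 : ℝ) hGc
  -- the density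
  set Ψ : ℂ → ℝ≥0∞ := fun z => ENNReal.ofReal (g z / (1 - ‖z‖)) *
    ENNReal.ofReal ((‖g₁ z‖ ^ 2 + ‖g₂ z‖ ^ 2 + ‖g₃ z‖ ^ 2) / ‖g₂ z‖ ^ 2) with hΨ
  have hΨm : Measurable Ψ := by
    simp only [hΨ]
    fun_prop
  set S : Set (ℂ × ℂ) := {p | p.2 ∈ D ∧ g₂ p.2 ≠ 0 ∧ ‖g₁ p.2 + p.1 * g₃ p.2‖ ≤ ‖g₂ p.2‖} with hS
  have hSm : MeasurableSet S := by
    have e : S = (Prod.snd ⁻¹' D) ∩ ((fun p : ℂ × ℂ => g₂ p.2) ⁻¹' {0}ᶜ ∩
      {p : ℂ × ℂ | ‖g₁ p.2 + p.1 * g₃ p.2‖ ≤ ‖g₂ p.2‖}) := by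
      ext p; simp [hS]
    rw [e]
    refine (measurable_snd measurableSet_ball).inter (MeasurableSet.inter ?_ ?_)
    · exact (hg₂.comp measurable_snd) (measurableSet_singleton 0).compl
    · exact measurableSet_le (by fun_prop) (by fun_prop)
  set k : ℂ × ℂ → ℝ≥0∞ := S.indicator (fun p => Ψ p.2) with hk
  have hkm : Measurable k := (hΨm.comp measurable_snd).indicator hSm
  set B : Set ℂ := closedBall (0 : ℂ) 1 with hB
  have hJ : ∫⁻ c in B, ∫⁻ z, k (c, z) < ∞ := by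
    rw [lintegral_lintegral_swap (μ := volume.restrict B) (ν := volume)
      (f := fun c z => k (c, z)) hkm.aemeasurable]
    have h1 : ∀ z, ∫⁻ c in B, k (c, z) ≤
        D.indicator (fun z => ENNReal.ofReal (6 * Real.pi) * ENNReal.ofReal (G z / (1 - ‖z‖))) z := by
      intro z
      by_cases hz : z ∈ D
      · rw [indicator_of_mem hz]
        by_cases h0 : g₂ z = 0
        · have : ∀ c, k (c, z) = 0 := by
            intro c
            simp only [hk]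
            rw [indicator_of_notMem]
            rintro ⟨_, h, _⟩
            exact h h0
          simp [this]
        · have e1 : ∀ c, k (c, z) = Ψ z * ({c : ℂ | ‖g₁ z + c * g₃ z‖ ≤ ‖g₂ z‖}.indicator 1 c) := by
            intro c
            simp only [hk]
            by_cases hc : ‖g₁ z + c * g₃ z‖ ≤ ‖g₂ z‖
            · rw [indicator_of_mem (show (c, z) ∈ S from ⟨hz, h0, hc⟩),
                indicator_of_mem (show c ∈ {c : ℂ | ‖g₁ z + c * g₃ z‖ ≤ ‖g₂ z‖} from hc)]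
              simp
            · rw [indicator_of_notMem (show (c, z) ∉ S from fun h => hc h.2.2),
                indicator_of_notMem (show c ∉ {c : ℂ | ‖g₁ z + c * g₃ z‖ ≤ ‖g₂ z‖} from hc)]
              simp
          have hms : MeasurableSet {c : ℂ | ‖g₁ z + c * g₃ z‖ ≤ ‖g₂ z‖} :=
            measurableSet_le (by fun_prop) (by fun_prop)
          simp only [e1]
          rw [lintegral_const_mul _ (measurable_one.indicator hms), lintegral_indicator_one hms,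
            Measure.restrict_apply hms, inter_comm]
          have h2 := vol_bound (g₁ z) (g₂ z) (g₃ z) h0
          rw [← hB] at h2
          simp only [hΨ]
          rw [mul_assoc]
          calc _ ≤ ENNReal.ofReal (g z / (1 - ‖z‖)) * ENNReal.ofReal (6 * Real.pi) :=
                mul_le_mul' le_rfl h2
            _ = _ := by rw [hg' z hz, mul_comm]
      · rw [indicator_of_notMem hz]
        have : ∀ c, k (c, z) = 0 := by
          intro c
          simp only [hk]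
          rw [indicator_of_notMem]
          rintro ⟨h, _⟩
          exact hz h
        simp [this]
    refine lt_of_le_of_lt (lintegral_mono h1) ?_
    rw [lintegral_indicator measurableSet_ball, lintegral_const_mul' _ _ ENNReal.ofReal_ne_top]
    exact ENNReal.mul_lt_top ENNReal.ofReal_lt_top hG
  have hae : ∀ᵐ c : ℂ, c ∈ B → ∫⁻ z, k (c, z) < ∞ := by
    have h1 := ae_lt_top (Measurable.lintegral_prod_right' hkm) hJ.ne
    rwa [ae_restrict_iff' measurableSet_closedBall] at h1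
  -- choice of c'
  obtain ⟨z₀, hz₀, hW₀⟩ := hW
  have hc1 : ({z | f₂ z = 0} ∩ D).Countable := zeros_countable h₂ hf₂
  obtain ⟨c', hc'B, hc'1, hc'2, hc'3⟩ : ∃ c' ∈ B, (∫⁻ z, k (c', z) < ∞) ∧
      (c' ∉ (fun z => -f₁ z / f₃ z) '' ({z | f₂ z = 0} ∩ D)) ∧
      (c' ∉ ({-(f₂ z₀ * deriv f₁ z₀ - deriv f₂ z₀ * f₁ z₀) /
        (f₂ z₀ * deriv f₃ z₀ - deriv f₂ z₀ * f₃ z₀)} : Set ℂ)) := by
    apply exists_of_ae
    filter_upwards [hae, ae_notMem_countable (hc1.image (fun z => -f₁ z / f₃ z)),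
      ae_notMem_countable (countable_singleton (-(f₂ z₀ * deriv f₁ z₀ - deriv f₂ z₀ * f₁ z₀) /
        (f₂ z₀ * deriv f₃ z₀ - deriv f₂ z₀ * f₃ z₀)))] with c h1 h2 h3 hc
    exact ⟨h1 hc, h2, h3⟩
  -- no zeros at the zeros of f₂
  have hne : ∀ z ∈ D, f₂ z = 0 → f₁ z + c' * f₃ z ≠ 0 := by
    intro z hz h0 h
    by_cases h3 : f₃ z = 0
    · rw [h3, mul_zero, add_zero] at h
      have := hpos z hz
      rw [h, h0, h3] at this
      simp at this
    · apply hc'2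
      refine ⟨z, ⟨h0, hz⟩, ?_⟩
      show -f₁ z / f₃ z = c'
      rw [div_eq_iff h3]
      linear_combination -h
  set U : Set ℂ := {z | z ∈ D ∧ f₂ z ≠ 0} with hU
  have hUo : IsOpen U := by
    have : U = D ∩ f₂ ⁻¹' {0}ᶜ := by ext z; simp [hU]
    rw [this]
    exact h₂.continuousOn.isOpen_inter_preimage isOpen_ball isOpen_compl_singleton
  have hUD : U ⊆ D := fun z hz => hz.1
  set q : ℂ → ℂ := fun z => -(f₁ z + c' * f₃ z) / f₂ z with hq
  have hqd : DifferentiableOn ℂ q U := by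
    refine DifferentiableOn.div ?_ (h₂.mono hUD) fun z hz => hz.2
    exact ((h₁.mono hUD).add ((h₃.mono hUD).const_mul _)).neg
  -- the Wronskian
  set Wr : ℂ → ℂ := fun z => (f₂ z * deriv f₁ z - deriv f₂ z * f₁ z) +
    c' * (f₂ z * deriv f₃ z - deriv f₂ z * f₃ z) with hWr
  have hWrd : DifferentiableOn ℂ Wr D := by
    have d1 : DifferentiableOn ℂ (deriv f₁) D := h₁.deriv isOpen_ball
    have d2 : DifferentiableOn ℂ (deriv f₂) D := h₂.deriv isOpen_ball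
    have d3 : DifferentiableOn ℂ (deriv f₃) D := h₃.deriv isOpen_ball
    exact ((h₂.mul d1).sub (d2.mul h₁)).add (((h₂.mul d3).sub (d2.mul h₃)).const_mul _)
  have hWr0 : Wr z₀ ≠ 0 := by
    intro h
    simp only [hWr] at h
    by_cases h3 : f₂ z₀ * deriv f₃ z₀ - deriv f₂ z₀ * f₃ z₀ = 0
    · rw [h3, mul_zero, add_zero] at h
      rcases hW₀ with h4 | h4
      · exact h4 h
      · exact h4 h3
    · apply hc'3
      rw [mem_singleton_iff, eq_div_iff h3]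
      linear_combination h
  have hqW : ∀ z ∈ U, deriv q z = -Wr z / f₂ z ^ 2 := by
    intro z hz
    have e1 : HasDerivAt f₁ (deriv f₁ z) z :=
      (h₁.differentiableAt (isOpen_ball.mem_nhds hz.1)).hasDerivAt
    have e2 : HasDerivAt f₂ (deriv f₂ z) z :=
      (h₂.differentiableAt (isOpen_ball.mem_nhds hz.1)).hasDerivAt
    have e3 : HasDerivAt f₃ (deriv f₃ z) z :=
      (h₃.differentiableAt (isOpen_ball.mem_nhds hz.1)).hasDerivAt
    have e4 := ((e1.add (e3.const_mul c')).neg).div e2 hz.2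
    have e5 : HasDerivAt q (-Wr z / f₂ z ^ 2) z := by
      refine e4.congr_deriv ?_
      simp only [hWr, Pi.add_apply, Pi.neg_apply]
      congr 1
      ring
    exact e5.deriv
  have hcrit : ({z | Wr z = 0} ∩ D).Countable := zeros_countable hWrd ⟨z₀, hz₀, hWr0⟩
  -- area formula
  set Φ : ℂ → ℝ≥0∞ := fun z => Ψ z / ENNReal.ofReal (‖deriv q z‖ ^ 2) with hΦ
  have hΦm : Measurable Φ := by
    have hdm : Measurable (deriv q) := measurable_deriv q
    simp only [hΦ]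
    fun_prop
  have hfin : ∫⁻ z in U, (q ⁻¹' B).indicator
      (fun z => ENNReal.ofReal (‖deriv q z‖ ^ 2) * Φ z) z < ∞ := by
    refine lt_of_le_of_lt ?_ hc'1
    rw [← lintegral_indicator hUo.measurableSet]
    apply lintegral_mono
    intro z
    by_cases hz : z ∈ U
    · rw [indicator_of_mem hz]
      by_cases hzB : q z ∈ B
      · rw [indicator_of_mem (show z ∈ q ⁻¹' B from hzB)]
        have hmem : (c', z) ∈ S := by
          refine ⟨hz.1, ?_, ?_⟩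
          · show g₂ z ≠ 0
            rw [hg₂' z hz.1]; exact hz.2
          · show ‖g₁ z + c' * g₃ z‖ ≤ ‖g₂ z‖
            rw [hg₁' z hz.1, hg₂' z hz.1, hg₃' z hz.1]
            have h1 : ‖q z‖ ≤ 1 := by simpa [hB] using hzB
            simp only [hq] at h1
            rw [norm_div, norm_neg, div_le_one (norm_pos_iff.2 hz.2)] at h1
            exact h1
        have : k (c', z) = Ψ z := by
          simp only [hk]
          rw [indicator_of_mem hmem]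
        show ENNReal.ofReal (‖deriv q z‖ ^ 2) * Φ z ≤ k (c', z)
        rw [this]
        exact ENNReal.mul_div_le
      · rw [indicator_of_notMem (show z ∉ q ⁻¹' B from hzB)]
        exact zero_le
    · rw [indicator_of_notMem hz]
      exact zero_le
  have hae2 := area_ae hUo hqd hΦm measurableSet_closedBall hfin
  obtain ⟨c, hcB, hc1, hc2, hc3⟩ : ∃ c ∈ B,
      (∑' z : {z // z ∈ U ∧ deriv q z ≠ 0 ∧ q z = c}, Φ z < ∞) ∧
      (c ∉ q '' ({z | Wr z = 0} ∩ D)) ∧ (c ∉ ({q 0} : Set ℂ)) := by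
    apply exists_of_ae
    filter_upwards [hae2, ae_notMem_countable (hcrit.image q),
      ae_notMem_countable (countable_singleton (q 0))] with c h1 h2 h3 hc
    exact ⟨h1 hc, h2, h3⟩
  -- conclusions
  set F : ℂ → ℂ := fun z => f₁ z + c * f₂ z + c' * f₃ z with hF
  have hFU : ∀ z ∈ D, F z = 0 → z ∈ U := by
    intro z hz h
    refine ⟨hz, fun h0 => hne z hz h0 ?_⟩
    simp only [hF] at h
    rw [h0, mul_zero, add_zero] at h
    exact h
  have hFq : ∀ z ∈ U, F z = f₂ z * (c - q z) := by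
    intro z hz
    simp only [hF, hq]
    have := hz.2
    field_simp
    ring
  have hFq0 : ∀ z ∈ U, F z = 0 → q z = c := by
    intro z hz h
    rw [hFq z hz] at h
    have := (mul_eq_zero.1 h).resolve_left hz.2
    linear_combination -this
  have hFd : ∀ z ∈ U, F z = 0 → deriv F z = -(f₂ z * deriv q z) := by
    intro z hz h
    have e2 : HasDerivAt f₂ (deriv f₂ z) z :=
      (h₂.differentiableAt (isOpen_ball.mem_nhds hz.1)).hasDerivAt
    have e3 : HasDerivAt q (deriv q z) z := (hqd.differentiableAt (hUo.mem_nhds hz)).hasDerivAt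
    have e4 := e2.mul (e3.const_sub c)
    have e5 : HasDerivAt F (-(f₂ z * deriv q z)) z := by
      refine (e4.congr_of_eventuallyEq ?_).congr_deriv ?_
      · filter_upwards [hUo.mem_nhds hz] with w hw using hFq w hw
      · rw [hFq0 z hz h]; ring
    exact e5.deriv
  have hdq : ∀ z ∈ U, F z = 0 → deriv q z ≠ 0 := by
    intro z hz h h0
    apply hc2
    refine ⟨z, ⟨?_, hz.1⟩, hFq0 z hz h⟩
    have h1 := hqW z hz
    rw [h0] at h1
    have h2 : -Wr z = 0 := by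
      rcases div_eq_zero_iff.1 h1.symm with h2 | h2
      · exact h2
      · exact absurd h2 (pow_ne_zero 2 hz.2)
    exact neg_eq_zero.1 h2
  refine ⟨c, hcB, c', hc'B, ?_, ?_, ?_⟩
  · intro h
    have h0 : (0 : ℂ) ∈ D := mem_ball_self one_pos
    have hU0 := hFU 0 h0 h
    exact hc3 (by rw [mem_singleton_iff]; exact (hFq0 0 hU0 h).symm)
  · intro z hz h
    have hzU := hFU z hz h
    show deriv F z ≠ 0
    rw [hFd z hzU h]
    exact neg_ne_zero.2 (mul_ne_zero hzU.2 (hdq z hzU h))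
  · refine lt_of_le_of_lt ?_ hc1
    set j : {z : ℂ // z ∈ D ∧ F z = 0} → {z // z ∈ U ∧ deriv q z ≠ 0 ∧ q z = c} := fun z =>
      ⟨z, hFU z z.2.1 z.2.2, hdq z (hFU z z.2.1 z.2.2) z.2.2, hFq0 z (hFU z z.2.1 z.2.2) z.2.2⟩
      with hj
    have hjinj : Function.Injective j := by
      intro z w h
      have := congrArg Subtype.val h
      exact Subtype.ext this
    have e : ∀ z : {z : ℂ // z ∈ D ∧ F z = 0},
        ENNReal.ofReal (G z * (‖f₁ z‖ ^ 2 + ‖f₂ z‖ ^ 2 + ‖f₃ z‖ ^ 2) /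
          ((1 - ‖(z : ℂ)‖) * ‖deriv F z‖ ^ 2)) = (fun w : {z // z ∈ U ∧ deriv q z ≠ 0 ∧ q z = c} =>
            Φ w) (j z) := by
      intro z
      obtain ⟨z, hz, hFz⟩ := z
      have hzU := hFU z hz hFz
      have hdq0 := hdq z hzU hFz
      have hz1 : ‖z‖ < 1 := by simpa [hD] using hz
      show ENNReal.ofReal (G z * (‖f₁ z‖ ^ 2 + ‖f₂ z‖ ^ 2 + ‖f₃ z‖ ^ 2) /
          ((1 - ‖z‖) * ‖deriv F z‖ ^ 2)) = Ψ z / ENNReal.ofReal (‖deriv q z‖ ^ 2)
      have hp1 : 0 < ‖deriv q z‖ := norm_pos_iff.2 hdq0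
      have hp2 : 0 < ‖f₂ z‖ := norm_pos_iff.2 hzU.2
      have hp3 : 0 < 1 - ‖z‖ := by linarith
      simp only [hΨ]
      rw [hg' z hz, hg₁' z hz, hg₂' z hz, hg₃' z hz,
        ← ENNReal.ofReal_mul (div_nonneg (hG0 z hz) hp3.le),
        ← ENNReal.ofReal_div_of_pos (by positivity), hFd z hzU hFz, norm_neg, norm_mul]
      congr 1
      field_simp
    show ∑' z : {z : ℂ // z ∈ D ∧ F z = 0},
        ENNReal.ofReal (G z * (‖f₁ z‖ ^ 2 + ‖f₂ z‖ ^ 2 + ‖f₃ z‖ ^ 2) /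
          ((1 - ‖(z : ℂ)‖) * ‖deriv F z‖ ^ 2)) ≤ _
    simp only [e]
    exact ENNReal.tsum_comp_le_tsum_of_injective hjinj _

end Pool.Agent.W775.SR
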