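import Mathlib
import Pool.Agent.W775.SR.Rho
import Pool.Agent.W775.SR.Gfun
import Pool.Agent.W775.SR.Fub
import Pool.Agent.W775.SR.Select

set_option autoImplicit false
set_option linter.unusedVariables false

/-!
# Reducibility of triples
-/

open MeasureTheory Filter Topology Complex Metric Set
open scoped ComplexConjugate ENNReal

namespace Pool.Agent.W775.SR

open Pool.Agent.Helper34.Dg (bfac disc mem_disc bfac_sub_one bfac_diff bfac_le bfac_eq_zero
  one_sub_bfac bden_ne bden_ge bden_ge' bden_le)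

theorem GG_eq {ι : Type} [Fintype ι] (f : ι → ℂ → ℂ) : GG f = gg (uu f) := rfl

theorem n2_le_maj {f : Fin 3 → ℂ → ℂ} (hf : ∀ i, NV (f i)) :
    ∃ V, Maj V ∧ ∀ z ∈ ball (0 : ℂ) 1, n2 f z ≤ Real.exp (2 * (V z).re) := by
  choose W hW hW' using fun i => (hf i).maj
  refine ⟨fun z => (W 0 z + W 1 z) + W 2 z + ((1:ℝ):ℂ),
    (((hW 0).add (hW 1)).add (hW 2)).add (Maj.const zero_le_one), fun z hz => ?_⟩
  have e : ((W 0 z + W 1 z) + W 2 z + ((1:ℝ):ℂ)).re =
      ((W 0 z).re + (W 1 z).re + (W 2 z).re) + 1 := by simp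
  rw [e]
  set S : ℝ := (W 0 z).re + (W 1 z).re + (W 2 z).re with hS
  have h0 := (hW 0).2 z hz
  have h1 := (hW 1).2 z hz
  have h2 := (hW 2).2 z hz
  have hle : ∀ i, ‖f i z‖ ^ 2 ≤ Real.exp (2 * S) := by
    intro i
    have h3 : ‖f i z‖ ≤ Real.exp S := by
      refine (hW' i z hz).trans (Real.exp_le_exp.2 ?_)
      fin_cases i
      · show (W 0 z).re ≤ S; linarith
      · show (W 1 z).re ≤ S; linarith
      · show (W 2 z).re ≤ S; linarith
    calc ‖f i z‖ ^ 2 ≤ Real.exp S ^ 2 := by gcongr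
      _ = Real.exp (2 * S) := by rw [← Real.exp_nat_mul]; norm_num
  have h3 : n2 f z ≤ 3 * Real.exp (2 * S) := by
    unfold n2
    rw [Fin.sum_univ_three]
    linarith [hle 0, hle 1, hle 2]
  have h4 : (3:ℝ) ≤ Real.exp 2 := by linarith [Real.add_one_le_exp (2:ℝ)]
  have h5 : Real.exp (2 * (S + 1)) = Real.exp (2 * S) * Real.exp 2 := by
    rw [← Real.exp_add]; congr 1; ring
  rw [h5]
  nlinarith [Real.exp_pos (2 * S)]

theorem cs_one {f g : Fin 3 → ℂ → ℂ} {z : ℂ} (h : ∑ i, g i z * f i z = 1) :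
    1 ≤ n2 g z * n2 f z := by
  have h1 : (1:ℝ) ≤ ∑ i, ‖g i z‖ * ‖f i z‖ := by
    have h2 : ‖∑ i, g i z * f i z‖ = 1 := by rw [h]; simp
    rw [← h2]
    refine (norm_sum_le _ _).trans (le_of_eq ?_)
    exact Finset.sum_congr rfl fun i _ => norm_mul _ _
  have h2 := Finset.sum_mul_sq_le_sq_mul_sq Finset.univ (fun i => ‖g i z‖) (fun i => ‖f i z‖)
  unfold n2
  nlinarith

/-- division at simple zeros -/
theorem exists_quot {F φ : ℂ → ℂ} (hF : DifferentiableOn ℂ F (ball 0 1))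
    (hφ : DifferentiableOn ℂ φ (ball 0 1))
    (hs : ∀ z ∈ ball (0 : ℂ) 1, F z = 0 → deriv F z ≠ 0)
    (h0 : ∀ z ∈ ball (0 : ℂ) 1, F z = 0 → φ z = 0) :
    ∃ G : ℂ → ℂ, DifferentiableOn ℂ G (ball 0 1) ∧ ∀ z ∈ ball (0 : ℂ) 1, G z * F z = φ z := by
  classical
  refine ⟨fun z => if F z = 0 then deriv φ z / deriv F z else φ z / F z, ?_, ?_⟩
  · intro z hz
    apply DifferentiableAt.differentiableWithinAt
    have hFz := hF.differentiableAt (isOpen_ball.mem_nhds hz)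
    have hφz := hφ.differentiableAt (isOpen_ball.mem_nhds hz)
    by_cases h : F z = 0
    · have hFs := (Complex.differentiableOn_dslope (isOpen_ball.mem_nhds hz)).2 hF
      have hφs := (Complex.differentiableOn_dslope (isOpen_ball.mem_nhds hz)).2 hφ
      have d1 := hFs.differentiableAt (isOpen_ball.mem_nhds hz)
      have d2 := hφs.differentiableAt (isOpen_ball.mem_nhds hz)
      have hne : dslope F z z ≠ 0 := by rw [dslope_same]; exact hs z hz h
      have d3 : DifferentiableAt ℂ (fun w => dslope φ z w / dslope F z w) z := d2.div d1 hne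
      refine d3.congr_of_eventuallyEq ?_
      filter_upwards [d1.continuousAt.eventually_ne hne] with w hw
      by_cases hwz : w = z
      · subst hwz
        rw [if_pos h, dslope_same, dslope_same]
      · have e1 : F w = (w - z) * dslope F z w := by
          have := sub_smul_dslope F z w
          rw [h, sub_zero, smul_eq_mul] at this
          exact this.symm
        have e2 : φ w = (w - z) * dslope φ z w := by
          have := sub_smul_dslope φ z w
          rw [h0 z hz h, sub_zero, smul_eq_mul] at this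
          exact this.symm
        have hwz' : w - z ≠ 0 := sub_ne_zero.2 hwz
        have hFw : F w ≠ 0 := by rw [e1]; exact mul_ne_zero hwz' hw
        rw [if_neg hFw, e1, e2, mul_div_mul_left _ _ hwz']
    · have d3 : DifferentiableAt ℂ (fun w => φ w / F w) z := hφz.div hFz h
      refine d3.congr_of_eventuallyEq ?_
      filter_upwards [hFz.continuousAt.eventually_ne h] with w hw
      rw [if_neg hw]
  · intro z hz
    show (if F z = 0 then deriv φ z / deriv F z else φ z / F z) * F z = φ z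
    by_cases h : F z = 0
    · rw [h, mul_zero, h0 z hz h]
    · rw [if_neg h, div_mul_cancel₀ _ h]

theorem prop_of_wr {f g : ℂ → ℂ} (hf : DifferentiableOn ℂ f (ball 0 1))
    (hg : DifferentiableOn ℂ g (ball 0 1))
    (hW : ∀ z ∈ ball (0 : ℂ) 1, g z * deriv f z - deriv g z * f z = 0)
    {z₀ : ℂ} (hz₀ : z₀ ∈ ball (0 : ℂ) 1) (hg0 : g z₀ ≠ 0) :
    ∀ z ∈ ball (0 : ℂ) 1, f z = f z₀ / g z₀ * g z := by
  have hg0' := hg.differentiableAt (isOpen_ball.mem_nhds hz₀)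
  obtain ⟨r, hr, hrs⟩ := Metric.eventually_nhds_iff_ball.1
    ((hg0'.continuousAt.eventually_ne hg0).and (isOpen_ball.mem_nhds hz₀))
  have hq : DifferentiableOn ℂ (fun z => f z / g z) (ball z₀ r) := by
    refine DifferentiableOn.div (hf.mono fun z hz => (hrs z hz).2)
      (hg.mono fun z hz => (hrs z hz).2) fun z hz => (hrs z hz).1
  have hd : (ball z₀ r).EqOn (deriv fun z => f z / g z) 0 := by
    intro z hz
    have e1 : HasDerivAt f (deriv f z) z :=
      (hf.differentiableAt (isOpen_ball.mem_nhds (hrs z hz).2)).hasDerivAt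
    have e2 : HasDerivAt g (deriv g z) z :=
      (hg.differentiableAt (isOpen_ball.mem_nhds (hrs z hz).2)).hasDerivAt
    have e3 := (e1.div e2 (hrs z hz).1).deriv
    have e4 : (deriv fun z => f z / g z) z = (deriv f z * g z - f z * deriv g z) / g z ^ 2 := e3
    rw [e4]
    have := hW z (hrs z hz).2
    have e5 : deriv f z * g z - f z * deriv g z = 0 := by linear_combination this
    rw [e5, zero_div]
    rfl
  have hconst : ∀ z ∈ ball z₀ r, f z / g z = f z₀ / g z₀ := fun z hz =>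
    isOpen_ball.is_const_of_deriv_eq_zero (convex_ball z₀ r).isPreconnected hq hd hz
      (mem_ball_self hr)
  have hz : ∀ z ∈ ball (0 : ℂ) 1, f z - f z₀ / g z₀ * g z = 0 := by
    apply eq_zero_of_ball (f := fun z => f z - f z₀ / g z₀ * g z) (hf.sub (hg.const_mul _)) hz₀ hr
    intro z hz
    rw [← hconst z hz, div_mul_cancel₀ _ (hrs z hz).1, sub_self]
  intro z hz'
  exact sub_eq_zero.1 (hz z hz')

/-- Every unimodular triple of the Nevanlinna class is reducible. -/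
theorem triple {f₁ f₂ f₃ g₁ g₂ g₃ : ℂ → ℂ} (hf₁ : NV f₁) (hf₂ : NV f₂) (hf₃ : NV f₃)
    (hg₁ : NV g₁) (hg₂ : NV g₂) (hg₃ : NV g₃)
    (h : ∀ z ∈ ball (0 : ℂ) 1, g₁ z * f₁ z + g₂ z * f₂ z + g₃ z * f₃ z = 1) :
    ∃ h₁ h₂ G₁ G₂ : ℂ → ℂ, NV h₁ ∧ NV h₂ ∧ NV G₁ ∧ NV G₂ ∧
      ∀ z ∈ ball (0 : ℂ) 1, G₁ z * (f₁ z + h₁ z * f₃ z) + G₂ z * (f₂ z + h₂ z * f₃ z) = 1 := by
  by_cases hz2 : ∀ z ∈ ball (0 : ℂ) 1, f₂ z = 0
  · refine ⟨fun _ => 0, fun _ => 1, g₁, g₃, NV.const 0, NV.const 1, hg₁, hg₃, fun z hz => ?_⟩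
    have := h z hz
    rw [hz2 z hz] at this ⊢
    linear_combination this
  push Not at hz2
  obtain ⟨z₁, hz₁, hz₁'⟩ := hz2
  by_cases hWr : ∀ z ∈ ball (0 : ℂ) 1, f₂ z * deriv f₁ z - deriv f₂ z * f₁ z = 0 ∧
      f₂ z * deriv f₃ z - deriv f₂ z * f₃ z = 0
  · have e1 := prop_of_wr hf₁.1 hf₂.1 (fun z hz => (hWr z hz).1) hz₁ hz₁'
    have e3 := prop_of_wr hf₃.1 hf₂.1 (fun z hz => (hWr z hz).2) hz₁ hz₁'
    refine ⟨fun _ => 0, fun _ => 0, fun _ => 0,
      fun z => (f₁ z₁ / f₂ z₁ * g₁ z + g₂ z) + f₃ z₁ / f₂ z₁ * g₃ z, NV.const 0, NV.const 0,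
      NV.const 0, ((hg₁.const_mul _).add hg₂).add (hg₃.const_mul _), fun z hz => ?_⟩
    have := h z hz
    rw [e1 z hz, e3 z hz] at this
    linear_combination this
  have hW : ∃ z ∈ ball (0 : ℂ) 1, f₂ z * deriv f₁ z - deriv f₂ z * f₁ z ≠ 0 ∨
      f₂ z * deriv f₃ z - deriv f₂ z * f₃ z ≠ 0 := by
    push Not at hWr
    obtain ⟨z, hz, hz'⟩ := hWr
    refine ⟨z, hz, ?_⟩
    by_cases h1 : f₂ z * deriv f₁ z - deriv f₂ z * f₁ z = 0
    · exact Or.inr (hz' h1)
    · exact Or.inl h1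
  -- vectors
  set f : Fin 3 → ℂ → ℂ := ![f₁, f₂, f₃] with hfdef
  set g : Fin 3 → ℂ → ℂ := ![g₁, g₂, g₃] with hgdef
  have hfN : ∀ i, NV (f i) := by
    intro i; fin_cases i
    · exact hf₁
    · exact hf₂
    · exact hf₃
  have hgN : ∀ i, NV (g i) := by
    intro i; fin_cases i
    · exact hg₁
    · exact hg₂
    · exact hg₃
  have hfd : ∀ i, DifferentiableOn ℂ (f i) (ball 0 1) := fun i => (hfN i).1
  have hn2 : ∀ z, n2 f z = ‖f₁ z‖ ^ 2 + ‖f₂ z‖ ^ 2 + ‖f₃ z‖ ^ 2 := by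
    intro z
    unfold n2
    rw [Fin.sum_univ_three]
    rfl
  obtain ⟨V, hV, hV'⟩ := n2_le_maj hfN
  obtain ⟨W, hWm, hW'⟩ := n2_le_maj hgN
  have hcs : ∀ z ∈ ball (0 : ℂ) 1, 1 ≤ n2 g z * n2 f z := by
    intro z hz
    apply cs_one
    rw [Fin.sum_univ_three]
    exact h z hz
  have hpos : ∀ z ∈ ball (0 : ℂ) 1, 0 < n2 f z := by
    intro z hz
    have h1 := hcs z hz
    have h2 := n2_nonneg f z
    rcases h2.eq_or_lt with h3 | h3
    · rw [← h3, mul_zero] at h1; linarith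
    · exact h3
  have hlow : ∀ z ∈ ball (0 : ℂ) 1, Real.exp (-(2 * (W z).re)) ≤ n2 f z := by
    intro z hz
    rw [Real.exp_neg, inv_le_iff_one_le_mul₀ (Real.exp_pos _)]
    refine (hcs z hz).trans ?_
    rw [mul_comm]
    exact mul_le_mul_of_nonneg_left (hW' z hz) (hpos z hz).le
  have huV : ∀ z ∈ ball (0 : ℂ) 1, uu f z ≤ (V z).re := by
    intro z hz
    unfold uu
    have h1 := Real.log_le_log (hpos z hz) (hV' z hz)
    rw [Real.log_exp] at h1
    linarith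
  have huW : ∀ z ∈ ball (0 : ℂ) 1, -(W z).re ≤ uu f z := by
    intro z hz
    unfold uu
    have h1 := Real.log_le_log (Real.exp_pos _) (hlow z hz)
    rw [Real.log_exp] at h1
    linarith
  have huc := uu_contOn hfd hpos
  have hmm : ∀ s t : ℝ, 0 ≤ s → s ≤ t → t < 1 →
      Real.circleAverage (uu f) 0 s ≤ Real.circleAverage (uu f) 0 t :=
    fun s t h1 h2 h3 => mean_mono hfd hpos h1 h2 h3
  have hMM : ∀ t : ℝ, 0 ≤ t → t < 1 → Real.circleAverage (uu f) 0 t ≤ (V 0).re := by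
    intro t h1 h2
    have hsub := sub_disc (z := 0) h1 (by simpa using h2)
    rw [← re_mean hV.1 hsub]
    apply Real.circleAverage_mono (ci_of_contOn huc hsub) (ci_of_contOn (re_cont hV.1) hsub)
    intro x hx
    exact huV x (hsub (sphere_subset_closedBall hx))
  have hG0 : ∀ z ∈ ball (0 : ℂ) 1, 0 ≤ gg (uu f) z := fun z hz => GG_nonneg hfd hpos hz
  have hGa := gg_area huc hmm hG0 hMM
  obtain ⟨c, hc, c', hc', hF0, hFs, hFt⟩ := select hf₁.1 hf₂.1 hf₃.1
    (fun z hz => by rw [← hn2]; exact hpos z hz) ⟨z₁, hz₁, hz₁'⟩ hW (gg_contOn huc) hG0 hGa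
  have hcn : ‖c‖ ≤ 1 := by simpa using hc
  have hcn' : ‖c'‖ ≤ 1 := by simpa using hc'
  set F : ℂ → ℂ := fun z => f₁ z + c * f₂ z + c' * f₃ z with hFdef
  have hFN : NV F := (hf₁.add (hf₂.const_mul c)).add (hf₃.const_mul c')
  -- the zeros
  set ι : Type := {z : ℂ // z ∈ ball (0 : ℂ) 1 ∧ F z = 0} with hι
  set a : ι → ℂ := fun i => i.1 with ha
  have haD : ∀ i, a i ∈ disc := fun i => i.2.1
  have hainj : Function.Injective a := Subtype.val_injective
  have hsB : Summable fun i : ι => 1 - ‖a i‖ := zeros_summable hFN hF0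
  -- the weights
  set ψ : ι → ℝ := fun i => 12 * (gg (uu f) (a i) * n2 f (a i) /
    ((1 - ‖a i‖) ^ 2 * ‖deriv F (a i)‖ ^ 2)) with hψ
  have ha1 : ∀ i, 0 < 1 - ‖a i‖ := fun i => by linarith [mem_disc.1 (haD i)]
  have hψ0 : ∀ i, 0 ≤ ψ i := by
    intro i
    have h1 := hG0 _ (haD i)
    have h2 := hpos _ (haD i)
    have h3 := ha1 i
    simp only [hψ]
    positivity
  have hψs : Summable fun i => ψ i * (1 - ‖a i‖) := by
    have h1 := ENNReal.summable_toReal hFt.ne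
    have h2 := h1.mul_left 12
    refine h2.congr fun i => ?_
    have h3 := hG0 _ (haD i)
    have h4 := hpos _ (haD i)
    have h5 := ha1 i
    have h6 : 0 < ‖deriv F (a i)‖ := norm_pos_iff.2 (hFs _ i.2.1 i.2.2)
    rw [ENNReal.toReal_ofReal (by rw [← hn2]; positivity), ← hn2]
    simp only [hψ]
    show 12 * (gg (uu f) (a i) * n2 f (a i) / ((1 - ‖a i‖) * ‖deriv F (a i)‖ ^ 2)) = _
    field_simp
  set X : ℂ → ℂ := hsum (fun _ : ι => (25 / 2 : ℝ)) a with hX
  set Y : ℂ → ℂ := hsum ψ a with hY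
  have hXm : Maj X := hsum_maj haD (fun _ => by norm_num) (hsB.mul_left _)
  have hYm : Maj Y := hsum_maj haD hψ0 hψs
  set VV : ℂ → ℂ := fun z => ((V z + W z) + X z) + Y z with hVV
  have hVVm : Maj VV := ((hV.add hWm).add hXm).add hYm
  have hB : ∀ j, ∀ s : Finset ι, j ∉ s →
      ∑ i ∈ s, -Real.log ‖bfac (a i) (a j)‖ ≤ (VV (a j)).re := by
    intro j s hjs
    classical
    have hz := haD j
    have hne : ∀ i ∈ s, a i ≠ a j := by
      intro i hi h
      rw [hainj h] at hi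
      exact hjs hi
    have h1 : ∑ i ∈ s, -Real.log ‖bfac (a i) (a j)‖ ≤
        ∑ i ∈ s, Real.posLog ((1 - ‖a j‖) / 2 / ‖a j - a i‖) +
          ∑ i ∈ s, 25 / 2 * (1 - ‖bfac (a i) (a j)‖ ^ 2) := by
      rw [← Finset.sum_add_distrib]
      exact Finset.sum_le_sum fun i hi => rho_log (haD i) (haD j) (hne i hi)
    have h2 : ∑ i ∈ s, 25 / 2 * (1 - ‖bfac (a i) (a j)‖ ^ 2) ≤ (X (a j)).re := by
      refine le_trans (Finset.sum_le_sum fun i hi => ?_)
        (hsum_ge (c := fun _ : ι => (25 / 2 : ℝ)) haD (fun _ => by norm_num) (hsB.mul_left _) hz s)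
      exact mul_le_mul_of_nonneg_left (kk_re_ge' (haD i) hz) (by norm_num)
    have h3 : ψ j ≤ (Y (a j)).re := by
      have h4 := hsum_ge haD hψ0 hψs hz {j}
      rw [Finset.sum_singleton] at h4
      refine le_trans ?_ h4
      have h5 := kk_self (haD j)
      nlinarith [hψ0 j]
    have h4 := GG_le hfd hpos hV huV huW hz
    have h5 := local_sum hfd hpos (![1, c, c']) (F := F) (fun z => by
      rw [Fin.sum_univ_three]
      show F z = 1 * f₁ z + c * f₂ z + c' * f₃ z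
      simp only [hFdef]
      ring) hz j.2.2 (hFs _ j.2.1 j.2.2) (s.map ⟨a, hainj⟩) (by
        intro x hx
        rw [Finset.mem_map] at hx
        obtain ⟨y, _, rfl⟩ := hx
        exact y.2) (by
        intro hx
        rw [Finset.mem_map] at hx
        obtain ⟨y, hy, hyj⟩ := hx
        have : y = j := hainj hyj
        rw [this] at hy
        exact hjs hy)
    rw [Finset.sum_map] at h5
    have h6 : ∑ i ∈ s, Real.posLog ((1 - ‖a j‖) / 2 / ‖a j - a i‖) ≤
        GG f (a j) + (∑ i, ‖(![1, c, c'] : Fin 3 → ℂ) i‖ ^ 2) * GG f (a j) *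
          (n2 f (a j) / (((1 - ‖a j‖) / 2) ^ 2 * ‖deriv F (a j)‖ ^ 2)) := h5
    have h7 : ∑ i, ‖(![1, c, c'] : Fin 3 → ℂ) i‖ ^ 2 ≤ 3 := by
      rw [Fin.sum_univ_three]
      show ‖(1:ℂ)‖ ^ 2 + ‖c‖ ^ 2 + ‖c'‖ ^ 2 ≤ 3
      rw [norm_one]
      nlinarith [norm_nonneg c, norm_nonneg c']
    have h8 := ha1 j
    have h9 : 0 < ‖deriv F (a j)‖ := norm_pos_iff.2 (hFs _ j.2.1 j.2.2)
    have h10 : 0 ≤ GG f (a j) := hG0 _ hz
    have h11 := hpos _ hz
    have h12 : (∑ i, ‖(![1, c, c'] : Fin 3 → ℂ) i‖ ^ 2) * GG f (a j) *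
          (n2 f (a j) / (((1 - ‖a j‖) / 2) ^ 2 * ‖deriv F (a j)‖ ^ 2)) ≤ ψ j := by
      calc (∑ i, ‖(![1, c, c'] : Fin 3 → ℂ) i‖ ^ 2) * GG f (a j) *
          (n2 f (a j) / (((1 - ‖a j‖) / 2) ^ 2 * ‖deriv F (a j)‖ ^ 2))
          ≤ 3 * GG f (a j) * (n2 f (a j) / (((1 - ‖a j‖) / 2) ^ 2 * ‖deriv F (a j)‖ ^ 2)) := by
            apply mul_le_mul_of_nonneg_right _ (by positivity)
            exact mul_le_mul_of_nonneg_right h7 h10
        _ = ψ j := by
            simp only [hψ]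
            rw [← GG_eq]
            field_simp
            ring
    have h13 : (VV (a j)).re = (V (a j)).re + (W (a j)).re + (X (a j)).re + (Y (a j)).re := by
      simp [hVV]
    rw [h13]
    linarith
  -- the choice of h₂
  obtain ⟨h₂, hh₂N, hh₂⟩ := interp haD hainj hsB hVVm hB (Maj.const zero_le_one)
    (fun j => if ‖f₃ (a j)‖ ≤ ‖f₂ (a j)‖ then (0:ℂ) else 2) (by
      intro j
      have : (2:ℝ) ≤ Real.exp (((1:ℝ):ℂ)).re := by
        rw [Complex.ofReal_re]; linarith [Real.add_one_le_exp (1:ℝ)]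
      split_ifs
      · rw [norm_zero]; exact (Real.exp_pos _).le
      · simpa using this)
  set F₂ : ℂ → ℂ := fun z => f₂ z + h₂ z * f₃ z with hF₂
  have hF₂N : NV F₂ := hf₂.add (hh₂N.mul hf₃)
  have hF₂low : ∀ j, n2 f (a j) ≤ 6 * ‖F₂ (a j)‖ ^ 2 := by
    intro j
    have hFj : f₁ (a j) + c * f₂ (a j) + c' * f₃ (a j) = 0 := j.2.2
    have h1 : ‖f₁ (a j)‖ ≤ ‖f₂ (a j)‖ + ‖f₃ (a j)‖ := by
      have e : f₁ (a j) = -(c * f₂ (a j) + c' * f₃ (a j)) := by linear_combination hFj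
      rw [e, norm_neg]
      refine (norm_add_le _ _).trans ?_
      rw [norm_mul, norm_mul]
      nlinarith [norm_nonneg (f₂ (a j)), norm_nonneg (f₃ (a j))]
    have h2 : max ‖f₂ (a j)‖ ‖f₃ (a j)‖ ≤ ‖F₂ (a j)‖ := by
      simp only [hF₂]
      rw [hh₂ j]
      split_ifs with h3
      · rw [max_eq_left h3]; simp
      · push Not at h3
        rw [max_eq_right h3.le]
        have h4 := norm_sub_norm_le (2 * f₃ (a j)) (-f₂ (a j))
        rw [norm_neg, norm_mul, sub_neg_eq_add] at h4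
        have h5 : ‖(2:ℂ)‖ = 2 := by norm_num
        rw [h5, add_comm (2 * f₃ (a j))] at h4
        linarith
    rw [hn2]
    have h3 := (le_max_left ‖f₂ (a j)‖ ‖f₃ (a j)‖).trans h2
    have h4 := (le_max_right ‖f₂ (a j)‖ ‖f₃ (a j)‖).trans h2
    have h5 := norm_nonneg (f₁ (a j))
    have h6 := norm_nonneg (f₂ (a j))
    have h7 := norm_nonneg (f₃ (a j))
    nlinarith
  have hF₂ne : ∀ j, F₂ (a j) ≠ 0 := by
    intro j h0
    have h1 := hF₂low j
    rw [h0, norm_zero] at h1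
    have := hpos _ (haD j)
    linarith
  obtain ⟨G₂, hG₂N, hG₂⟩ := interp haD hainj hsB hVVm hB (hWm.add (Maj.const zero_le_one))
    (fun j => (F₂ (a j))⁻¹) (by
      intro j
      have h1 := hF₂low j
      have h2 := hlow _ (haD j)
      have h3 : 0 < ‖F₂ (a j)‖ := norm_pos_iff.2 (hF₂ne j)
      have e : (W (a j) + ((1:ℝ):ℂ)).re = (W (a j)).re + 1 := by simp
      rw [e, norm_inv]
      apply inv_le_of_inv_le₀ (Real.exp_pos _)
      rw [← Real.exp_neg]
      have h4 : Real.exp (-((W (a j)).re + 1)) ^ 2 ≤ ‖F₂ (a j)‖ ^ 2 := by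
        have h5 : Real.exp (-((W (a j)).re + 1)) ^ 2 =
            Real.exp (-(2 * (W (a j)).re)) * Real.exp (-2) := by
          rw [← Real.exp_nat_mul, ← Real.exp_add]
          congr 1
          push_cast
          ring
        have h6 : Real.exp (-2) ≤ 1 / 6 := by
          rw [Real.exp_neg, ← one_div]
          apply one_div_le_one_div_of_le (by norm_num)
          have h7 : Real.exp 2 = Real.exp 1 ^ 2 := by rw [← Real.exp_nat_mul]; norm_num
          have h8 : (2.7:ℝ) < Real.exp 1 := by linarith [Real.exp_one_gt_d9]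
          rw [h7]
          nlinarith
        rw [h5]
        have h9 := Real.exp_pos (-(2 * (W (a j)).re))
        nlinarith
      exact le_of_sq_le_sq h4 h3.le)
  have hφN : NV (fun z => 1 - G₂ z * F₂ z) := (NV.const 1).sub (hG₂N.mul hF₂N)
  have hφ0 : ∀ z ∈ ball (0 : ℂ) 1, F z = 0 → (fun z => 1 - G₂ z * F₂ z) z = 0 := by
    intro z hz hFz
    have h1 := hG₂ ⟨z, hz, hFz⟩
    have h2 := hF₂ne ⟨z, hz, hFz⟩
    show 1 - G₂ z * F₂ z = 0
    have h3 : G₂ z = (F₂ z)⁻¹ := h1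
    rw [h3, inv_mul_cancel₀ h2, sub_self]
  obtain ⟨G₁, hG₁d, hG₁⟩ := exists_quot hFN.1 hφN.1 hFs hφ0
  have hG₁N : NV G₁ := NV.div hφN hFN hF0 hG₁d hG₁
  refine ⟨fun z => c' - c * h₂ z, h₂, G₁, fun z => G₂ z + c * G₁ z,
    (NV.const c').sub (hh₂N.const_mul c), hh₂N, hG₁N, hG₂N.add (hG₁N.const_mul c),
    fun z hz => ?_⟩
  have h1 : G₁ z * (f₁ z + c * f₂ z + c' * f₃ z) = 1 - G₂ z * (f₂ z + h₂ z * f₃ z) := hG₁ z hz
  show G₁ z * (f₁ z + (c' - c * h₂ z) * f₃ z) + (G₂ z + c * G₁ z) * (f₂ z + h₂ z * f₃ z) = 1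
  linear_combination h1

end Pool.Agent.W775.SR
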